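import Mathlib

set_option autoImplicit false

namespace Pool.Agent.MP917bd5

open Metric Filter Topology Set

/-- Ekeland's variational principle for a continuous nonnegative function. -/
theorem ekeland {X : Type*} [MetricSpace X] [CompleteSpace X] (ψ : X → ℝ) (hc : Continuous ψ)
    (h0 : ∀ x, 0 ≤ ψ x) (ε : ℝ) (hε : 0 < ε) (x0 : X) :
    ∃ x, ψ x + ε * dist x x0 ≤ ψ x0 ∧ ∀ y, ψ x ≤ ψ y + ε * dist y x := by
  let S : X → Set X := fun x => {y | ψ y + ε * dist y x ≤ ψ x}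
  have hself : ∀ x, x ∈ S x := fun x => by simp [S]
  have htr : ∀ x y z, y ∈ S x → z ∈ S y → z ∈ S x := by
    intro x y z hy hz
    simp only [S, mem_ofPred_eq] at hy hz ⊢
    have h1 := dist_triangle z y x
    have h2 := mul_le_mul_of_nonneg_left h1 hε.le
    linarith
  have hcl : ∀ x, IsClosed (S x) := fun x =>
    isClosed_le (hc.add (continuous_const.mul (continuous_id.dist continuous_const)))
      continuous_const
  have hstep : ∀ (x : X) (n : ℕ), ∃ y ∈ S x, ∀ z ∈ S x, ψ y ≤ ψ z + 1 / ((n : ℝ) + 1) := by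
    intro x n
    have hb : BddBelow (ψ '' S x) := ⟨0, by rintro _ ⟨y, -, rfl⟩; exact h0 y⟩
    have hne : (ψ '' S x).Nonempty := ⟨_, x, hself x, rfl⟩
    have hp : (0 : ℝ) < 1 / ((n : ℝ) + 1) := by positivity
    obtain ⟨_, ⟨y, hy, rfl⟩, hlt⟩ := exists_lt_of_csInf_lt hne (lt_add_of_pos_right _ hp)
    refine ⟨y, hy, fun z hz => ?_⟩
    have := csInf_le hb ⟨z, hz, rfl⟩
    linarith
  choose F hF1 hF2 using hstep
  let u : ℕ → X := fun n => Nat.rec x0 (fun k x => F x k) n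
  have hu : ∀ n, u (n + 1) = F (u n) n := fun n => rfl
  have hmono : ∀ n m, n ≤ m → u m ∈ S (u n) := by
    intro n m h
    induction h with
    | refl => exact hself _
    | step _ ih => exact htr _ _ _ ih (by rw [hu]; exact hF1 _ _)
  have hsm : ∀ n, ∀ z ∈ S (u (n + 1)), dist z (u (n + 1)) ≤ 1 / ((n : ℝ) + 1) / ε := by
    intro n z hz
    have h1 : z ∈ S (u n) := htr _ _ _ (hmono n (n + 1) (Nat.le_succ n)) hz
    have h2 := hF2 (u n) n z h1
    rw [← hu] at h2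
    simp only [S, mem_ofPred_eq] at hz
    rw [le_div_iff₀ hε]
    linarith
  have hlim : Tendsto (fun n : ℕ => 1 / ((n : ℝ) + 1) / ε) atTop (𝓝 0) := by
    simpa using (tendsto_one_div_add_atTop_nhds_zero_nat (𝕜 := ℝ)).div_const ε
  have hcau : CauchySeq (fun n => u (n + 1)) := by
    refine cauchySeq_of_le_tendsto_0' _ (fun n m hnm => ?_) hlim
    rw [dist_comm]
    exact hsm n _ (hmono _ _ (Nat.succ_le_succ hnm))
  obtain ⟨x, hx⟩ := cauchySeq_tendsto_of_complete hcau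
  have hxS : ∀ n, x ∈ S (u n) := by
    intro n
    refine (hcl _).mem_of_tendsto hx ?_
    filter_upwards [eventually_ge_atTop n] with m hm
    exact hmono _ _ (Nat.le_succ_of_le hm)
  refine ⟨x, hxS 0, fun y => ?_⟩
  by_contra hlt
  push Not at hlt
  have hy : y ∈ S x := hlt.le
  have hy' : Tendsto (fun n => u (n + 1)) atTop (𝓝 y) := by
    rw [tendsto_iff_dist_tendsto_zero]
    refine squeeze_zero (fun _ => dist_nonneg) (fun n => ?_) hlim
    rw [dist_comm]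
    exact hsm n _ (htr _ _ _ (hxS (n + 1)) hy)
  have : y = x := tendsto_nhds_unique hy' hx
  subst this
  simp at hlt

variable {E : Type} [NormedAddCommGroup E] [NormedSpace ℝ E]

/-- Local uniform convexity, in the wording of the frozen statement. -/
def LUR (E : Type) [NormedAddCommGroup E] : Prop :=
  ∀ x : E, ‖x‖ = 1 → ∀ ε : ℝ, 0 < ε → ∃ δ : ℝ, 0 < δ ∧
    ∀ y : E, ‖y‖ = 1 → ε ≤ ‖x - y‖ → ‖x + y‖ ≤ 2 - 2 * δ

theorem LUR.ball (h : LUR E) (u : E) (hu : ‖u‖ = 1) (η : ℝ) (hη : 0 < η) :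
    ∃ δ : ℝ, 0 < δ ∧ ∀ y : E, ‖y‖ ≤ 1 → 2 - δ < ‖u + y‖ → ‖u - y‖ < η := by
  obtain ⟨δ0, hδ0, H⟩ := h u hu (η / 2) (by positivity)
  refine ⟨min δ0 (min (η / 2) (1 / 2)), by positivity, fun y hy hlt => ?_⟩
  set δ := min δ0 (min (η / 2) (1 / 2)) with hδ
  have h1 : δ ≤ δ0 := min_le_left _ _
  have h2 : δ ≤ η / 2 := (min_le_right _ _).trans (min_le_left _ _)
  have h3 : δ ≤ 1 / 2 := (min_le_right _ _).trans (min_le_right _ _)
  have h4 : 1 - δ < ‖y‖ := by
    have := norm_add_le u y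
    linarith
  have hy0 : 0 < ‖y‖ := by linarith
  set y' : E := ‖y‖⁻¹ • y with hy'
  have hn : ‖y'‖ = 1 := by
    rw [hy', norm_smul, norm_inv, norm_norm, inv_mul_cancel₀ hy0.ne']
  have hd : ‖y' - y‖ = 1 - ‖y‖ := by
    have : y' - y = (1 - ‖y‖) • y' := by
      rw [sub_smul, one_smul, hy', smul_smul, mul_inv_cancel₀ hy0.ne', one_smul]
    rw [this, norm_smul, hn, mul_one, Real.norm_eq_abs, abs_of_nonneg (by linarith)]
  have h5 : ‖u + y‖ ≤ ‖u + y'‖ + ‖y' - y‖ := by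
    have : u + y = (u + y') - (y' - y) := by abel
    rw [this]
    exact norm_sub_le _ _
  have h6 : ‖u - y'‖ < η / 2 := by
    by_contra hge
    push Not at hge
    have := H y' hn hge
    linarith
  have h7 : ‖u - y‖ ≤ ‖u - y'‖ + ‖y' - y‖ := by
    have : u - y = (u - y') + (y' - y) := by abel
    rw [this]
    exact norm_add_le _ _
  linarith

theorem LUR.slice (h : LUR E) (u : E) (hu : ‖u‖ = 1) (η : ℝ) (hη : 0 < η) :
    ∃ δ : ℝ, 0 < δ ∧ ∀ f : StrongDual ℝ E, (∀ z, f z ≤ ‖z‖) → 1 - δ < f u →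
      ∀ y : E, ‖y‖ ≤ 1 → 1 - δ < f y → ‖u - y‖ < η := by
  obtain ⟨δ, hδ, H⟩ := h.ball u hu η hη
  refine ⟨δ / 2, by positivity, fun f hf hfu y hy hfy => H y hy ?_⟩
  have := hf (u + y)
  rw [map_add] at this
  linarith

theorem exists_near_max (g : StrongDual ℝ E) (θ : ℝ) (hθ : 0 < θ) :
    ∃ y : E, ‖y‖ ≤ 1 ∧ ‖g‖ - θ < g y := by
  by_contra hcon
  push Not at hcon
  have hb : ∀ y : E, ‖y‖ ≤ 1 → ‖g y‖ ≤ ‖g‖ - θ := by
    intro y hy
    rw [Real.norm_eq_abs, abs_le]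
    refine ⟨?_, hcon y hy⟩
    have := hcon (-y) (by simpa using hy)
    rw [map_neg] at this
    linarith
  have h0 : 0 ≤ ‖g‖ - θ := by simpa using hb 0 (by simp)
  have := ContinuousLinearMap.opNorm_le_of_unit_norm h0 (fun y hy => hb y hy.le)
  linarith

end Pool.Agent.MP917bd5
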