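import Pool.Agent.P.MP_917bd5_an.BdA

set_option autoImplicit false

namespace Pool.Agent.MP917bd5

open Metric Filter Topology Set

variable {E : Type} [NormedAddCommGroup E] [NormedSpace ℝ E]

/-- At a norm-attaining functional of an LUR space the dual norm has the directional
derivative given by the attaining vector. -/
theorem LUR.deriv_le (h : LUR E) (g : StrongDual ℝ E) (hg : 0 < ‖g‖) (x : E) (hx : ‖x‖ = 1)
    (hgx : g x = ‖g‖) (k : StrongDual ℝ E) (η : ℝ) (hη : 0 < η) :
    ∃ s : ℝ, 0 < s ∧ ‖g + s • k‖ ≤ ‖g‖ + s * (k x + η * (‖k‖ + 1)) := by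
  obtain ⟨δ, hδ, H⟩ := h.slice x hx η hη
  have hk := norm_nonneg k
  set s : ℝ := δ * ‖g‖ / (2 * (2 * ‖k‖ + η)) with hs
  have hs0 : 0 < s := by positivity
  have hs1 : s * (2 * ‖k‖ + η) = δ * ‖g‖ / 2 := by
    rw [hs]
    field_simp
  refine ⟨s, hs0, ?_⟩
  obtain ⟨y, hy, hmax⟩ := exists_near_max (g + s • k) (s * η) (by positivity)
  have hky : |k y| ≤ ‖k‖ := by
    have := k.le_opNorm y
    rw [Real.norm_eq_abs] at this
    nlinarith
  have hgy : g y ≤ ‖g‖ := by
    have := g.le_opNorm y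
    rw [Real.norm_eq_abs] at this
    have h2 := le_abs_self (g y)
    nlinarith
  have hlow : ‖g‖ - s * ‖k‖ ≤ ‖g + s • k‖ := by
    have h1 : ‖g‖ ≤ ‖g + s • k‖ + ‖s • k‖ := by
      simpa using norm_sub_le (g + s • k) (s • k)
    rw [norm_smul, Real.norm_eq_abs, abs_of_pos hs0] at h1
    linarith
  simp only [add_apply, smul_apply, smul_eq_mul] at hmax
  have hky' := abs_le.mp hky
  have hgy' : ‖g‖ - δ * ‖g‖ < g y := by
    have h1 : s * k y ≤ s * ‖k‖ := mul_le_mul_of_nonneg_left hky'.2 hs0.le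
    have h2 : 0 < δ * ‖g‖ := by positivity
    nlinarith
  have hxy : ‖x - y‖ < η := by
    refine H (‖g‖⁻¹ • g) (fun z => ?_) ?_ y hy ?_
    · simp only [smul_apply, smul_eq_mul]
      rw [inv_mul_le_iff₀ hg]
      have := g.le_opNorm z
      rw [Real.norm_eq_abs] at this
      exact (le_abs_self _).trans this
    · simp only [smul_apply, smul_eq_mul]
      rw [hgx, inv_mul_cancel₀ hg.ne']
      linarith
    · simp only [smul_apply, smul_eq_mul]
      rw [lt_inv_mul_iff₀ hg]
      linarith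
  have hkxy : k y ≤ k x + η * ‖k‖ := by
    have h1 := k.le_opNorm (x - y)
    rw [Real.norm_eq_abs, map_sub] at h1
    have h2 := neg_abs_le (k x - k y)
    have h3 : ‖k‖ * ‖x - y‖ ≤ ‖k‖ * η := mul_le_mul_of_nonneg_left hxy.le hk
    linarith
  have h4 : s * k y ≤ s * (k x + η * ‖k‖) := mul_le_mul_of_nonneg_left hkxy hs0.le
  nlinarith

/-- The canonical embedding into the bidual. -/
noncomputable abbrev J (E : Type) [NormedAddCommGroup E] [NormedSpace ℝ E] :
    E →L[ℝ] StrongDual ℝ (StrongDual ℝ E) := NormedSpace.inclusionInDoubleDual ℝ E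

theorem J_apply (x : E) (g : StrongDual ℝ E) : J E x g = g x := rfl

theorem norm_J (x : E) : ‖J E x‖ = ‖x‖ :=
  (NormedSpace.inclusionInDoubleDualLi ℝ (E := E)).norm_map x

theorem isClosed_range_J [CompleteSpace E] : IsClosed (range (J E)) := by
  have h : Isometry (J E) := AddMonoidHomClass.isometry_of_norm (J E) norm_J
  exact h.isClosedEmbedding.isClosed_range

/-- (T4) A norm-one functional normed by a bidual vector outside `E` does not attain its norm. -/
theorem LUR.nonattaining (h : LUR E) (F : StrongDual ℝ E) (hF : ‖F‖ = 1)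
    (u : StrongDual ℝ (StrongDual ℝ E)) (hu : ‖u‖ ≤ 1) (huF : u F = 1) (hJ : u ∉ range (J E)) :
    ∀ y : E, y ≠ 0 → F y < ‖y‖ := by
  intro y hy
  by_contra hge
  push Not at hge
  have hy0 : 0 < ‖y‖ := norm_pos_iff.mpr hy
  set x : E := ‖y‖⁻¹ • y with hx
  have hxn : ‖x‖ = 1 := by
    rw [hx, norm_smul, norm_inv, norm_norm, inv_mul_cancel₀ hy0.ne']
  have hgx : F x = ‖F‖ := by
    apply le_antisymm
    · have := F.le_opNorm x
      rw [Real.norm_eq_abs, hxn, mul_one] at this
      exact (le_abs_self _).trans this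
    · rw [hx, map_smul, smul_eq_mul, le_inv_mul_iff₀ hy0, hF]
      linarith
  have key : ∀ k : StrongDual ℝ E, u k ≤ k x := by
    intro k
    apply le_of_forall_pos_le_add
    intro θ hθ
    have hk := norm_nonneg k
    obtain ⟨s, hs0, hs⟩ :=
      h.deriv_le F (by rw [hF]; norm_num) x hxn hgx k (θ / (‖k‖ + 1)) (by positivity)
    have h1 := u.le_opNorm (F + s • k)
    rw [Real.norm_eq_abs, map_add, map_smul, smul_eq_mul, huF] at h1
    have h2 := le_abs_self (1 + s * u k)
    have h3 : θ / (‖k‖ + 1) * (‖k‖ + 1) = θ := by field_simp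
    have h5 : ‖u‖ * ‖F + s • k‖ ≤ 1 * ‖F + s • k‖ :=
      mul_le_mul_of_nonneg_right hu (norm_nonneg _)
    rw [h3, hF] at hs
    have h4 : s * u k ≤ s * (k x + θ) := by linarith
    exact le_of_mul_le_mul_left h4 hs0
  refine hJ ⟨x, ?_⟩
  ext k
  have h1 := key k
  have h2 := key (-k)
  simp only [map_neg, neg_apply] at h2
  rw [J_apply]
  linarith

end Pool.Agent.MP917bd5
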