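import Pool.Agent.P.MP_917bd5_an.BdS

set_option autoImplicit false

namespace Pool.Agent.MP917bd5

open Metric Filter Topology Set

variable {E : Type} [NormedAddCommGroup E] [NormedSpace ℝ E]

/-- In a reflexive space every nonempty closed convex set is proximinal. -/
theorem proximinal (hr : Function.Surjective (J E)) {G : Set E} (hcl : IsClosed G)
    (hG : Convex ℝ G) (hne : G.Nonempty) (x : E) : ∃ y ∈ G, dist x y = infDist x G := by
  have h1 : ∀ n : ℕ, ∃ y ∈ G, dist x y < infDist x G + 1 / ((n : ℝ) + 1) := fun n =>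
    (infDist_lt_iff hne).mp (lt_add_of_pos_right _ (by positivity))
  choose u hu1 hu2 using h1
  have hle : ∀ n : ℕ, 1 / ((n : ℝ) + 1) ≤ 1 := fun n => by
    rw [div_le_one (by positivity)]
    linarith [(Nat.cast_nonneg n : (0 : ℝ) ≤ n)]
  obtain ⟨ξ, hξ⟩ := exists_cluster u (‖x‖ + (infDist x G + 1)) fun n => by
    have h2 := norm_sub_le x (x - u n)
    rw [sub_sub_cancel, ← dist_eq_norm] at h2
    linarith [hu2 n, hle n]
  obtain ⟨y, rfl⟩ := hr ξ
  have hy : y ∈ G := by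
    rw [hcl.mem_iff_infDist_zero hne]
    refine le_antisymm ?_ infDist_nonneg
    obtain ⟨f, -, hf⟩ := sep hG hne y
    have h2 := hξ f (f y - infDist y G) (Eventually.of_forall fun n => by linarith [hf _ (hu1 n)])
    rw [J_apply] at h2
    linarith
  refine ⟨y, hy, le_antisymm ?_ (infDist_le_dist_of_mem hy)⟩
  obtain ⟨f, hf1, hf2⟩ := exists_dual_vector'' ℝ (y - x)
  apply le_of_forall_pos_le_add
  intro θ hθ
  have h2 := hξ f (f x + (infDist x G + θ)) (by
    filter_upwards [(tendsto_one_div_add_atTop_nhds_zero_nat (𝕜 := ℝ)).eventually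
      (gt_mem_nhds hθ)] with n hn
    have h3 := apply_le_norm_mul f (u n - x)
    have h4 := mul_le_mul_of_nonneg_right hf1 (norm_nonneg (u n - x))
    have h5 := hu2 n
    rw [dist_comm, dist_eq_norm] at h5
    rw [map_sub] at h3
    linarith)
  rw [J_apply] at h2
  rw [map_sub] at hf2
  simp only [RCLike.ofReal_real_eq_id, id_eq] at hf2
  rw [dist_comm, dist_eq_norm]
  linarith

omit [NormedSpace ℝ E] in
/-- The recursion over a countable base. -/
theorem exists_nowhereDense [TopologicalSpace.SeparableSpace E] (St : Set E → Set E → Prop)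
    (G0 A0 : Set E) (h0 : St A0 G0) (hint : interior G0 = ∅)
    (hSt : ∀ A G, St A G → A ⊆ G ∧ IsClosed G)
    (hstep : ∀ A G, St A G → ∀ U : Set E, IsOpen U → U.Nonempty → Disjoint U G0 →
      ∃ A' G' V : Set E, St A' G' ∧ A ⊆ A' ∧ G' ⊆ G ∧ IsOpen V ∧ V.Nonempty ∧ V ⊆ U ∧
        ∀ G'' : Set E, A' ⊆ G'' → G'' ⊆ G' → ∀ x ∈ V, ¬ ∃ y ∈ G'', dist x y = infDist x G'') :
    ∃ (A G : ℕ → Set E), (∀ n, St (A n) (G n)) ∧ G 0 = G0 ∧ A0 ⊆ ⋂ n, G n ∧
      IsNowhereDense {x | ∃ y ∈ ⋂ n, G n, dist x y = infDist x (⋂ n, G n)} := by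
  classical
  have : SecondCountableTopology E := UniformSpace.secondCountable_of_separable E
  obtain ⟨B, hB⟩ := (TopologicalSpace.countable_countableBasis E).insert (∅ : Set E)
    |>.exists_eq_range (insert_nonempty _ _)
  have hBo : ∀ k, IsOpen (B k) := fun k => by
    have : B k ∈ insert ∅ (TopologicalSpace.countableBasis E) := hB ▸ mem_range_self k
    rcases this with h | h
    · rw [h]
      exact isOpen_empty
    · exact TopologicalSpace.isOpen_of_mem_countableBasis h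
  have hstep' : ∀ (k : ℕ) (p : {p : Set E × Set E // St p.1 p.2}),
      ∃ q : {p : Set E × Set E // St p.1 p.2}, p.1.1 ⊆ q.1.1 ∧ q.1.2 ⊆ p.1.2 ∧
        ((B k).Nonempty → Disjoint (B k) G0 → ∃ V : Set E, IsOpen V ∧ V.Nonempty ∧ V ⊆ B k ∧
          ∀ G'' : Set E, q.1.1 ⊆ G'' → G'' ⊆ q.1.2 →
            ∀ x ∈ V, ¬ ∃ y ∈ G'', dist x y = infDist x G'') := by
    intro k p
    by_cases h : (B k).Nonempty ∧ Disjoint (B k) G0
    · obtain ⟨A', G', V, h1, h2, h3, h4⟩ := hstep _ _ p.2 (B k) (hBo k) h.1 h.2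
      exact ⟨⟨(A', G'), h1⟩, h2, h3, fun _ _ => ⟨V, h4⟩⟩
    · exact ⟨p, Subset.rfl, Subset.rfl, fun h1 h2 => absurd ⟨h1, h2⟩ h⟩
  choose F hF1 hF2 hF3 using hstep'
  let s : ℕ → {p : Set E × Set E // St p.1 p.2} := fun n => Nat.rec ⟨(A0, G0), h0⟩ F n
  have hs : ∀ n, s (n + 1) = F n (s n) := fun n => rfl
  have hA : Monotone fun n => (s n).1.1 := monotone_nat_of_le_succ fun n => hF1 n (s n)
  have hG : Antitone fun n => (s n).1.2 := antitone_nat_of_succ_le fun n => hF2 n (s n)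
  have hAG : ∀ n, (s n).1.1 ⊆ ⋂ m, (s m).1.2 := fun n => subset_iInter fun m =>
    (hA (le_max_left n m)).trans ((hSt _ _ (s (max n m)).2).1.trans (hG (le_max_right n m)))
  refine ⟨fun n => (s n).1.1, fun n => (s n).1.2, fun n => (s n).2, rfl, hAG 0, ?_⟩
  rw [IsNowhereDense, eq_empty_iff_forall_notMem]
  intro x hx
  have hd : Dense G0ᶜ := interior_eq_empty_iff_dense_compl.mp hint
  obtain ⟨z, hz1, hz2⟩ := hd.inter_open_nonempty _ isOpen_interior ⟨x, hx⟩
  obtain ⟨W, hW, hzW, hWs⟩ := (TopologicalSpace.isBasis_countableBasis E).exists_subset_of_mem_open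
    (mem_inter hz1 hz2) (isOpen_interior.inter (hSt _ _ h0).2.isOpen_compl)
  obtain ⟨k, rfl⟩ : W ∈ range B := hB ▸ mem_insert_of_mem _ hW
  obtain ⟨V, hVo, ⟨v, hv⟩, hVB, hV⟩ := hF3 k (s k) ⟨z, hzW⟩
    (disjoint_left.mpr fun w hw => (hWs hw).2)
  have hvc := interior_subset (hWs (hVB hv)).1
  obtain ⟨w, hwV, hw⟩ := mem_closure_iff.mp hvc V hVo hv
  exact hV _ (hAG (k + 1)) (iInter_subset _ (k + 1)) w hwV hw

end Pool.Agent.MP917bd5
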