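import Pool.Agent.P.MP_917bd5_an.BdB

set_option autoImplicit false

namespace Pool.Agent.MP917bd5

open Metric Filter Topology Set

variable {E : Type} [NormedAddCommGroup E] [NormedSpace ℝ E]

/-- The bidual vectors dominated by the support function of `G` (for convex `G`, its weak-star
closure in the bidual). -/
def hat (G : Set E) : Set (StrongDual ℝ (StrongDual ℝ E)) :=
  {η | ∀ (f : StrongDual ℝ E) (a : ℝ), (∀ x ∈ G, f x ≤ a) → η f ≤ a}

theorem hat_mono {G H : Set E} (h : G ⊆ H) : hat G ⊆ hat H :=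
  fun _ hη f a hf => hη f a fun x hx => hf x (h hx)

theorem J_mem_hat {G : Set E} {x : E} (hx : x ∈ G) : J E x ∈ hat G :=
  fun _ _ hf => hf x hx

theorem convex_hat (G : Set E) : Convex ℝ (hat G) := by
  intro η hη ζ hζ s t hs ht hst f a hf
  have h1 := mul_le_mul_of_nonneg_left (hη f a hf) hs
  have h2 := mul_le_mul_of_nonneg_left (hζ f a hf) ht
  have h3 : s * a + t * a = a := by rw [← add_mul, hst, one_mul]
  simp only [add_apply, smul_apply, smul_eq_mul]
  linarith

theorem isClosed_hat (G : Set E) : IsClosed (hat G) := by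
  have : hat G = ⋂ (f : StrongDual ℝ E) (a : ℝ) (_ : ∀ x ∈ G, f x ≤ a), {η | η f ≤ a} := by
    ext η
    simp [hat]
  rw [this]
  refine isClosed_iInter fun f => isClosed_iInter fun a => isClosed_iInter fun _ => ?_
  exact isClosed_le (by fun_prop) continuous_const

theorem apply_le_norm_mul {X : Type} [NormedAddCommGroup X] [NormedSpace ℝ X]
    (f : StrongDual ℝ X) (x : X) : f x ≤ ‖f‖ * ‖x‖ := by
  have := f.le_opNorm x
  rw [Real.norm_eq_abs] at this
  exact (le_abs_self _).trans this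

theorem norm_le_of_mem_hat {G : Set E} {R : ℝ} (hR : 0 ≤ R) (hG : G ⊆ closedBall 0 R)
    {η : StrongDual ℝ (StrongDual ℝ E)} (hη : η ∈ hat G) : ‖η‖ ≤ R := by
  have key : ∀ f : StrongDual ℝ E, η f ≤ R * ‖f‖ := fun f => hη f _ fun x hx => by
    have h1 := apply_le_norm_mul f x
    have h2 : ‖x‖ ≤ R := by simpa using hG hx
    have h3 := mul_le_mul_of_nonneg_left h2 (norm_nonneg f)
    linarith
  refine ContinuousLinearMap.opNorm_le_bound _ hR fun f => ?_
  rw [Real.norm_eq_abs, abs_le]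
  refine ⟨?_, key f⟩
  have := key (-f)
  simp only [map_neg, norm_neg] at this
  linarith

/-- A functional bounded by `a` on an open ball. -/
theorem le_of_ball (f : StrongDual ℝ E) (x : E) (r a : ℝ) (hr : 0 < r)
    (h : ∀ y ∈ ball x r, f y ≤ a) : f x + r * ‖f‖ ≤ a := by
  have h1 : ∀ s : ℝ, 0 < s → s < r → f x + s * ‖f‖ ≤ a := by
    intro s hs hsr
    apply le_of_forall_pos_le_add
    intro θ hθ
    obtain ⟨y, hy, hfy⟩ := exists_near_max f (θ / s) (by positivity)
    have h2 := h (x + s • y) (by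
      rw [mem_ball, dist_eq_norm, add_sub_cancel_left, norm_smul, Real.norm_eq_abs, abs_of_pos hs]
      nlinarith)
    rw [map_add, map_smul, smul_eq_mul] at h2
    have h3 := mul_lt_mul_of_pos_left hfy hs
    have h4 : s * (θ / s) = θ := by field_simp
    nlinarith
  apply le_of_forall_pos_le_add
  intro θ hθ
  have hf := norm_nonneg f
  set t := min (r / 2) (θ / (‖f‖ + 1)) with ht
  have ht0 : 0 < t := by positivity
  have ht1 : t ≤ r / 2 := min_le_left _ _
  have ht2 : t * (‖f‖ + 1) ≤ θ := (le_div_iff₀ (by positivity)).mp (min_le_right _ _)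
  have := h1 (r - t) (by linarith) (by linarith)
  nlinarith

theorem mem_hat_closedBall {R : ℝ} (hR : 0 < R) {η : StrongDual ℝ (StrongDual ℝ E)}
    (hη : ‖η‖ ≤ R) : η ∈ hat (closedBall (0 : E) R) := by
  intro f a hf
  have h1 := le_of_ball f 0 R a hR fun y hy => hf y (ball_subset_closedBall hy)
  have h2 := apply_le_norm_mul η f
  have h3 := mul_le_mul_of_nonneg_right hη (norm_nonneg f)
  rw [map_zero] at h1
  linarith

/-- A norm-one functional realising the distance to a convex set. -/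
theorem exists_sep {G : Set E} (hG : Convex ℝ G) (hne : G.Nonempty) (x : E)
    (hd : 0 < infDist x G) :
    ∃ f : StrongDual ℝ E, ‖f‖ = 1 ∧ ∀ y ∈ G, f y ≤ f x - infDist x G := by
  have hdis : Disjoint (ball x (infDist x G)) G := disjoint_ball_infDist
  obtain ⟨g, u, hg1, hg2⟩ := geometric_hahn_banach_open (convex_ball _ _) isOpen_ball hG hdis
  have h1 := le_of_ball g x _ u hd fun y hy => (hg1 y hy).le
  have hg0 : 0 < ‖g‖ := by
    obtain ⟨y, hy⟩ := hne
    rw [norm_pos_iff]
    rintro rfl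
    have h2 := hg1 x (mem_ball_self hd)
    have h3 := hg2 y hy
    simp only [zero_apply] at h2 h3
    linarith
  refine ⟨-(‖g‖⁻¹ • g), ?_, fun y hy => ?_⟩
  · rw [norm_neg, norm_smul, norm_inv, norm_norm, inv_mul_cancel₀ hg0.ne']
  · simp only [neg_apply, smul_apply, smul_eq_mul]
    have h2 := hg2 y hy
    have h3 : infDist x G ≤ ‖g‖⁻¹ * (g y - g x) := by
      rw [le_inv_mul_iff₀ hg0]
      linarith
    linarith

/-- (T2) -/
theorem infDist_le_of_mem_hat {G : Set E} (hG : Convex ℝ G) (hne : G.Nonempty) (x : E)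
    {η : StrongDual ℝ (StrongDual ℝ E)} (hη : η ∈ hat G) : infDist x G ≤ ‖J E x - η‖ := by
  rcases le_or_gt (infDist x G) 0 with hd | hd
  · exact hd.trans (norm_nonneg (J E x - η))
  obtain ⟨f, hf, hf'⟩ := exists_sep hG hne x hd
  have h1 := hη f _ hf'
  have h2 := apply_le_norm_mul (J E x - η) f
  rw [hf, mul_one, sub_apply, J_apply] at h2
  linarith

/-- (T3) -/
theorem hat_cut {G : Set E} (hG : Convex ℝ G) (F : StrongDual ℝ E) (c : ℝ)
    {η0 : StrongDual ℝ (StrongDual ℝ E)} (h0 : η0 ∈ hat G) (hc : η0 F < c) :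
    {η | η ∈ hat G ∧ η F ≤ c} ⊆ hat (G ∩ {x | F x ≤ c}) := by
  rintro η ⟨hη, hηc⟩ f a hf
  obtain ⟨y0, hy0, hy0c⟩ : ∃ y ∈ G, F y < c := by
    by_contra hcon
    push Not at hcon
    have := h0 (-F) (-c) fun x hx => by simpa using hcon x hx
    rw [map_neg] at this
    linarith
  have key : ∀ x ∈ G, c < F x → ∀ y ∈ G, F y < c →
      (f x - a) / (F x - c) ≤ (a - f y) / (c - F y) := by
    intro x hx hxc y hy hyc
    have hp : 0 < F x - F y := by linarith
    have hz := hG hx hy (a := (c - F y) / (F x - F y)) (b := (F x - c) / (F x - F y))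
      (div_nonneg (by linarith) hp.le) (div_nonneg (by linarith) hp.le) (by field_simp; ring)
    have h1 := hf _ ⟨hz, by
      simp only [mem_ofPred_eq, map_add, map_smul, smul_eq_mul]
      apply le_of_eq
      field_simp
      ring⟩
    simp only [map_add, map_smul, smul_eq_mul] at h1
    rw [div_mul_eq_mul_div, div_mul_eq_mul_div, ← add_div, div_le_iff₀ hp] at h1
    rw [div_le_div_iff₀ (by linarith) (by linarith)]
    nlinarith
  let A : Set ℝ := insert 0 {r | ∃ x ∈ G, c < F x ∧ r = (f x - a) / (F x - c)}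
  have hub : ∀ y ∈ G, F y < c → (a - f y) / (c - F y) ∈ upperBounds A := by
    rintro y hy hyc r (rfl | ⟨x, hx, hxc, rfl⟩)
    · exact div_nonneg (by linarith [hf y ⟨hy, hyc.le⟩]) (by linarith)
    · exact key x hx hxc y hy hyc
  have hbd : BddAbove A := ⟨_, hub y0 hy0 hy0c⟩
  have hl0 : 0 ≤ sSup A := le_csSup hbd (mem_insert _ _)
  have h2 := hη (f - sSup A • F) (a - sSup A * c) fun x hx => by
    simp only [sub_apply, smul_apply, smul_eq_mul]
    rcases lt_trichotomy (F x) c with h | h | h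
    · have h3 := csSup_le (insert_nonempty _ _) (hub x hx h)
      rw [le_div_iff₀ (by linarith)] at h3
      linarith
    · rw [h]
      linarith [hf x ⟨hx, h.le⟩]
    · have h3 : (f x - a) / (F x - c) ≤ sSup A := le_csSup hbd (Or.inr ⟨x, hx, h, rfl⟩)
      rw [div_le_iff₀ (by linarith)] at h3
      linarith
  rw [map_sub, map_smul, smul_eq_mul] at h2
  have h4 := mul_le_mul_of_nonneg_left hηc hl0
  linarith

omit [NormedSpace ℝ E] in
/-- (T5), pointwise form. -/
theorem exists_mem_iInter [CompleteSpace E] (G : ℕ → Set E) (hanti : Antitone G)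
    (hcl : ∀ n, IsClosed (G n)) (a : ℕ → ℝ) (ha : Summable a)
    (hstep : ∀ n, ∀ x ∈ G n, ∃ y ∈ G (n + 1), ‖x - y‖ ≤ a n) (n : ℕ) (x : E) (hx : x ∈ G n) :
    ∃ y ∈ ⋂ m, G m, ‖x - y‖ ≤ ∑' k, a (k + n) := by
  choose! φ hφ1 hφ2 using hstep
  let u : ℕ → E := fun k => Nat.rec x (fun j z => φ (j + n) z) k
  have hu : ∀ k, u (k + 1) = φ (k + n) (u k) := fun k => rfl
  have hmem : ∀ k, u k ∈ G (k + n) := by
    intro k
    induction k with
    | zero => rw [Nat.zero_add]; exact hx
    | succ k ih =>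
      rw [hu, Nat.add_right_comm]
      exact hφ1 _ _ ih
  have hd : ∀ k, dist (u k) (u (k + 1)) ≤ a (k + n) := fun k => by
    rw [hu, dist_eq_norm]
    exact hφ2 _ _ (hmem k)
  have ha' : Summable fun k => a (k + n) := (summable_nat_add_iff n).mpr ha
  obtain ⟨y, hy⟩ := cauchySeq_tendsto_of_complete (cauchySeq_of_dist_le_of_summable _ hd ha')
  refine ⟨y, mem_iInter.mpr fun m => (hcl m).mem_of_tendsto hy ?_, ?_⟩
  · filter_upwards [eventually_ge_atTop m] with k hk
    exact hanti (by omega) (hmem k)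
  · rw [← dist_eq_norm]
    exact dist_le_tsum_of_dist_le_of_tendsto₀ _ hd ha' hy

/-- (T5) -/
theorem iInter_hat_subset [CompleteSpace E] (G : ℕ → Set E) (hanti : Antitone G)
    (hcl : ∀ n, IsClosed (G n)) (a : ℕ → ℝ) (ha : Summable a)
    (hstep : ∀ n, ∀ x ∈ G n, ∃ y ∈ G (n + 1), ‖x - y‖ ≤ a n) :
    (⋂ n, hat (G n)) ⊆ hat (⋂ n, G n) := by
  intro η hη f b hf
  have h1 : ∀ n, η f ≤ b + ‖f‖ * ∑' k, a (k + n) := fun n =>
    mem_iInter.mp hη n f _ fun x hx => by
      obtain ⟨y, hy, hxy⟩ := exists_mem_iInter G hanti hcl a ha hstep n x hx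
      have h2 := apply_le_norm_mul f (x - y)
      have h3 := mul_le_mul_of_nonneg_left hxy (norm_nonneg f)
      rw [map_sub] at h2
      linarith [hf y hy]
  have h2 : Tendsto (fun n => b + ‖f‖ * ∑' k, a (k + n)) atTop (𝓝 (b + ‖f‖ * 0)) :=
    ((tendsto_sum_nat_add a).const_mul _).const_add _
  simpa using ge_of_tendsto' h2 h1

/-- Goldstine type approximation inside a convex set. -/
theorem exists_approx {G : Set E} (hG : Convex ℝ G) {η : StrongDual ℝ (StrongDual ℝ E)}
    (hη : η ∈ hat G) (s : Finset (StrongDual ℝ E)) (ε : ℝ) (hε : 0 < ε) :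
    ∃ x ∈ G, ∀ g ∈ s, |g x - η g| < ε := by
  classical
  let T : E →ₗ[ℝ] (s → ℝ) := LinearMap.pi fun g => (g.1 : E →ₗ[ℝ] ℝ)
  let p : s → ℝ := fun g => η g.1
  have hp : p ∈ closure (T '' G) := by
    by_contra hcon
    obtain ⟨l, u, hl1, hl2⟩ :=
      geometric_hahn_banach_closed_point (hG.linear_image T).closure isClosed_closure hcon
    have hl : ∀ v : s → ℝ, l v = ∑ g : s, v g * l (Pi.single g 1) := by
      intro v
      have := (l : (s → ℝ) →ₗ[ℝ] ℝ).pi_apply_eq_sum_univ v
      simp only [ContinuousLinearMap.coe_coe, smul_eq_mul] at this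
      rw [this]
      refine Finset.sum_congr rfl fun g _ => ?_
      congr 2
      ext j
      simp [Pi.single_apply, eq_comm]
    have h1 := hη (∑ g : s, l (Pi.single g 1) • g.1) u fun x hx => by
      have h2 := hl1 _ (subset_closure (mem_image_of_mem T hx))
      rw [hl] at h2
      simp only [sum_apply, smul_apply, smul_eq_mul]
      refine le_of_eq_of_le (Finset.sum_congr rfl fun g _ => ?_) h2.le
      rw [mul_comm]
      rfl
    rw [hl] at hl2
    simp only [map_sum, map_smul, smul_eq_mul] at h1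
    have h3 : ∑ g : s, p g * l (Pi.single g 1) = ∑ g : s, l (Pi.single g 1) * η g.1 :=
      Finset.sum_congr rfl fun g _ => mul_comm _ _
    linarith
  obtain ⟨_, ⟨x, hx, rfl⟩, hd⟩ := Metric.mem_closure_iff.mp hp ε hε
  refine ⟨x, hx, fun g hg => ?_⟩
  have h1 := (dist_le_pi_dist p (T x) ⟨g, hg⟩).trans_lt hd
  rw [dist_comm, Real.dist_eq] at h1
  exact h1

end Pool.Agent.MP917bd5
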