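import Pool.Agent.P.MP_917bd5_an.BdH

set_option autoImplicit false

namespace Pool.Agent.MP917bd5

open Metric Filter Topology Set

variable {E : Type} [NormedAddCommGroup E] [NormedSpace ℝ E]

/-- (T2), separation form. -/
theorem sep {G : Set E} (hG : Convex ℝ G) (hne : G.Nonempty) (x : E) :
    ∃ F0 : StrongDual ℝ E, ‖F0‖ ≤ 1 ∧ ∀ g ∈ G, F0 g + infDist x G ≤ F0 x := by
  rcases (infDist_nonneg (x := x) (s := G)).eq_or_lt with hd | hd
  · exact ⟨0, by simp, fun g _ => by simp [← hd]⟩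
  · obtain ⟨f, hf, hf'⟩ := exists_sep hG hne x hd
    exact ⟨f, hf.le, fun g hg => by linarith [hf' g hg]⟩

theorem exists_annih (ξ : StrongDual ℝ (StrongDual ℝ E)) (h : ∀ y, 5 ≤ ‖ξ - J E y‖)
    (s : Finset E) : ∃ f : StrongDual ℝ E, ‖f‖ ≤ 1 ∧ (∀ e ∈ s, f e = 0) ∧ 4 < ξ f := by
  let L : s → StrongDual ℝ E →ₗ[ℝ] ℝ := fun e => (J E e.1 : StrongDual ℝ E →ₗ[ℝ] ℝ)
  let M : Submodule ℝ (StrongDual ℝ E) := ⨅ e, LinearMap.ker (L e)
  let ξM : StrongDual ℝ M := ξ.comp M.subtypeL
  obtain ⟨ζ, hζ1, hζ2⟩ := exists_extension_norm_eq M ξM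
  have hK : ⨅ e, LinearMap.ker (L e) ≤
      LinearMap.ker ((ξ - ζ : StrongDual ℝ (StrongDual ℝ E)) : StrongDual ℝ E →ₗ[ℝ] ℝ) := by
    intro f hf
    have := hζ1 ⟨f, hf⟩
    simp only [LinearMap.mem_ker, ContinuousLinearMap.coe_coe, sub_apply]
    rw [sub_eq_zero]
    exact this.symm
  obtain ⟨c, hc⟩ := (Submodule.mem_span_range_iff_exists_fun ℝ).1 (mem_span_of_iInf_ker_le_ker hK)
  have h1 : ξ - J E (∑ e : s, c e • e.1) = ζ := by
    ext f
    have := LinearMap.congr_fun hc f
    simp only [LinearMap.coe_sum, Finset.sum_apply, LinearMap.smul_apply, smul_eq_mul,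
      ContinuousLinearMap.coe_coe, sub_apply, L, J_apply] at this
    rw [sub_apply, J_apply]
    simp only [map_sum, map_smul, smul_eq_mul]
    linarith
  have h2 := h (∑ e : s, c e • e.1)
  rw [h1, hζ2] at h2
  obtain ⟨m, hm1, hm2⟩ := exists_near_max (E := M) ξM 1 one_pos
  refine ⟨m.1, hm1, fun e he => ?_, ?_⟩
  · exact (Submodule.mem_iInf _).1 m.2 ⟨e, he⟩
  · have : ξM m = ξ m.1 := rfl
    linarith

theorem exists_cluster (x : ℕ → E) (M : ℝ) (hx : ∀ n, ‖x n‖ ≤ M) :
    ∃ ξ0 : StrongDual ℝ (StrongDual ℝ E), ∀ (F : StrongDual ℝ E) (b : ℝ),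
      (∀ᶠ n in atTop, F (x n) ≤ b) → ξ0 F ≤ b := by
  have hK := WeakDual.isCompact_closedBall (0 : StrongDual ℝ (StrongDual ℝ E)) M
  let u : ℕ → WeakDual ℝ (StrongDual ℝ E) := fun n => StrongDual.toWeakDual (J E (x n))
  have hu : Filter.map u atTop ≤ 𝓟 (WeakDual.toStrongDual ⁻¹' closedBall
      (0 : StrongDual ℝ (StrongDual ℝ E)) M) := by
    rw [le_principal_iff, mem_map]
    refine Eventually.of_forall fun n => ?_
    change J E (x n) ∈ closedBall (0 : StrongDual ℝ (StrongDual ℝ E)) M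
    exact (mem_closedBall_zero_iff (a := J E (x n))).mpr ((norm_J _).trans_le (hx n))
  obtain ⟨ξ, -, hξ⟩ := hK.exists_clusterPt hu
  refine ⟨WeakDual.toStrongDual ξ, fun F b hb => ?_⟩
  have hcl : IsClosed {η : WeakDual ℝ (StrongDual ℝ E) | η F ≤ b} :=
    isClosed_le (WeakDual.eval_continuous F) continuous_const
  exact hcl.mem_of_mapClusterPt (l := ξ) (f := u) (b := atTop) hξ hb

theorem exists_far {Y : Type} [NormedAddCommGroup Y] [NormedSpace ℝ Y] (T : E →L[ℝ] Y)
    (hT : IsClosed (range T)) (hnr : ¬ Function.Surjective T) : ∃ ξ, ∀ y, 5 ≤ ‖ξ - T y‖ := by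
  obtain ⟨Φ, hΦ⟩ : ∃ Φ, Φ ∉ range T := by
    by_contra hc
    push Not at hc
    exact hnr hc
  have hD : 0 < infDist Φ (range T) := (hT.notMem_iff_infDist_pos (range_nonempty _)).mp hΦ
  set D := infDist Φ (range T) with hDdef
  refine ⟨(5 / D) • Φ, fun y => ?_⟩
  have h1 : (5 / D) • Φ - T y = (5 / D) • (Φ - T ((D / 5) • y)) := by
    rw [map_smul, smul_sub, smul_smul, show 5 / D * (D / 5) = 1 by field_simp, one_smul]
  have h2 : D ≤ ‖Φ - T ((D / 5) • y)‖ := by
    rw [← dist_eq_norm]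
    exact infDist_le_dist_of_mem ⟨_, rfl⟩
  rw [h1, norm_smul, Real.norm_eq_abs, abs_of_pos (by positivity), div_mul_eq_mul_div,
    le_div_iff₀ hD]
  linarith

/-- (T1) The starting set: bounded, closed, convex, without interior, but weak-star dense in a
set with nonempty norm interior in the bidual. -/
theorem exists_start [CompleteSpace E] [TopologicalSpace.SeparableSpace E]
    (hnr : ¬ Function.Surjective (J E)) :
    ∃ (R ρ : ℝ) (G0 : Set E) (ξ0 : StrongDual ℝ (StrongDual ℝ E)), 0 < R ∧ 0 < ρ ∧ IsClosed G0 ∧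
      Convex ℝ G0 ∧ (0 : E) ∈ G0 ∧ G0 ⊆ closedBall 0 R ∧ interior G0 = ∅ ∧
      closedBall ξ0 ρ ⊆ hat G0 := by
  classical
  obtain ⟨ξ, hfar⟩ := exists_far (Y := StrongDual ℝ (StrongDual ℝ E)) (J E) isClosed_range_J hnr
  set M := ‖ξ‖ + 1 with hM
  have hM0 : 0 < M := by positivity
  have hξM : ξ ∈ hat (closedBall (0 : E) M) := mem_hat_closedBall hM0 (by linarith)
  choose A hA1 hA2 hA3 using exists_annih ξ hfar
  choose B hB1 hB2 using fun s => exists_approx (convex_closedBall (0 : E) M) hξM s 1 one_pos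
  obtain ⟨d, hd⟩ := TopologicalSpace.exists_dense_seq E
  let S : ℕ → Finset E × Finset (StrongDual ℝ E) := fun n => Nat.rec (∅, ∅)
    (fun k T => (insert (d k) (insert (B (insert (A T.1) T.2)) T.1), insert (A T.1) T.2)) n
  let f : ℕ → StrongDual ℝ E := fun n => A (S n).1
  let x : ℕ → E := fun n => B (S (n + 1)).2
  have hS1 : ∀ n, (S (n + 1)).1 = insert (d n) (insert (x n) (S n).1) := fun n => rfl
  have hS2 : ∀ n, (S (n + 1)).2 = insert (f n) (S n).2 := fun n => rfl
  have hm1 : ∀ n i, i < n → d i ∈ (S n).1 ∧ x i ∈ (S n).1 := by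
    intro n i hi
    induction hi with
    | refl => rw [hS1]; simp
    | step _ ih => rw [hS1]; simp [ih.1, ih.2]
  have hm2 : ∀ n i, i < n → f i ∈ (S n).2 := by
    intro n i hi
    induction hi with
    | refl => rw [hS2]; simp
    | step _ ih => rw [hS2]; simp [ih]
  have hf1 : ∀ k, ‖f k‖ ≤ 1 := fun k => hA1 _
  have hfd : ∀ k i, i < k → f k (d i) = 0 := fun k i hi => hA2 _ _ (hm1 k i hi).1
  have hfx : ∀ k i, i < k → f k (x i) = 0 := fun k i hi => hA2 _ _ (hm1 k i hi).2
  have hfx' : ∀ k n, k ≤ n → 3 ≤ f k (x n) := fun k n hk => by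
    have h1 := hB2 _ _ (hm2 (n + 1) k (by omega))
    have h2 := hA3 (S k).1
    have h3 := (abs_lt.mp h1).1
    change -1 < f k (x n) - ξ (f k) at h3
    change 4 < ξ (f k) at h2
    linarith
  have hxM : ∀ n, ‖x n‖ ≤ M := fun n => by simpa using hB1 (S (n + 1)).2
  have hfle : ∀ k z, -‖z‖ ≤ f k z := fun k z => by
    have h1 := apply_le_norm_mul (f k) (-z)
    have h2 := mul_le_mul_of_nonneg_right (hf1 k) (norm_nonneg z)
    rw [map_neg, norm_neg] at h1
    linarith
  obtain ⟨ξ0, hξ0⟩ := exists_cluster x M hxM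
  refine ⟨M + 3, 3, closedBall 0 (M + 3) ∩ ⋂ k, {z | 0 ≤ f k z}, ξ0, by positivity, by norm_num,
    isClosed_closedBall.inter (isClosed_iInter fun k => isClosed_le continuous_const (f k).continuous),
    (convex_closedBall _ _).inter (convex_iInter fun k => convex_halfSpace_ge (f k).isLinear 0),
    ⟨mem_closedBall_self (by positivity), mem_iInter.mpr fun k => by simp⟩, inter_subset_left,
    ?_, ?_⟩
  · rw [eq_empty_iff_forall_notMem]
    intro z hz
    obtain ⟨r, hr, hball⟩ := Metric.mem_nhds_iff.mp (mem_interior_iff_mem_nhds.mp hz)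
    obtain ⟨i, hi⟩ := hd.exists_dist_lt z (show 0 < min (r / 2) (r / M) by positivity)
    have hi1 : dist z (d i) < r / 2 := hi.trans_le (min_le_left _ _)
    have h1 : d i - (r / (2 * M)) • x (i + 1) ∈ ball z r := by
      rw [mem_ball, dist_eq_norm]
      have h2 : d i - (r / (2 * M)) • x (i + 1) - z = (d i - z) - (r / (2 * M)) • x (i + 1) := by
        abel
      have h3 := norm_sub_le (d i - z) ((r / (2 * M)) • x (i + 1))
      rw [norm_smul, Real.norm_eq_abs, abs_of_pos (by positivity)] at h3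
      rw [dist_comm, dist_eq_norm] at hi1
      have h4 : r / (2 * M) * ‖x (i + 1)‖ ≤ r / (2 * M) * M :=
        mul_le_mul_of_nonneg_left (hxM _) (by positivity)
      have h5 : r / (2 * M) * M = r / 2 := by field_simp
      rw [h2]
      linarith
    have h6 : 0 ≤ f (i + 1) (d i - (r / (2 * M)) • x (i + 1)) := mem_iInter.mp (hball h1).2 (i + 1)
    rw [map_sub, map_smul, smul_eq_mul, hfd _ _ (Nat.lt_succ_self i)] at h6
    have h7 := hfx' (i + 1) (i + 1) le_rfl
    have h8 : 0 < r / (2 * M) := by positivity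
    nlinarith
  · intro η hη F a hF
    have h1 : ∀ i, ‖d i‖ ≤ 3 → ξ0 F + F (d i) ≤ a := by
      intro i hi
      have h2 := hξ0 F (a - F (d i)) (by
        filter_upwards [eventually_ge_atTop i] with n hn
        have h3 := hF (x n + d i) ⟨by
          rw [mem_closedBall_zero_iff]
          linarith [norm_add_le (x n) (d i), hxM n], mem_iInter.mpr fun k => by
          simp only [mem_ofPred_eq, map_add]
          rcases le_or_gt k n with hk | hk
          · linarith [hfx' k n hk, hfle k (d i)]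
          · rw [hfx k n hk, hfd k i (by omega)]
            norm_num⟩
        rw [map_add] at h3
        linarith)
      linarith
    have h2 : ∀ y ∈ ball (0 : E) 3, F y ≤ a - ξ0 F := by
      intro y hy
      have hcl : IsClosed {y : E | F y ≤ a - ξ0 F} := isClosed_le F.continuous continuous_const
      have h3 := hd.open_subset_closure_inter isOpen_ball hy
      refine hcl.closure_subset_iff.mpr ?_ h3
      rintro _ ⟨hb, i, rfl⟩
      have h4 := h1 i (mem_ball_zero_iff.mp hb).le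
      simp only [mem_ofPred_eq]
      linarith
    have h3 := le_of_ball F 0 3 _ (by norm_num) h2
    have h4 := apply_le_norm_mul (η - ξ0) F
    have h5 : ‖η - ξ0‖ ≤ 3 := (dist_eq_norm η ξ0).symm.trans_le hη
    have h6 := mul_le_mul_of_nonneg_right h5 (norm_nonneg F)
    rw [map_zero] at h3
    rw [sub_apply] at h4
    linarith

end Pool.Agent.MP917bd5
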