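import Pool.Agent.P.MP_917bd5_an.BdS

set_option autoImplicit false

namespace Pool.Agent.MP917bd5

open Metric Filter Topology Set Pointwise

variable {E : Type} [NormedAddCommGroup E] [NormedSpace ℝ E]

theorem exists_seq [CompleteSpace E] [TopologicalSpace.SeparableSpace E]
    (hnr : ¬ Function.Surjective (J E)) :
    ∃ (R κ : ℝ) (g : ℕ → StrongDual ℝ E) (d : ℕ → E) (ξ0 : StrongDual ℝ (StrongDual ℝ E)),
      0 < R ∧ 0 < κ ∧ (∀ n, ‖g n‖ ≤ 1) ∧ (∀ n, κ ≤ ‖g n‖) ∧ DenseRange d ∧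
      (∀ k i, i < k → g k (d i) = 0) ∧ ∀ (F : StrongDual ℝ E) (a : ℝ),
        (∀ x ∈ closedBall (0 : E) R ∩ ⋂ k, {z | 0 ≤ g k z}, F x ≤ a) → ξ0 F + 3 * ‖F‖ ≤ a := by
  classical
  obtain ⟨ξ, hfar⟩ := exists_far (Y := StrongDual ℝ (StrongDual ℝ E)) (J E) isClosed_range_J hnr
  set M := ‖ξ‖ + 1 with hM
  have hM0 : 0 < M := by positivity
  have hξM : ξ ∈ hat (closedBall (0 : E) M) := mem_hat_closedBall hM0 (by linarith)
  choose A hA1 hA2 hA3 using exists_annih ξ hfar
  choose B hB1 hB2 using fun s => exists_approx (convex_closedBall (0 : E) M) hξM s 1 one_pos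
  obtain ⟨d, hd⟩ := TopologicalSpace.exists_dense_seq E
  let S : ℕ → Finset E × Finset (StrongDual ℝ E) := fun n => Nat.rec (∅, ∅)
    (fun k T => (insert (d k) (insert (B (insert (A T.1) T.2)) T.1), insert (A T.1) T.2)) n
  let f : ℕ → StrongDual ℝ E := fun n => A (S n).1
  let x : ℕ → E := fun n => B (S (n + 1)).2
  have hS1 : ∀ n, (S (n + 1)).1 = insert (d n) (insert (x n) (S n).1) := fun n => rfl
  have hS2 : ∀ n, (S (n + 1)).2 = insert (f n) (S n).2 := fun n => rfl
  have hm1 : ∀ n i, i < n → d i ∈ (S n).1 ∧ x i ∈ (S n).1 := by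
    intro n i hi
    induction hi with
    | refl => rw [hS1]; simp
    | step _ ih => rw [hS1]; simp [ih.1, ih.2]
  have hm2 : ∀ n i, i < n → f i ∈ (S n).2 := by
    intro n i hi
    induction hi with
    | refl => rw [hS2]; simp
    | step _ ih => rw [hS2]; simp [ih]
  have hf1 : ∀ k, ‖f k‖ ≤ 1 := fun k => hA1 _
  have hfd : ∀ k i, i < k → f k (d i) = 0 := fun k i hi => hA2 _ _ (hm1 k i hi).1
  have hfx : ∀ k i, i < k → f k (x i) = 0 := fun k i hi => hA2 _ _ (hm1 k i hi).2
  have hfx' : ∀ k n, k ≤ n → 3 ≤ f k (x n) := fun k n hk => by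
    have h1 := hB2 _ _ (hm2 (n + 1) k (by omega))
    have h2 := hA3 (S k).1
    have h3 := (abs_lt.mp h1).1
    change -1 < f k (x n) - ξ (f k) at h3
    change 4 < ξ (f k) at h2
    linarith
  have hxM : ∀ n, ‖x n‖ ≤ M := fun n => by simpa using hB1 (S (n + 1)).2
  have hfle : ∀ k z, -‖z‖ ≤ f k z := fun k z => by
    have h1 := apply_le_norm_mul (f k) (-z)
    have h2 := mul_le_mul_of_nonneg_right (hf1 k) (norm_nonneg z)
    rw [map_neg, norm_neg] at h1
    linarith
  obtain ⟨ξ0, hξ0⟩ := exists_cluster x M hxM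
  refine ⟨M + 3, 3 / M, f, d, ξ0, by positivity, by positivity, hf1, fun n => ?_, hd, hfd, ?_⟩
  · have h1 := apply_le_norm_mul (f n) (x n)
    have h2 := hfx' n n le_rfl
    have h3 := mul_le_mul_of_nonneg_left (hxM n) (norm_nonneg (f n))
    rw [div_le_iff₀ hM0]
    linarith
  · intro F a hF
    have h1 : ∀ i, ‖d i‖ ≤ 3 → ξ0 F + F (d i) ≤ a := by
      intro i hi
      have h2 := hξ0 F (a - F (d i)) (by
        filter_upwards [eventually_ge_atTop i] with n hn
        have h3 := hF (x n + d i) ⟨by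
          rw [mem_closedBall_zero_iff]
          linarith [norm_add_le (x n) (d i), hxM n], mem_iInter.mpr fun k => by
          simp only [mem_ofPred_eq, map_add]
          rcases le_or_gt k n with hk | hk
          · linarith [hfx' k n hk, hfle k (d i)]
          · rw [hfx k n hk, hfd k i (by omega)]
            norm_num⟩
        rw [map_add] at h3
        linarith)
      linarith
    have h2 : ∀ y ∈ ball (0 : E) 3, F y ≤ a - ξ0 F := by
      intro y hy
      have hcl : IsClosed {y : E | F y ≤ a - ξ0 F} := isClosed_le F.continuous continuous_const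
      have h3 := hd.open_subset_closure_inter isOpen_ball hy
      refine hcl.closure_subset_iff.mpr ?_ h3
      rintro _ ⟨hb, i, rfl⟩
      have h4 := h1 i (mem_ball_zero_iff.mp hb).le
      simp only [mem_ofPred_eq]
      linarith
    have h3 := le_of_ball F 0 3 _ (by norm_num) h2
    rw [map_zero] at h3
    linarith

/-- The starting set. -/
def startSet (R : ℝ) (g : ℕ → StrongDual ℝ E) : Set E :=
  closedBall 0 R ∩ {p | ∀ n, 0 ≤ g n p + 1 / ((n : ℝ) + 1)}

/-- The invariant (U). -/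
def UU (A G : Set E) : Prop :=
  ∀ φ : StrongDual ℝ E, φ ≠ 0 → ∀ q ∈ G, (∀ p ∈ G, φ p ≤ φ q) → ∃ b, b < φ q ∧ ∀ a ∈ A, φ a ≤ b

theorem isClosed_startSet (R : ℝ) (g : ℕ → StrongDual ℝ E) : IsClosed (startSet R g) := by
  refine isClosed_closedBall.inter ?_
  simp only [ofPred_forall]
  exact isClosed_iInter fun n => isClosed_le continuous_const (by fun_prop)

theorem convex_startSet (R : ℝ) (g : ℕ → StrongDual ℝ E) : Convex ℝ (startSet R g) := by
  refine (convex_closedBall _ _).inter fun x hx y hy s t hs ht hst n => ?_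
  have h1 := mul_nonneg hs (hx n)
  have h2 := mul_nonneg ht (hy n)
  have h3 : s * (1 / ((n : ℝ) + 1)) + t * (1 / ((n : ℝ) + 1)) = 1 / ((n : ℝ) + 1) := by
    rw [← add_mul, hst, one_mul]
  simp only [map_add, map_smul, smul_eq_mul]
  linarith

theorem zero_mem_startSet {R : ℝ} (hR : 0 < R) (g : ℕ → StrongDual ℝ E) :
    (0 : E) ∈ startSet R g :=
  ⟨mem_closedBall_self hR.le, fun n => by rw [map_zero]; positivity⟩

theorem exists_start2 [CompleteSpace E] [TopologicalSpace.SeparableSpace E]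
    (hnr : ¬ Function.Surjective (J E)) :
    ∃ (R r κ : ℝ) (g : ℕ → StrongDual ℝ E) (zs : StrongDual ℝ (StrongDual ℝ E)) (A0 : Set E),
      0 < R ∧ 0 < r ∧ 0 < κ ∧ (∀ n, ‖g n‖ ≤ 1) ∧ (∀ n, κ ≤ ‖g n‖) ∧
      (∀ x, Tendsto (fun n => g n x) atTop (𝓝 0)) ∧ interior (startSet R g) = ∅ ∧
      Convex ℝ A0 ∧ (0 : E) ∈ A0 ∧ A0 ⊆ startSet R g ∧
      (∀ (ψ : StrongDual ℝ E) (a : ℝ), (∀ p ∈ A0, ψ p ≤ a) → zs ψ + r * ‖ψ‖ ≤ a) ∧
      UU A0 (startSet R g) := by
  obtain ⟨R, κ, g, d, ξ0, hR, hκ, hg1, hg2, hd, hgd, hfat⟩ := exists_seq hnr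
  have habs : ∀ n x, |g n x| ≤ ‖x‖ := fun n x => by
    have h1 := (g n).le_opNorm x
    have h2 := mul_le_mul_of_nonneg_right (hg1 n) (norm_nonneg x)
    rw [Real.norm_eq_abs] at h1
    linarith
  have hlim : ∀ x, Tendsto (fun n => g n x) atTop (𝓝 0) := by
    intro x
    rw [Metric.tendsto_atTop]
    intro ε hε
    obtain ⟨i, hi⟩ := hd.exists_dist_lt x hε
    refine ⟨i + 1, fun n hn => ?_⟩
    have h1 := habs n (x - d i)
    rw [map_sub, hgd n i hn, sub_zero, ← dist_eq_norm] at h1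
    rw [Real.dist_eq, sub_zero]
    linarith
  have h0 := zero_mem_startSet hR g
  refine ⟨R, 3 / 2, κ, g, (1 / 2 : ℝ) • ξ0, (1 / 2 : ℝ) • startSet R g, hR, by norm_num, hκ, hg1,
    hg2, hlim, ?_, (convex_startSet R g).smul _, ⟨0, h0, smul_zero _⟩, ?_, ?_, ?_⟩
  · rw [eq_empty_iff_forall_notMem]
    intro z hz
    obtain ⟨r, hr, hball⟩ := Metric.mem_nhds_iff.mp (mem_interior_iff_mem_nhds.mp hz)
    have h1 : ∀ n, r * κ ≤ g n z + 1 / ((n : ℝ) + 1) := fun n => by
      have h2 := le_of_ball (-g n) z r (1 / ((n : ℝ) + 1)) hr fun y hy => by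
        have := (hball hy).2 n
        rw [neg_apply]
        linarith
      have h3 := mul_le_mul_of_nonneg_left (hg2 n) hr.le
      rw [neg_apply, norm_neg] at h2
      linarith
    have h2 := (hlim z).add (tendsto_one_div_add_atTop_nhds_zero_nat (𝕜 := ℝ))
    have h3 := ge_of_tendsto' h2 h1
    have h4 : 0 < r * κ := by positivity
    linarith
  · rintro _ ⟨p, hp, rfl⟩
    simpa using convex_startSet R g hp h0 (a := 1 / 2) (b := 1 / 2) (by norm_num) (by norm_num)
      (by norm_num)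
  · intro ψ a hψ
    have h1 := hfat ψ (2 * a) fun x hx => by
      have h2 := hψ _ ⟨x, ⟨hx.1, fun n => by
        have h3 : 0 ≤ g n x := mem_iInter.mp hx.2 n
        positivity⟩, rfl⟩
      simp only [map_smul, smul_eq_mul] at h2
      linarith
    rw [smul_apply, smul_eq_mul]
    linarith
  · intro φ hφ q hq hmax
    obtain ⟨i, hi⟩ : ∃ i, φ (d i) ≠ 0 := by
      by_contra hc
      push Not at hc
      refine hφ (ContinuousLinearMap.ext fun x => ?_)
      exact hd.induction_on x (isClosed_eq φ.continuous continuous_const) hc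
    have hm : 0 < min R (1 / ((i : ℝ) + 1)) := by positivity
    have hsm : ∀ t : ℝ, |t| * ‖d i‖ ≤ min R (1 / ((i : ℝ) + 1)) → t • d i ∈ startSet R g := by
      intro t ht
      refine ⟨?_, fun n => ?_⟩
      · rw [mem_closedBall_zero_iff, norm_smul, Real.norm_eq_abs]
        exact ht.trans (min_le_left _ _)
      · rcases lt_or_ge i n with hn | hn
        · rw [map_smul, hgd n i hn, smul_zero]
          positivity
        · have h1 := (abs_le.mp (habs n (t • d i))).1
          rw [norm_smul, Real.norm_eq_abs] at h1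
          have h2 : 1 / ((i : ℝ) + 1) ≤ 1 / ((n : ℝ) + 1) :=
            one_div_le_one_div_of_le (by positivity) (by exact_mod_cast Nat.succ_le_succ hn)
          linarith [ht.trans (min_le_right _ _)]
    set t : ℝ := min R (1 / ((i : ℝ) + 1)) / (‖d i‖ + 1) with ht
    have ht0 : 0 < t := by positivity
    have ht1 : t * ‖d i‖ ≤ min R (1 / ((i : ℝ) + 1)) := by
      have : t * (‖d i‖ + 1) = min R (1 / ((i : ℝ) + 1)) := by
        rw [ht]
        field_simp
      nlinarith
    have h1 := hmax _ (hsm t (by rwa [abs_of_pos ht0]))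
    have h2 := hmax _ (hsm (-t) (by rwa [abs_neg, abs_of_pos ht0]))
    simp only [map_smul, smul_eq_mul] at h1 h2
    have hpos : 0 < φ q := by
      rcases lt_or_gt_of_ne hi with h | h
      · nlinarith
      · nlinarith
    refine ⟨φ q / 2, by linarith, ?_⟩
    rintro _ ⟨p, hp, rfl⟩
    simp only [map_smul, smul_eq_mul]
    linarith [hmax p hp]

end Pool.Agent.MP917bd5
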