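import Pool.Agent.P.MP_917bd5_an.BdE

set_option autoImplicit false

namespace Pool.Agent.MP917bd5.K

open Metric Filter Topology Set TopologicalSpace

/-- A normed space with separable dual is separable. -/
theorem separable_of_dual {X : Type} [NormedAddCommGroup X] [NormedSpace ℝ X]
    [SeparableSpace (StrongDual ℝ X)] : SeparableSpace X := by
  obtain ⟨ξ, hξ⟩ := exists_dense_seq (StrongDual ℝ X)
  choose x hx1 hx2 using fun n => exists_near_max (ξ n) (1 / 4) (by norm_num)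
  let S : Submodule ℝ X := Submodule.span ℝ (range x)
  have hsep : IsSeparable (closure (S : Set X)) :=
    ((countable_range x).isSeparable.span (R := ℝ)).closure
  rw [← isSeparable_univ_iff]
  refine hsep.mono fun y _ => ?_
  by_contra hy
  have hne : (S : Set X).Nonempty := ⟨0, S.zero_mem⟩
  have hd : 0 < infDist y (S : Set X) := by
    rw [← infDist_closure]
    exact (isClosed_closure.notMem_iff_infDist_pos hne.closure).mp hy
  obtain ⟨f, hf1, hf2⟩ := exists_sep S.convex hne y hd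
  have hz : ∀ n, f (x n) = 0 := by
    intro n
    by_contra h
    have hm : ((f y) / f (x n)) • x n ∈ S :=
      S.smul_mem _ (Submodule.subset_span (mem_range_self n))
    have h1 := hf2 _ hm
    rw [map_smul, smul_eq_mul, div_mul_cancel₀ _ h] at h1
    linarith
  obtain ⟨n, hn⟩ := Metric.denseRange_iff.mp hξ f (1 / 4) (by norm_num)
  rw [dist_eq_norm] at hn
  have h1 : ‖f‖ - ‖ξ n‖ ≤ ‖f - ξ n‖ := norm_sub_norm_le _ _
  have h2 := apply_le_norm_mul (ξ n - f) (x n)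
  rw [sub_apply, hz n, norm_sub_rev] at h2
  have h3 := hx2 n
  have h4 := mul_le_mul_of_nonneg_left (hx1 n) (norm_nonneg (f - ξ n))
  linarith

variable {E : Type} [NormedAddCommGroup E] [NormedSpace ℝ E]

theorem separable_dual [SeparableSpace E] (hr : Function.Surjective (J E)) :
    SeparableSpace (StrongDual ℝ E) := by
  have : SeparableSpace (StrongDual ℝ (StrongDual ℝ E)) :=
    hr.denseRange.separableSpace (J E).continuous
  exact separable_of_dual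

/-- The weights of the penalty function. -/
noncomputable def wt (φ : ℕ → StrongDual ℝ E) (j : ℕ) : ℝ := (1 / 2) ^ j / (1 + ‖φ j‖) ^ 2

/-- The penalty function on the dual. -/
noncomputable def pen (φ : ℕ → StrongDual ℝ E) (ξ : StrongDual ℝ E) : ℝ :=
  ∑' j, wt φ j * ‖ξ - φ j‖ ^ 2

theorem wt_pos (φ : ℕ → StrongDual ℝ E) (j : ℕ) : 0 < wt φ j := by
  unfold wt; positivity

theorem term_le (φ : ℕ → StrongDual ℝ E) (ξ : StrongDual ℝ E) (j : ℕ) :
    wt φ j * ‖ξ - φ j‖ ^ 2 ≤ (1 / 2) ^ j * (1 + ‖ξ‖) ^ 2 := by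
  have h1 : ‖ξ - φ j‖ ≤ (1 + ‖ξ‖) * (1 + ‖φ j‖) := by
    have := norm_sub_le ξ (φ j)
    nlinarith [mul_nonneg (norm_nonneg ξ) (norm_nonneg (φ j))]
  have h2 : ‖ξ - φ j‖ ^ 2 ≤ ((1 + ‖ξ‖) * (1 + ‖φ j‖)) ^ 2 := by gcongr
  calc wt φ j * ‖ξ - φ j‖ ^ 2 ≤ wt φ j * ((1 + ‖ξ‖) * (1 + ‖φ j‖)) ^ 2 :=
        mul_le_mul_of_nonneg_left h2 (wt_pos φ j).le
    _ = (1 / 2) ^ j * (1 + ‖ξ‖) ^ 2 := by
        unfold wt
        field_simp

theorem term_nonneg (φ : ℕ → StrongDual ℝ E) (ξ : StrongDual ℝ E) (j : ℕ) :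
    0 ≤ wt φ j * ‖ξ - φ j‖ ^ 2 := mul_nonneg (wt_pos φ j).le (sq_nonneg _)

theorem summable_term (φ : ℕ → StrongDual ℝ E) (ξ : StrongDual ℝ E) :
    Summable fun j => wt φ j * ‖ξ - φ j‖ ^ 2 :=
  Summable.of_nonneg_of_le (term_nonneg φ ξ) (term_le φ ξ) (summable_geometric_two.mul_right _)

theorem pen_nonneg (φ : ℕ → StrongDual ℝ E) (ξ : StrongDual ℝ E) : 0 ≤ pen φ ξ :=
  tsum_nonneg (term_nonneg φ ξ)

theorem pen_le (φ : ℕ → StrongDual ℝ E) (ξ : StrongDual ℝ E) :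
    pen φ ξ ≤ 2 * (1 + ‖ξ‖) ^ 2 := by
  have h := (summable_term φ ξ).tsum_le_tsum (term_le φ ξ) (summable_geometric_two.mul_right _)
  rw [tsum_mul_right, tsum_geometric_two] at h
  exact h

theorem pen_lsc (φ : ℕ → StrongDual ℝ E) :
    LowerSemicontinuous fun ξ : WeakDual ℝ E => pen φ (WeakDual.toStrongDual ξ) := by
  have h1 : ∀ j, LowerSemicontinuous fun ξ : WeakDual ℝ E =>
      wt φ j * ‖WeakDual.toStrongDual ξ - φ j‖ ^ 2 := by
    intro j
    have h2 : LowerSemicontinuous fun ξ : WeakDual ℝ E => ‖WeakDual.toStrongDual ξ - φ j‖ := by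
      rw [lowerSemicontinuous_iff_isClosed_preimage]
      intro r
      have := WeakDual.isClosed_closedBall (φ j) r
      convert this using 1
      ext ξ
      simp [dist_eq_norm]
    have h3 : Continuous fun t : ℝ => wt φ j * (max t 0) ^ 2 := by fun_prop
    have h4 : Monotone fun t : ℝ => wt φ j * (max t 0) ^ 2 := by
      intro s t hst
      have h5 : max s 0 ≤ max t 0 := max_le_max hst le_rfl
      have h6 : 0 ≤ max s 0 := le_max_right _ _
      have h7 : (max s 0) ^ 2 ≤ (max t 0) ^ 2 := by gcongr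
      exact mul_le_mul_of_nonneg_left h7 (wt_pos φ j).le
    have h8 := h3.comp_lowerSemicontinuous h2 h4
    have h9 : (fun ξ : WeakDual ℝ E => wt φ j * ‖WeakDual.toStrongDual ξ - φ j‖ ^ 2) =
        (fun t : ℝ => wt φ j * (max t 0) ^ 2) ∘
          fun ξ : WeakDual ℝ E => ‖WeakDual.toStrongDual ξ - φ j‖ := by
      ext ξ
      simp only [Function.comp_apply]
      rw [max_eq_left (norm_nonneg _)]
    rw [h9]
    exact h8
  intro ξ0 y hy
  have h2 := (summable_term φ (WeakDual.toStrongDual ξ0)).hasSum.tendsto_sum_nat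
  obtain ⟨N, hN⟩ := (h2.eventually (lt_mem_nhds hy)).exists
  have h3 := lowerSemicontinuous_sum (a := Finset.range N) (fun j _ => h1 j) ξ0 y hN
  filter_upwards [h3] with ξ hξ
  exact hξ.trans_le ((summable_term φ _).sum_le_tsum _ fun j _ => term_nonneg φ _ j)

theorem exists_maximizer (φ : ℕ → StrongDual ℝ E) {K a : ℝ} (hK : 0 ≤ K) (ha : 0 < a) (v : E) :
    ∃ ξ0 : StrongDual ℝ E, ‖ξ0‖ ≤ K ∧ ∀ ξ : StrongDual ℝ E, ‖ξ‖ ≤ K →
      ξ v - a * pen φ ξ ≤ ξ0 v - a * pen φ ξ0 := by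
  have hc := WeakDual.isCompact_closedBall (0 : StrongDual ℝ E) K
  have hne : (WeakDual.toStrongDual ⁻¹' closedBall (0 : StrongDual ℝ E) K).Nonempty :=
    ⟨StrongDual.toWeakDual 0, by simpa using hK⟩
  have h1 : Continuous fun ξ : WeakDual ℝ E => -(ξ v) / a :=
    (WeakDual.eval_continuous v).neg.div_const a
  have h2 := (pen_lsc φ).add h1.lowerSemicontinuous
  obtain ⟨ξ0, h3, h4⟩ := (h2.lowerSemicontinuousOn _).exists_isMinOn hne hc
  refine ⟨WeakDual.toStrongDual ξ0, by simpa using h3, fun ξ hξ => ?_⟩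
  have h5 := isMinOn_iff.mp h4 (StrongDual.toWeakDual ξ) (by simpa using hξ)
  change pen φ (WeakDual.toStrongDual ξ0) + -((WeakDual.toStrongDual ξ0) v) / a ≤
    pen φ ξ + -(ξ v) / a at h5
  have h6 := mul_le_mul_of_nonneg_left h5 ha.le
  rw [mul_add, mul_add, mul_div_cancel₀ _ ha.ne', mul_div_cancel₀ _ ha.ne'] at h6
  linarith

theorem pen_mid (φ : ℕ → StrongDual ℝ E) (ξ ζ : StrongDual ℝ E) (j : ℕ) :
    wt φ j * (‖ξ - φ j‖ - ‖ζ - φ j‖) ^ 2 / 4 ≤
      (pen φ ξ + pen φ ζ) / 2 - pen φ ((1 / 2 : ℝ) • (ξ + ζ)) := by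
  have key : ∀ i, wt φ i * (‖ξ - φ i‖ - ‖ζ - φ i‖) ^ 2 / 4 ≤
      (wt φ i * ‖ξ - φ i‖ ^ 2 + wt φ i * ‖ζ - φ i‖ ^ 2) / 2 -
        wt φ i * ‖(1 / 2 : ℝ) • (ξ + ζ) - φ i‖ ^ 2 := by
    intro i
    have h1 : (1 / 2 : ℝ) • (ξ + ζ) - φ i = (1 / 2 : ℝ) • ((ξ - φ i) + (ζ - φ i)) := by module
    have h2 : ‖(1 / 2 : ℝ) • (ξ + ζ) - φ i‖ ≤ (‖ξ - φ i‖ + ‖ζ - φ i‖) / 2 := by
      rw [h1, norm_smul, Real.norm_eq_abs, abs_of_pos (by norm_num : (0 : ℝ) < 1 / 2)]
      linarith [norm_add_le (ξ - φ i) (ζ - φ i)]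
    have h3 : ‖(1 / 2 : ℝ) • (ξ + ζ) - φ i‖ ^ 2 ≤ ((‖ξ - φ i‖ + ‖ζ - φ i‖) / 2) ^ 2 := by gcongr
    have h4 := mul_le_mul_of_nonneg_left h3 (wt_pos φ i).le
    nlinarith
  have hs := (((summable_term φ ξ).hasSum.add (summable_term φ ζ).hasSum).div_const 2).sub
    (summable_term φ ((1 / 2 : ℝ) • (ξ + ζ))).hasSum
  refine (key j).trans (le_hasSum hs j fun i _ => le_trans ?_ (key i))
  have := wt_pos φ i
  positivity

/-- A convex penalty that is Frechet smooth everywhere and almost `K` times the norm. -/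
theorem exists_smooth [SeparableSpace (StrongDual ℝ E)] {K β : ℝ} (hK : 0 < K) (hβ : 0 < β) :
    ∃ c : E → ℝ, Continuous c ∧ (∀ v, K * ‖v‖ - β ≤ c v) ∧ c 0 ≤ 0 ∧
      ∀ v, ∃ ξ : StrongDual ℝ E, ‖ξ‖ ≤ K ∧ ∀ ε : ℝ, 0 < ε → ∃ δ : ℝ, 0 < δ ∧
        ∀ h : E, ‖h‖ ≤ δ → c (v + h) ≤ c v + ξ h + ε * ‖h‖ := by
  obtain ⟨φ, hφ⟩ := exists_dense_seq (StrongDual ℝ E)
  set a : ℝ := β / (2 * (1 + K) ^ 2) with ha
  have ha0 : 0 < a := by positivity
  choose m hm1 hm2 using exists_maximizer φ hK.le ha0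
  have hpen : ∀ ξ : StrongDual ℝ E, ‖ξ‖ ≤ K → a * pen φ ξ ≤ β := by
    intro ξ hξ
    have h1 : pen φ ξ ≤ 2 * (1 + K) ^ 2 := (pen_le φ ξ).trans (by gcongr)
    calc a * pen φ ξ ≤ a * (2 * (1 + K) ^ 2) := by gcongr
      _ = β := by rw [ha]; field_simp
  have hlip : ∀ v w, (m w w - a * pen φ (m w)) - (m v v - a * pen φ (m v)) ≤ K * ‖w - v‖ := by
    intro v w
    have h1 := hm2 v (m w) (hm1 w)
    have h2 := apply_le_norm_mul (m w) (w - v)
    have h3 := mul_le_mul_of_nonneg_right (hm1 w) (norm_nonneg (w - v))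
    rw [map_sub] at h2
    linarith
  refine ⟨fun v => m v v - a * pen φ (m v), ?_, fun v => ?_, ?_, fun v => ⟨m v, hm1 v, ?_⟩⟩
  · refine (LipschitzWith.of_dist_le_mul (K := ⟨K, hK.le⟩) fun v w => ?_).continuous
    rw [Real.dist_eq, dist_eq_norm, abs_le]
    have h1 := hlip v w
    have h2 := hlip w v
    rw [norm_sub_rev] at h1
    constructor
    · change -(K * ‖v - w‖) ≤ _
      linarith
    · exact h2
  · obtain ⟨g, hg1, hg2⟩ := exists_dual_vector'' ℝ v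
    have h1 : ‖K • g‖ ≤ K := by
      rw [norm_smul, Real.norm_eq_abs, abs_of_pos hK]
      nlinarith
    have h2 := hm2 v _ h1
    have h3 := hpen _ h1
    simp only [smul_apply, smul_eq_mul, hg2, RCLike.ofReal_real_eq_id, id_eq] at h2
    linarith
  · have := mul_nonneg ha0.le (pen_nonneg φ (m 0))
    simp only [map_zero]
    linarith
  · intro ε hε
    obtain ⟨j, hj⟩ := Metric.denseRange_iff.mp hφ (m v) (ε / 4) (by positivity)
    rw [dist_eq_norm] at hj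
    have hw := wt_pos φ j
    refine ⟨a * wt φ j * (ε / 2) ^ 2 / (4 * K), by positivity, fun h hh => ?_⟩
    set ξ := m (v + h) with hξ
    have hξK : ‖ξ‖ ≤ K := hm1 _
    have h1 := hm2 (v + h) (m v) (hm1 v)
    have h2 := hm2 v ξ hξK
    have hmid : ‖(1 / 2 : ℝ) • (ξ + m v)‖ ≤ K := by
      rw [norm_smul, Real.norm_eq_abs, abs_of_pos (by norm_num : (0 : ℝ) < 1 / 2)]
      linarith [norm_add_le ξ (m v), hm1 v]
    have h3 := hm2 v _ hmid
    have h4 := mul_le_mul_of_nonneg_left (pen_mid φ ξ (m v) j) ha0.le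
    have h5 := apply_le_norm_mul (ξ - m v) h
    have h6 : ‖ξ - m v‖ ≤ 2 * K := by linarith [norm_sub_le ξ (m v), hm1 v]
    have h7 := mul_le_mul_of_nonneg_right h6 (norm_nonneg h)
    simp only [smul_apply, add_apply, smul_eq_mul, map_add, sub_apply] at h1 h3 h5 ⊢
    rw [← hξ] at h1
    have h8 : a * (wt φ j * (‖ξ - φ j‖ - ‖m v - φ j‖) ^ 2 / 4) ≤ K * ‖h‖ := by linarith
    have h9 : K * ‖h‖ ≤ a * wt φ j * (ε / 2) ^ 2 / 4 := by
      calc K * ‖h‖ ≤ K * (a * wt φ j * (ε / 2) ^ 2 / (4 * K)) := by gcongr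
        _ = _ := by field_simp
    have h10 : (‖ξ - φ j‖ - ‖m v - φ j‖) ^ 2 ≤ (ε / 2) ^ 2 := by
      have h11 : a * wt φ j * (‖ξ - φ j‖ - ‖m v - φ j‖) ^ 2 ≤ a * wt φ j * (ε / 2) ^ 2 := by
        linarith
      exact le_of_mul_le_mul_left h11 (mul_pos ha0 hw)
    have h12 := (abs_le_of_sq_le_sq' h10 (by positivity)).2
    have h13 : ‖ξ - m v‖ ≤ ε := by
      have h14 := norm_sub_le_norm_sub_add_norm_sub ξ (φ j) (m v)
      rw [norm_sub_rev (φ j)] at h14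
      linarith
    have h15 := mul_le_mul_of_nonneg_right h13 (norm_nonneg h)
    linarith

end Pool.Agent.MP917bd5.K
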