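import Pool.Agent.P.MP_917bd5_an.KA

set_option autoImplicit false

namespace Pool.Agent.MP917bd5.K

open Metric Filter Topology Set TopologicalSpace

variable {E : Type} [NormedAddCommGroup E] [NormedSpace ℝ E]

/-- Denting points of the closed unit ball. -/
def Dent (x : E) : Prop :=
  ∀ ε : ℝ, 0 < ε → ∃ (f : StrongDual ℝ E) (a : ℝ), a < f x ∧
    ∀ y : E, ‖y‖ ≤ 1 → a < f y → ‖y - x‖ < ε

/-- The sets of Lau. -/
def Lau (G : Set E) (η : ℝ) : Set E :=
  {x | ∃ δ : ℝ, 0 < δ ∧ ∃ φ : StrongDual ℝ E, ‖φ‖ ≤ 1 ∧ ∀ z ∈ G,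
    ‖x - z‖ < infDist x G + δ → infDist x G - η + δ ≤ φ (x - z)}

omit [NormedSpace ℝ E] in
theorem abs_infDist_le (G : Set E) (x y : E) : infDist x G ≤ infDist y G + ‖x - y‖ := by
  rw [← dist_eq_norm]
  exact infDist_le_infDist_add_dist

theorem isOpen_Lau (G : Set E) (η : ℝ) : IsOpen (Lau G η) := by
  rw [Metric.isOpen_iff]
  rintro x ⟨δ, hδ, φ, hφ, H⟩
  refine ⟨δ / 4, by positivity, fun y hy => ⟨δ / 4, by positivity, φ, hφ, fun z hz hlt => ?_⟩⟩
  rw [mem_ball, dist_eq_norm] at hy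
  have h1 := abs_infDist_le G y x
  have h2 := norm_sub_le_norm_sub_add_norm_sub x y z
  rw [norm_sub_rev x y] at h2
  have h3 := H z hz (by linarith)
  have h4 := apply_le_norm_mul φ (x - y)
  have h5 := mul_le_mul_of_nonneg_right hφ (norm_nonneg (x - y))
  rw [norm_sub_rev x y] at h4 h5
  simp only [map_sub] at h3 h4 ⊢
  linarith

theorem dense_Lau [CompleteSpace E] [SeparableSpace (StrongDual ℝ E)] (G : Set E)
    {η : ℝ} (hη : 0 < η) : Dense (Lau G η) := by
  rw [Metric.dense_iff]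
  intro x0 r hr
  set D : ℝ := infDist x0 G + r with hD
  have hD0 : 0 < D := add_pos_of_nonneg_of_pos infDist_nonneg hr
  set e : ℝ := min 1 (η / (6 * D)) with he
  have he0 : 0 < e := lt_min one_pos (by positivity)
  have he1 : e ≤ 1 := min_le_left _ _
  have he2 : 3 * e * D ≤ η / 2 := by
    have h1 : e ≤ η / (6 * D) := min_le_right _ _
    rw [le_div_iff₀ (by positivity)] at h1
    linarith
  obtain ⟨c, hc, hlow, hc0, hsm⟩ := exists_smooth (E := E) (K := 1 + e) (β := e * r / 2)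
    (by positivity) (by positivity)
  obtain ⟨x, hx1, hx2⟩ := ekeland (fun x => infDist x G + c (x - x0) + e * r / 2)
    (by have := continuous_infDist_pt G; fun_prop)
    (fun x => by
      have h1 := hlow (x - x0)
      have h2 : 0 ≤ infDist x G := infDist_nonneg
      have h3 : 0 ≤ (1 + e) * ‖x - x0‖ := by positivity
      linarith) e he0 x0
  have hxr : ‖x - x0‖ < r := by
    have h1 := hlow (x - x0)
    have h2 := abs_infDist_le G x0 x
    rw [norm_sub_rev] at h2
    have h3 : 0 ≤ e * dist x x0 := by positivity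
    rw [sub_self] at hx1
    have h4 : e * ‖x - x0‖ ≤ e * (r / 2) := by linarith
    have h5 := le_of_mul_le_mul_left h4 he0
    linarith
  refine ⟨x, by rwa [mem_ball, dist_eq_norm], ?_⟩
  obtain ⟨ξ, hξ, hξ2⟩ := hsm (x - x0)
  obtain ⟨δ0, hδ0, H⟩ := hξ2 e he0
  set d := infDist x G with hd
  have hd0 : 0 ≤ d := infDist_nonneg
  have hdD : d ≤ D := by linarith [abs_infDist_le G x x0]
  set t : ℝ := min 1 (δ0 / (D + 1)) with ht
  have ht0 : 0 < t := lt_min one_pos (by positivity)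
  have ht1 : t ≤ 1 := min_le_left _ _
  have ht2 : t * (D + 1) ≤ δ0 := by
    have h1 : t ≤ δ0 / (D + 1) := min_le_right _ _
    rwa [le_div_iff₀ (by positivity)] at h1
  set δ : ℝ := min 1 (t * η / 6) with hδ
  have hδ1 : δ ≤ 1 := min_le_left _ _
  have hδ2 : δ ≤ t * η / 6 := min_le_right _ _
  have hδ0' : 0 < δ := lt_min one_pos (by positivity)
  refine ⟨δ, hδ0', (-(1 + e)⁻¹) • ξ, ?_, fun z hz hlt => ?_⟩
  · rw [norm_smul, norm_neg, Real.norm_eq_abs, abs_of_pos (by positivity),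
      inv_mul_le_iff₀ (by positivity)]
    linarith
  · have hzd : d ≤ ‖x - z‖ := by
      rw [← dist_eq_norm]
      exact infDist_le_dist_of_mem hz
    have hn : ‖(-t) • (x - z)‖ = t * ‖x - z‖ := by
      rw [norm_smul, norm_neg, Real.norm_eq_abs, abs_of_pos ht0]
    have h1 := H ((-t) • (x - z)) (by rw [hn]; nlinarith)
    have h2 := hx2 (x + (-t) • (x - z))
    have h3 : x + (-t) • (x - z) - x0 = x - x0 + (-t) • (x - z) := by abel
    have h4 : dist (x + (-t) • (x - z)) x = t * ‖x - z‖ := by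
      rw [dist_eq_norm, add_sub_cancel_left, hn]
    have h5 : infDist (x + (-t) • (x - z)) G ≤ (1 - t) * ‖x - z‖ := by
      refine (infDist_le_dist_of_mem hz).trans (le_of_eq ?_)
      have h6 : x + (-t) • (x - z) - z = (1 - t) • (x - z) := by module
      rw [dist_eq_norm, h6, norm_smul, Real.norm_eq_abs, abs_of_nonneg (by linarith)]
    rw [h3, h4] at h2
    rw [hn, map_smul, smul_eq_mul] at h1
    have h7 : t * ((1 - 2 * e) * ‖x - z‖ - η / 6) ≤ t * (-ξ (x - z)) := by nlinarith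
    have h8 := le_of_mul_le_mul_left h7 ht0
    rw [smul_apply, smul_eq_mul, neg_mul, ← mul_neg, le_inv_mul_iff₀ (by positivity)]
    have h9 : δ ≤ η / 6 := by nlinarith
    have h10 : e * ‖x - z‖ ≤ e * (d + δ) := by gcongr
    have h11 : e * d ≤ e * D := by gcongr
    have h12 : e * δ ≤ δ := by nlinarith
    have h13 : 0 ≤ e * η := by positivity
    nlinarith

theorem norm_le_of_forall (v : E) (b : ℝ) (h : ∀ f : StrongDual ℝ E, ‖f‖ ≤ 1 → f v ≤ b) :
    ‖v‖ ≤ b := by
  obtain ⟨f, hf1, hf2⟩ := exists_dual_vector'' ℝ v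
  simp only [RCLike.ofReal_real_eq_id, id_eq] at hf2
  exact hf2 ▸ h f hf1

theorem apply_le_norm {f : StrongDual ℝ E} (hf : ‖f‖ ≤ 1) (v : E) : f v ≤ ‖v‖ := by
  have h1 := apply_le_norm_mul f v
  have h2 := mul_le_mul_of_nonneg_right hf (norm_nonneg v)
  linarith

/-- A far point lying in all sets of Lau, seen from `G` through a cap of denting points, has
exactly one nearest point. -/
theorem unique_nearest (hr : Function.Surjective (J E)) {G : Set E} (hcl : IsClosed G)
    (hne : G.Nonempty) {x : E} (hL : ∀ η : ℝ, 0 < η → x ∈ Lau G η) (w : E) (ρ : ℝ)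
    (hw : ∀ z ∈ G, ‖x - z - w‖ ≤ ρ) (hd : 0 < infDist x G)
    (hdent : ∀ v : E, ‖v‖ = infDist x G → ‖v - w‖ ≤ ρ → Dent ((infDist x G)⁻¹ • v)) :
    ∃! y : E, y ∈ G ∧ dist x y = infDist x G := by
  set d := infDist x G with hdd
  have hlow : ∀ z ∈ G, d ≤ ‖x - z‖ := fun z hz => by
    rw [← dist_eq_norm]
    exact infDist_le_dist_of_mem hz
  have hex : ∃ y ∈ G, dist x y = d := by
    have h1 : ∀ n : ℕ, ∃ y ∈ G, dist x y < d + 1 / ((n : ℝ) + 1) := fun n =>
      (infDist_lt_iff hne).mp (lt_add_of_pos_right _ (by positivity))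
    choose u hu1 hu2 using h1
    simp only [dist_eq_norm] at hu2
    have hev : ∀ θ : ℝ, 0 < θ → ∀ᶠ n : ℕ in atTop, ‖x - u n‖ < d + θ := fun θ hθ => by
      filter_upwards [(tendsto_one_div_add_atTop_nhds_zero_nat (𝕜 := ℝ)).eventually
        (gt_mem_nhds hθ)] with n hn
      linarith [hu2 n]
    obtain ⟨ξ, hξ⟩ := exists_cluster (fun n => x - u n) (d + 1) fun n => by
      have h2 : 1 / ((n : ℝ) + 1) ≤ 1 := by
        rw [div_le_one (by positivity)]
        linarith [(Nat.cast_nonneg n : (0 : ℝ) ≤ n)]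
      linarith [hu2 n]
    obtain ⟨v, rfl⟩ := hr ξ
    simp only [J_apply] at hξ
    have hv1 : ‖v‖ ≤ d := by
      refine le_of_forall_pos_le_add fun θ hθ => norm_le_of_forall v _ fun f hf => hξ f _ ?_
      filter_upwards [hev θ hθ] with n hn
      linarith [apply_le_norm hf (x - u n)]
    have hv2 : d ≤ ‖v‖ := by
      refine le_of_forall_pos_le_add fun θ hθ => ?_
      obtain ⟨δ, hδ, φ, hφ, H⟩ := hL θ hθ
      have h2 := hξ (-φ) (-(d - θ + δ)) (by
        filter_upwards [hev δ hδ] with n hn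
        have := H _ (hu1 n) hn
        rw [neg_apply]
        linarith)
      rw [neg_apply] at h2
      linarith [apply_le_norm hφ v]
    have hv3 : ‖v - w‖ ≤ ρ := by
      refine norm_le_of_forall _ _ fun f hf => ?_
      have h2 := hξ f (ρ + f w) (Eventually.of_forall fun n => by
        have h3 := apply_le_norm hf (x - u n - w)
        rw [map_sub] at h3
        linarith [hw _ (hu1 n)])
      rw [map_sub]
      linarith
    have hv : ‖v‖ = d := le_antisymm hv1 hv2
    refine ⟨x - v, ?_, by rw [dist_eq_norm, sub_sub_cancel, hv]⟩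
    rw [← hcl.closure_eq, Metric.mem_closure_iff]
    intro θ hθ
    obtain ⟨f, a, hfa, H⟩ := hdent v hv hv3 (θ / (2 * (d + 1))) (by positivity)
    rw [map_smul, smul_eq_mul, lt_inv_mul_iff₀ hd] at hfa
    obtain ⟨s, hs0, hs1, hs2, hs3⟩ : ∃ s : ℝ, 0 < s ∧ s ≤ 1 ∧ s ≤ θ / 2 ∧ (d + s) * a < f v := by
      have h2 : Tendsto (fun s : ℝ => (d + s) * a) (𝓝[>] 0) (𝓝 ((d + 0) * a)) :=
        (Continuous.tendsto (by fun_prop) 0).mono_left nhdsWithin_le_nhds
      rw [add_zero] at h2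
      have h3 := h2.eventually (gt_mem_nhds hfa)
      have h4 : ∀ᶠ s : ℝ in 𝓝[>] 0, s ∈ Ioo 0 (min 1 (θ / 2)) :=
        Ioo_mem_nhdsGT (lt_min one_pos (by positivity))
      obtain ⟨s, h5, h6⟩ := (h3.and h4).exists
      exact ⟨s, h6.1, (h6.2.trans_le (min_le_left _ _)).le,
        (h6.2.trans_le (min_le_right _ _)).le, h5⟩
    have hfr : ∃ᶠ n : ℕ in atTop, (d + s) * a < f (x - u n) := by
      by_contra hc
      rw [not_frequently] at hc
      have h2 := hξ f ((d + s) * a) (by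
        filter_upwards [hc] with n hn
        exact not_lt.mp hn)
      linarith
    obtain ⟨n, hn1, hn2⟩ := (hfr.and_eventually (hev s hs0)).exists
    have hds : 0 < d + s := by positivity
    have h2 := H ((d + s)⁻¹ • (x - u n)) (by
      rw [norm_smul, Real.norm_eq_abs, abs_of_pos (by positivity), inv_mul_le_iff₀ hds]
      linarith) (by
      rw [map_smul, smul_eq_mul, lt_inv_mul_iff₀ hds]
      exact hn1)
    refine ⟨u n, hu1 n, ?_⟩
    have h3 : x - v - u n = (d + s) • ((d + s)⁻¹ • (x - u n) - d⁻¹ • v) + (s * d⁻¹) • v := by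
      rw [smul_sub, smul_smul, smul_smul, mul_inv_cancel₀ hds.ne', one_smul, add_mul,
        mul_inv_cancel₀ hd.ne', add_smul, one_smul]
      abel
    have h4 : ‖(s * d⁻¹) • v‖ = s := by
      rw [norm_smul, Real.norm_eq_abs, abs_of_pos (by positivity), hv, mul_assoc,
        inv_mul_cancel₀ hd.ne', mul_one]
    have h5 : ‖(d + s) • ((d + s)⁻¹ • (x - u n) - d⁻¹ • v)‖ < θ / 2 := by
      rw [norm_smul, Real.norm_eq_abs, abs_of_pos hds]
      calc (d + s) * ‖(d + s)⁻¹ • (x - u n) - d⁻¹ • v‖ < (d + s) * (θ / (2 * (d + 1))) := by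
            gcongr
        _ ≤ (d + 1) * (θ / (2 * (d + 1))) := by gcongr
        _ = θ / 2 := by field_simp
    rw [dist_eq_norm, h3]
    linarith [norm_add_le ((d + s) • ((d + s)⁻¹ • (x - u n) - d⁻¹ • v)) ((s * d⁻¹) • v)]
  obtain ⟨y, hy1, hy2⟩ := hex
  refine ⟨y, ⟨hy1, hy2⟩, ?_⟩
  rintro z ⟨hz1, hz2⟩
  rw [dist_eq_norm] at hy2 hz2
  set v : E := (1 / 2 : ℝ) • ((x - y) + (x - z)) with hv
  have hhalf : ∀ p : E, ‖(1 / 2 : ℝ) • p‖ = ‖p‖ / 2 := fun p => by
    rw [norm_smul, Real.norm_eq_abs, abs_of_pos (by norm_num : (0 : ℝ) < 1 / 2)]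
    ring
  have hv1 : ‖v‖ ≤ d := by
    rw [hv, hhalf]
    linarith [norm_add_le (x - y) (x - z)]
  have hv2 : d ≤ ‖v‖ := by
    refine le_of_forall_pos_le_add fun θ hθ => ?_
    obtain ⟨δ, hδ, φ, hφ, H⟩ := hL θ hθ
    have h2 := H y hy1 (by linarith)
    have h3 := H z hz1 (by linarith)
    have h4 := apply_le_norm hφ v
    rw [hv, map_smul, map_add, smul_eq_mul, ← hv] at h4
    linarith
  have hv3 : ‖v - w‖ ≤ ρ := by
    have h2 : v - w = (1 / 2 : ℝ) • ((x - y - w) + (x - z - w)) := by rw [hv]; module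
    rw [h2, hhalf]
    linarith [norm_add_le (x - y - w) (x - z - w), hw y hy1, hw z hz1]
  by_contra hne'
  have hyz : 0 < ‖z - y‖ := norm_pos_iff.mpr (sub_ne_zero.mpr hne')
  obtain ⟨f, a, hfa, H⟩ := hdent v (le_antisymm hv1 hv2) hv3 (d⁻¹ * (‖z - y‖ / 2)) (by positivity)
  have hunit : ∀ p : E, ‖p‖ = d → ‖d⁻¹ • p‖ ≤ 1 := fun p hp => by
    rw [norm_smul, Real.norm_eq_abs, abs_of_pos (by positivity), hp, inv_mul_cancel₀ hd.ne']
  have hsc : ∀ p : E, ‖d⁻¹ • p‖ = d⁻¹ * ‖p‖ := fun p => by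
    rw [norm_smul, Real.norm_eq_abs, abs_of_pos (by positivity)]
  have h2 : f (d⁻¹ • v) = (f (d⁻¹ • (x - y)) + f (d⁻¹ • (x - z))) / 2 := by
    simp only [hv, map_smul, map_add, smul_eq_mul]
    ring
  by_cases h3 : a < f (d⁻¹ • (x - y))
  · have h4 := H _ (hunit _ hy2) h3
    have h5 : d⁻¹ • (x - y) - d⁻¹ • v = d⁻¹ • ((1 / 2 : ℝ) • (z - y)) := by rw [hv]; module
    rw [h5, hsc, hhalf] at h4
    exact lt_irrefl _ h4
  · have h4 := H _ (hunit _ hz2) (by linarith)
    have h5 : d⁻¹ • (x - z) - d⁻¹ • v = d⁻¹ • ((1 / 2 : ℝ) • (y - z)) := by rw [hv]; module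
    rw [h5, hsc, hhalf, norm_sub_rev] at h4
    exact lt_irrefl _ h4

/-- The localised theorem of Lau. -/
theorem residual_ball [CompleteSpace E] [SeparableSpace E] (hr : Function.Surjective (J E))
    {u : E} {σ : ℝ} (hu : ‖u‖ = 1) (hσ : 0 < σ) (hcap : ∀ x : E, ‖x‖ = 1 → ‖x - u‖ < σ → Dent x)
    {G : Set E} (hcl : IsClosed G) (hne : G.Nonempty) (hb : Bornology.IsBounded G) :
    ∃ (x0 : E) (r : ℝ), 0 < r ∧
      IsMeagre (ball x0 r \ {x | ∃! y : E, y ∈ G ∧ dist x y = infDist x G}) := by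
  have := separable_dual hr
  obtain ⟨R, hR0, hR⟩ := hb.subset_closedBall_lt 0 (0 : E)
  set T : ℝ := (R + 1) + 1 + 2 * (R + 1) / σ with hT
  have hT0 : 0 < T := by positivity
  refine ⟨T • u, 1, one_pos, ?_⟩
  have hres : (⋂ n : ℕ, Lau G (1 / ((n : ℝ) + 1))) ∈ residual E :=
    countable_iInter_mem.mpr fun n =>
      residual_of_dense_open (isOpen_Lau _ _) (dense_Lau G (by positivity))
  refine mem_of_superset hres fun x hx hx' => hx'.2 ?_
  have hx1 : ‖x - T • u‖ < 1 := by simpa [dist_eq_norm] using hx'.1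
  have hTu : ‖T • u‖ = T := by rw [norm_smul, hu, mul_one, Real.norm_eq_abs, abs_of_pos hT0]
  have hw : ∀ z ∈ G, ‖x - z - T • u‖ ≤ R + 1 := by
    intro z hz
    have h1 : ‖z‖ ≤ R := by simpa using hR hz
    have h2 : x - z - T • u = (x - T • u) - z := by abel
    rw [h2]
    linarith [norm_sub_le (x - T • u) z]
  have hd1 : T - (R + 1) ≤ infDist x G := by
    rw [le_infDist hne]
    intro z hz
    have h1 := norm_sub_norm_le (T • u) (x - z)
    rw [norm_sub_rev (T • u), hTu] at h1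
    rw [dist_eq_norm]
    linarith [hw z hz]
  have hq : 0 < 2 * (R + 1) / σ := by positivity
  have hd : 0 < infDist x G := by linarith
  refine unique_nearest hr hcl hne (fun η hη => ?_) (T • u) (R + 1) hw hd fun v hv hvw => ?_
  · obtain ⟨n, hn⟩ := exists_nat_one_div_lt hη
    obtain ⟨δ, hδ, φ, hφ, H⟩ := mem_iInter.mp hx n
    exact ⟨δ, hδ, φ, hφ, fun z hz hlt => by linarith [H z hz hlt]⟩
  · set d := infDist x G with hdd
    refine hcap _ ?_ ?_
    · rw [norm_smul, Real.norm_eq_abs, abs_of_pos (by positivity), hv, inv_mul_cancel₀ hd.ne']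
    · have h1 : d⁻¹ • v - u = d⁻¹ • ((v - T • u) + (T - d) • u) := by
        rw [smul_add, smul_sub, smul_smul, smul_smul, mul_sub, inv_mul_cancel₀ hd.ne', sub_smul,
          one_smul]
        abel
      have h2 : |T - d| ≤ R + 1 := by
        have h3 := abs_norm_sub_norm_le (T • u) v
        rw [hTu, hv, norm_sub_rev] at h3
        linarith
      have h4 : ‖(v - T • u) + (T - d) • u‖ ≤ 2 * (R + 1) := by
        have h5 := norm_add_le (v - T • u) ((T - d) • u)
        rw [norm_smul, hu, mul_one, Real.norm_eq_abs] at h5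
        linarith
      rw [h1, norm_smul, Real.norm_eq_abs, abs_of_pos (by positivity), inv_mul_lt_iff₀ hd]
      have h6 : 2 * (R + 1) / σ < d := by linarith
      rw [div_lt_iff₀ hσ] at h6
      linarith

end Pool.Agent.MP917bd5.K
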