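import Pool.Agent.P.MP_917bd5_an.KB

set_option autoImplicit false

namespace Pool.Agent.MP917bd5.K

open Metric Filter Topology Set TopologicalSpace

variable {E : Type} [NormedAddCommGroup E] [NormedSpace ℝ E]

/-- A flat disc. -/
def disc (f : StrongDual ℝ E) (c : ℝ) (p : E) (t : ℝ) : Set E := {h | f h = c} ∩ closedBall p t

theorem isClosed_disc (f : StrongDual ℝ E) (c : ℝ) (p : E) (t : ℝ) : IsClosed (disc f c p t) :=
  (isClosed_eq f.continuous continuous_const).inter isClosed_closedBall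

theorem convex_disc (f : StrongDual ℝ E) (c : ℝ) (p : E) (t : ℝ) : Convex ℝ (disc f c p t) := by
  refine Convex.inter ?_ (convex_closedBall p t)
  intro x hx y hy a b _ _ hab
  simp only [mem_ofPred_eq, map_add, map_smul, smul_eq_mul] at hx hy ⊢
  rw [hx, hy, ← add_mul, hab, one_mul]

theorem interior_eq_empty_of_levels {f : StrongDual ℝ E} {a : E} (ha : f a = 1) {S : Set ℝ}
    (hS : S.Countable) {Γ : Set E} (h : ∀ g ∈ Γ, f g ∈ S) : interior Γ = ∅ := by
  rw [eq_empty_iff_forall_notMem]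
  intro g hg
  have hc : Continuous fun s : ℝ => g + (s - f g) • a := by fun_prop
  obtain ⟨s, hs1, hs2⟩ := (hS.dense_compl ℝ).exists_mem_open (isOpen_interior.preimage hc)
    ⟨f g, by simpa using hg⟩
  have h1 := h _ (interior_subset hs2)
  rw [map_add, map_smul, ha, smul_eq_mul, mul_one, add_sub_cancel] at h1
  exact hs1 h1

/-- A facet: a disc in a hyperplane whose functional has a non-trivial face. -/
def Fac (f : StrongDual ℝ E) (c : ℝ) (D : Set E) : Prop :=
  ∃ (p : E) (t : ℝ) (a b : E), ‖f‖ ≤ 1 ∧ f p = c ∧ 0 < t ∧ a ≠ b ∧ ‖a‖ ≤ 1 ∧ ‖b‖ ≤ 1 ∧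
    f a = 1 ∧ f b = 1 ∧ D = disc f c p t

theorem alpha {f : StrongDual ℝ E} {c : ℝ} {D : Set E} (hD : Fac f c D) {U : Set E}
    (hU : IsOpen U) (h : ∀ y ∈ U, c < f y ∧ ∃ g ∈ D, ‖y - g‖ ≤ f y - c) {y : E} (hy : y ∈ U) :
    ∃ g1 ∈ D, ∃ g2 ∈ D, g1 ≠ g2 ∧ ‖y - g1‖ ≤ f y - c ∧ ‖y - g2‖ ≤ f y - c := by
  obtain ⟨p, t, a, b, -, hp, ht, hab, ha, hb, hfa, hfb, rfl⟩ := hD
  obtain ⟨hcy, g, ⟨hg1, hg2⟩, hg3⟩ := h y hy
  set r := f y - c with hr
  have hr0 : 0 < r := by linarith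
  change f g = c at hg1
  obtain ⟨s, hs0, hs⟩ : ∃ s : ℝ, 0 < s ∧ y + s • (g - p) ∈ U := by
    have h1 : Tendsto (fun s : ℝ => y + s • (g - p)) (𝓝[>] 0) (𝓝 (y + (0 : ℝ) • (g - p))) :=
      (Continuous.tendsto (by fun_prop) 0).mono_left nhdsWithin_le_nhds
    rw [zero_smul, add_zero] at h1
    obtain ⟨s, h2, h3⟩ := ((h1.eventually (hU.mem_nhds hy)).and self_mem_nhdsWithin).exists
    exact ⟨s, h3, h2⟩
  obtain ⟨-, g', ⟨hg1', hg2'⟩, hg3'⟩ := h _ hs
  change f g' = c at hg1'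
  have hfy : f (y + s • (g - p)) - c = r := by
    rw [map_add, map_smul, map_sub, hg1, hp, sub_self, smul_zero, add_zero]
  rw [hfy] at hg3'
  rw [mem_closedBall, dist_eq_norm] at hg2'
  have hs1 : 0 < 1 + s := by positivity
  set g1 : E := (1 + s)⁻¹ • (g' + s • p) with hg1d
  have hsc : ∀ v : E, ‖(1 + s)⁻¹ • v‖ = (1 + s)⁻¹ * ‖v‖ := fun v => by
    rw [norm_smul, Real.norm_eq_abs, abs_of_pos (by positivity)]
  have e1 : f g1 = c := by
    rw [hg1d, map_smul, map_add, map_smul, hg1', hp, smul_eq_mul, smul_eq_mul]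
    field_simp
  have e2 : ‖g1 - p‖ < t := by
    have h1 : g1 - p = (1 + s)⁻¹ • (g' - p) := by
      rw [hg1d]
      match_scalars <;> field_simp <;> ring
    rw [h1, hsc, inv_mul_lt_iff₀ hs1]
    nlinarith
  have e3 : ‖y - g1‖ ≤ r := by
    have h1 : y - g1 = (1 + s)⁻¹ • ((y + s • (g - p) - g') + s • (y - g)) := by
      rw [hg1d]
      match_scalars <;> field_simp <;> ring
    have h2 := norm_add_le (y + s • (g - p) - g') (s • (y - g))
    rw [norm_smul, Real.norm_eq_abs, abs_of_pos hs0] at h2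
    have h3 := mul_le_mul_of_nonneg_left hg3 hs0.le
    rw [h1, hsc, inv_mul_le_iff₀ hs1]
    linarith
  obtain ⟨e, he1, he2, he3⟩ : ∃ e : E, ‖e‖ ≤ 1 ∧ f e = 1 ∧ y - g1 ≠ r • e := by
    by_cases h1 : y - g1 = r • a
    · refine ⟨b, hb, hfb, fun h2 => hab ?_⟩
      exact smul_right_injective E hr0.ne' (h1.symm.trans h2)
    · exact ⟨a, ha, hfa, h1⟩
  set θ : ℝ := min 1 ((t - ‖g1 - p‖) / (2 * r)) with hθ
  have hθ0 : 0 < θ := lt_min one_pos (div_pos (by linarith) (by positivity))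
  have hθ1 : θ ≤ 1 := min_le_left _ _
  have hθ2 : θ * (2 * r) ≤ t - ‖g1 - p‖ := by
    have h1 : θ ≤ (t - ‖g1 - p‖) / (2 * r) := min_le_right _ _
    rwa [le_div_iff₀ (by positivity)] at h1
  have hre : ‖r • e‖ ≤ r := by
    rw [norm_smul, Real.norm_eq_abs, abs_of_pos hr0]
    nlinarith
  refine ⟨g1, ⟨e1, by rw [mem_closedBall, dist_eq_norm]; exact e2.le⟩,
    g1 + θ • (y - g1 - r • e), ⟨?_, ?_⟩, ?_, e3, ?_⟩
  · change f (g1 + θ • (y - g1 - r • e)) = c
    simp only [map_add, map_smul, map_sub, e1, he2, smul_eq_mul]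
    rw [← hr]
    ring
  · rw [mem_closedBall, dist_eq_norm]
    have h1 : g1 + θ • (y - g1 - r • e) - p = (g1 - p) + θ • (y - g1 - r • e) := by abel
    have h2 := norm_add_le (g1 - p) (θ • (y - g1 - r • e))
    rw [norm_smul, Real.norm_eq_abs, abs_of_pos hθ0] at h2
    have h3 : ‖y - g1 - r • e‖ ≤ 2 * r := by linarith [norm_sub_le (y - g1) (r • e)]
    have h4 := mul_le_mul_of_nonneg_left h3 hθ0.le
    rw [h1]
    linarith
  · intro h1
    have h2 : θ • (y - g1 - r • e) = 0 := by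
      have h3 : g1 + 0 = g1 + θ • (y - g1 - r • e) := by rw [add_zero]; exact h1
      exact (add_left_cancel h3).symm
    rcases smul_eq_zero.mp h2 with h3 | h3
    · exact hθ0.ne' h3
    · exact he3 (sub_eq_zero.mp h3)
  · have h1 : y - (g1 + θ • (y - g1 - r • e)) = (1 - θ) • (y - g1) + θ • (r • e) := by module
    have h2 := norm_add_le ((1 - θ) • (y - g1)) (θ • (r • e))
    rw [norm_smul (1 - θ), norm_smul θ, Real.norm_eq_abs, Real.norm_eq_abs, abs_of_pos hθ0,
      abs_of_nonneg (by linarith)] at h2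
    have h3 := mul_le_mul_of_nonneg_left e3 (by linarith : 0 ≤ 1 - θ)
    have h4 := mul_le_mul_of_nonneg_left hre hθ0.le
    rw [h1]
    linarith

/-- The point `g` is uniformly farther from the points of `U` than `A` is. -/
def Gap (A U : Set E) (g : E) : Prop := ∃ γ : ℝ, 0 < γ ∧ ∀ y ∈ U, infDist y A + γ ≤ ‖y - g‖

theorem gadget_sep {f : StrongDual ℝ E} (hf : ‖f‖ ≤ 1) {a : E} (ha : f a = 1) (e : ℕ → E)
    (he : ∀ k, ‖e k‖ ≤ 1) (hfe : Tendsto (fun k => f (e k)) atTop (𝓝 1)) {ε : ℝ} (hε : 0 < ε)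
    (hsep : ∀ j k, j ≠ k → ε ≤ ‖e j - e k‖) (y z : E) {d0 ρ : ℝ} (hd0 : 0 < d0) (hρ : 0 < ρ)
    (hz : ∀ k, ‖y - d0 • e k - z‖ ≤ ρ / 2) :
    ∃ (Γ : Set E) (s : ℝ), 0 < s ∧ Γ ⊆ closedBall z ρ ∧ IsClosed Γ ∧ interior Γ = ∅ ∧
      Γ.Nonempty ∧ ∀ g ∈ Γ, Gap Γ (ball y s) g := by
  set τ : ℝ := min (d0 * ε / 4) (ρ / 2) with hτ
  have hτ0 : 0 < τ := lt_min (by positivity) (by positivity)
  have hτ1 : τ ≤ d0 * ε / 4 := min_le_left _ _
  have hτ2 : τ ≤ ρ / 2 := min_le_right _ _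
  set c : ℝ := f y - d0 with hc
  let t : ℕ → ℝ := fun k => 1 / ((k : ℝ) + 1)
  have ht0 : ∀ k, 0 < t k := fun k => by positivity
  have ht : Tendsto t atTop (𝓝 0) := tendsto_one_div_add_atTop_nhds_zero_nat
  let P : ℕ → Set E := fun k => disc f (c - t k) (y - d0 • e k) τ
  set s : ℝ := min (τ / 4) (d0 / 2) with hs
  have hs1 : s ≤ τ / 4 := min_le_left _ _
  have hs2 : s ≤ d0 / 2 := min_le_right _ _
  have hs0 : 0 < s := lt_min (by positivity) (by positivity)
  have key : ∀ x ∈ ball y s, (∃ k, (P k).Nonempty) ∧ infDist x (⋃ k, P k) ≤ f x - c := by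
    intro x hx
    rw [mem_ball, dist_eq_norm] at hx
    have h1 := apply_le_norm hf (x - y)
    have h2 := apply_le_norm hf (y - x)
    rw [norm_sub_rev y x] at h2
    rw [map_sub] at h1 h2
    set m := f x - c with hm
    have hm0 : 0 < m := by linarith
    have hl : Tendsto (fun k => (m + t k) / f (e k)) atTop (𝓝 m) := by
      have := (ht.const_add m).div hfe one_ne_zero
      rw [add_zero, div_one] at this
      exact this
    have hev : ∀ᶠ k in atTop, x - ((m + t k) / f (e k)) • e k ∈ P k ∧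
        ‖((m + t k) / f (e k)) • e k‖ ≤ (m + t k) / f (e k) := by
      filter_upwards [hfe.eventually (lt_mem_nhds one_pos),
        hl.eventually (Ioo_mem_nhds (by linarith : m - τ / 4 < m) (by linarith : m < m + τ / 4))]
        with k hk1 hk2
      have hpos : 0 < (m + t k) / f (e k) := div_pos (by linarith [ht0 k]) hk1
      refine ⟨⟨?_, ?_⟩, ?_⟩
      · change f (x - ((m + t k) / f (e k)) • e k) = c - t k
        rw [map_sub, map_smul, smul_eq_mul, div_mul_cancel₀ _ hk1.ne']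
        linarith
      · rw [mem_closedBall, dist_eq_norm]
        have h3 : x - ((m + t k) / f (e k)) • e k - (y - d0 • e k) =
            (x - y) - ((m + t k) / f (e k) - d0) • e k := by module
        have h4 := norm_sub_le (x - y) (((m + t k) / f (e k) - d0) • e k)
        rw [norm_smul, Real.norm_eq_abs] at h4
        have h5 : |(m + t k) / f (e k) - d0| ≤ τ / 2 := by
          rw [abs_le]
          constructor <;> linarith [hk2.1, hk2.2]
        have h6 := mul_le_mul h5 (he k) (norm_nonneg _) (by positivity)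
        rw [h3]
        linarith
      · rw [norm_smul, Real.norm_eq_abs, abs_of_pos hpos]
        nlinarith [he k]
    refine ⟨?_, ge_of_tendsto hl ?_⟩
    · obtain ⟨k, hk, -⟩ := hev.exists
      exact ⟨k, _, hk⟩
    · filter_upwards [hev] with k hk
      refine (infDist_le_dist_of_mem (mem_iUnion.mpr ⟨k, hk.1⟩)).trans ?_
      rw [dist_eq_norm, sub_sub_cancel]
      exact hk.2
  refine ⟨⋃ k, P k, s, hs0, ?_, ?_, ?_, ?_, ?_⟩
  · intro g hg
    obtain ⟨k, -, hk⟩ := mem_iUnion.mp hg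
    rw [mem_closedBall, dist_eq_norm] at hk ⊢
    linarith [norm_sub_le_norm_sub_add_norm_sub g (y - d0 • e k) z, hz k]
  · refine LocallyFinite.isClosed_iUnion (fun h => ?_) fun k => isClosed_disc _ _ _ _
    refine ⟨ball h (d0 * ε / 8), ball_mem_nhds _ (by positivity), Set.Subsingleton.finite ?_⟩
    rintro j ⟨g, ⟨-, hg1⟩, hg2⟩ k ⟨g', ⟨-, hg1'⟩, hg2'⟩
    by_contra hjk
    have h1 := hsep k j (Ne.symm hjk)
    have h2 : dist (y - d0 • e j) (y - d0 • e k) = d0 * ‖e k - e j‖ := by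
      have h3 : y - d0 • e j - (y - d0 • e k) = d0 • (e k - e j) := by module
      rw [dist_eq_norm, h3, norm_smul, Real.norm_eq_abs, abs_of_pos hd0]
    rw [mem_closedBall] at hg1 hg1'
    rw [mem_ball] at hg2 hg2'
    have h3 := dist_triangle4_left (y - d0 • e j) (y - d0 • e k) g g'
    have h4 := dist_triangle_right g g' h
    have h5 := mul_le_mul_of_nonneg_left h1 hd0.le
    have h6 := dist_triangle4 (y - d0 • e j) g g' (y - d0 • e k)
    rw [dist_comm (y - d0 • e j) g] at h6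
    have h7 : 0 < d0 * ε := by positivity
    linarith
  · refine interior_eq_empty_of_levels ha (countable_range fun k => c - t k) fun g hg => ?_
    obtain ⟨k, hk, -⟩ := mem_iUnion.mp hg
    exact ⟨k, hk.symm⟩
  · obtain ⟨k, g, hg⟩ := (key y (mem_ball_self hs0)).1
    exact ⟨g, mem_iUnion.mpr ⟨k, hg⟩⟩
  · intro g hg
    obtain ⟨k, hk, -⟩ := mem_iUnion.mp hg
    change f g = c - t k at hk
    refine ⟨t k, ht0 k, fun x hx => ?_⟩
    have h1 := apply_le_norm hf (x - g)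
    rw [map_sub, hk] at h1
    linarith [(key x hx).2]

omit [NormedSpace ℝ E] in
theorem exists_sep_subseq (b : ℕ → E) (h : ¬ TotallyBounded (range b)) :
    ∃ (ε : ℝ) (n : ℕ → ℕ), 0 < ε ∧ StrictMono n ∧ ∀ j k, j ≠ k → ε ≤ ‖b (n j) - b (n k)‖ := by
  rw [Metric.totallyBounded_iff] at h
  push Not at h
  obtain ⟨ε, hε, H⟩ := h
  obtain ⟨n, -, hn⟩ := exists_seq_of_forall_finset_exists (fun _ : ℕ => True)
    (fun m k => m < k ∧ ε ≤ ‖b m - b k‖) (fun s _ => by
      by_contra hc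
      push Not at hc
      refine H (b '' Iic (s.sup id)) ((finite_Iic _).image b) ?_
      rintro _ ⟨k, rfl⟩
      simp only [mem_iUnion, exists_prop]
      by_cases hk : k ≤ s.sup id
      · exact ⟨b k, mem_image_of_mem b hk, mem_ball_self hε⟩
      · obtain ⟨m, hm, hm2⟩ := hc k trivial
        have hm1 : m ≤ s.sup id := Finset.le_sup (f := id) hm
        refine ⟨b m, mem_image_of_mem b hm1, ?_⟩
        rw [mem_ball, dist_comm, dist_eq_norm]
        exact hm2 (by omega))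
  refine ⟨ε, n, hε, fun j k hjk => (hn j k hjk).1, fun j k hjk => ?_⟩
  rcases lt_or_gt_of_ne hjk with h1 | h1
  · exact (hn j k h1).2
  · rw [norm_sub_rev]
    exact (hn k j h1).2

theorem gadget [CompleteSpace E]
    (hnd : ∀ u : E, ‖u‖ = 1 → ∀ σ : ℝ, 0 < σ → ∃ x : E, ‖x‖ = 1 ∧ ‖x - u‖ < σ ∧ ¬ Dent x)
    {y z : E} (hyz : y ≠ z) {ρ : ℝ} (hρ : 0 < ρ) :
    ∃ (Γ : Set E) (s : ℝ), 0 < s ∧ Γ ⊆ closedBall z ρ ∧ IsClosed Γ ∧ interior Γ = ∅ ∧
      Γ.Nonempty ∧ ((∀ g ∈ Γ, Gap Γ (ball y s) g) ∨ ∃ (f : StrongDual ℝ E) (c : ℝ), Fac f c Γ ∧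
        ∀ x ∈ ball y s, c < f x ∧ ∃ g ∈ Γ, ‖x - g‖ ≤ f x - c) := by
  set d0 := ‖y - z‖ with hd
  have hd0 : 0 < d0 := norm_pos_iff.mpr (sub_ne_zero.mpr hyz)
  set σ : ℝ := ρ / (4 * d0) with hσ
  have hσ0 : 0 < σ := by positivity
  have hσd : d0 * σ = ρ / 4 := by rw [hσ]; field_simp
  obtain ⟨x, hx1, hx2, hx3⟩ := hnd (d0⁻¹ • (y - z)) (by
    rw [norm_smul, Real.norm_eq_abs, abs_of_pos (by positivity), inv_mul_cancel₀ hd0.ne']) σ hσ0
  have hnear : ∀ e : E, ‖e - x‖ ≤ σ → ‖y - d0 • e - z‖ ≤ ρ / 2 := by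
    intro e he
    have h1 : y - d0 • e - z = d0 • (d0⁻¹ • (y - z) - e) := by
      rw [smul_sub, smul_smul, mul_inv_cancel₀ hd0.ne', one_smul]
      abel
    have h2 := norm_sub_le_norm_sub_add_norm_sub (d0⁻¹ • (y - z)) x e
    rw [norm_sub_rev _ x, norm_sub_rev x e] at h2
    have h3 : ‖d0⁻¹ • (y - z) - e‖ ≤ 2 * σ := by linarith
    have h4 := mul_le_mul_of_nonneg_left h3 hd0.le
    rw [h1, norm_smul, Real.norm_eq_abs, abs_of_pos hd0]
    linarith
  obtain ⟨f, hf1, hf2⟩ := exists_dual_vector'' ℝ x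
  simp only [RCLike.ofReal_real_eq_id, id_eq, hx1] at hf2
  unfold Dent at hx3
  push Not at hx3
  obtain ⟨ε, hε, H⟩ := hx3
  have h1 : ∀ k : ℕ, ∃ v : E, ‖v‖ ≤ 1 ∧ 1 - 1 / ((k : ℝ) + 1) < f v ∧ ε ≤ ‖v - x‖ := fun k =>
    H f _ (by rw [hf2]; linarith [(by positivity : (0 : ℝ) < 1 / ((k : ℝ) + 1))])
  choose v hv1 hv2 hv3 using h1
  set l : ℝ := min 1 (σ / 2) with hl
  have hl0 : 0 < l := lt_min one_pos (by positivity)
  have hl1 : l ≤ 1 := min_le_left _ _
  have hl2 : l ≤ σ / 2 := min_le_right _ _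
  let b : ℕ → E := fun k => x + l • (v k - x)
  have hbx : ∀ k, ‖b k - x‖ = l * ‖v k - x‖ := fun k => by
    simp only [b]
    rw [add_sub_cancel_left, norm_smul, Real.norm_eq_abs, abs_of_pos hl0]
  have hb1 : ∀ k, ‖b k‖ ≤ 1 := fun k => by
    have h2 : b k = (1 - l) • x + l • v k := by simp only [b]; module
    have h3 := norm_add_le ((1 - l) • x) (l • v k)
    rw [norm_smul, norm_smul, Real.norm_eq_abs, Real.norm_eq_abs, abs_of_pos hl0,
      abs_of_nonneg (by linarith), hx1] at h3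
    have h4 := mul_le_mul_of_nonneg_left (hv1 k) hl0.le
    rw [h2]
    linarith
  have hb2 : Tendsto (fun k => f (b k)) atTop (𝓝 1) := by
    have h2 : Tendsto (fun k : ℕ => 1 - 1 / ((k : ℝ) + 1)) atTop (𝓝 (1 - 0)) :=
      tendsto_one_div_add_atTop_nhds_zero_nat.const_sub 1
    rw [sub_zero] at h2
    refine tendsto_of_tendsto_of_tendsto_of_le_of_le h2 tendsto_const_nhds (fun k => ?_)
      fun k => (apply_le_norm hf1 _).trans (hb1 k)
    have h3 := (apply_le_norm hf1 (v k)).trans (hv1 k)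
    have h4 := hv2 k
    simp only [b, map_add, map_smul, map_sub, hf2, smul_eq_mul]
    nlinarith
  have hb3 : ∀ k, ‖b k - x‖ ≤ σ := fun k => by
    have h2 : ‖v k - x‖ ≤ 2 := by linarith [norm_sub_le (v k) x, hv1 k]
    rw [hbx]
    nlinarith
  have hb4 : ∀ k, l * ε ≤ ‖b k - x‖ := fun k => by
    rw [hbx]
    exact mul_le_mul_of_nonneg_left (hv3 k) hl0.le
  by_cases htb : TotallyBounded (range b)
  · have hcp : IsCompact (closure (range b)) :=
      htb.closure.isCompact_of_isComplete isClosed_closure.isComplete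
    obtain ⟨a, -, n, hn, hlim⟩ := hcp.tendsto_subseq fun k => subset_closure (mem_range_self k)
    have ha1 : ‖a‖ ≤ 1 := le_of_tendsto' hlim.norm fun k => hb1 _
    have ha2 : f a = 1 :=
      tendsto_nhds_unique ((f.continuous.tendsto a).comp hlim) (hb2.comp hn.tendsto_atTop)
    have ha3 : l * ε ≤ ‖a - x‖ := ge_of_tendsto' (hlim.sub_const x).norm fun k => hb4 _
    have ha4 : a ≠ x := by
      intro h2
      rw [h2, sub_self, norm_zero] at ha3
      linarith [mul_pos hl0 hε]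
    have hp : f (y - d0 • x) = f y - d0 := by rw [map_sub, map_smul, hf2, smul_eq_mul, mul_one]
    refine ⟨disc f (f y - d0) (y - d0 • x) (ρ / 2), min (ρ / 4) d0,
      lt_min (by positivity) hd0, ?_, isClosed_disc _ _ _ _, ?_,
      ⟨_, hp, mem_closedBall_self (by positivity)⟩, Or.inr ⟨f, f y - d0,
        ⟨_, _, a, x, hf1, hp, by positivity, ha4, ha1, hx1.le, ha2, hf2, rfl⟩, fun w hw => ?_⟩⟩
    · rintro g ⟨-, hg⟩
      rw [mem_closedBall, dist_eq_norm] at hg ⊢
      have h2 := hnear x (by simpa using hσ0.le)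
      linarith [norm_sub_le_norm_sub_add_norm_sub g (y - d0 • x) z]
    · exact interior_eq_empty_of_levels hf2 (countable_singleton _) fun g hg => hg.1
    · rw [mem_ball, dist_eq_norm, lt_min_iff] at hw
      have h2 := apply_le_norm hf1 (w - y)
      have h3 := apply_le_norm hf1 (y - w)
      rw [norm_sub_rev y w] at h3
      rw [map_sub] at h2 h3
      have h4 : 0 < f w - (f y - d0) := by linarith [hw.2]
      refine ⟨by linarith, w - (f w - (f y - d0)) • x, ⟨?_, ?_⟩, ?_⟩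
      · change f (w - (f w - (f y - d0)) • x) = f y - d0
        rw [map_sub, map_smul, hf2, smul_eq_mul]
        ring
      · rw [mem_closedBall, dist_eq_norm]
        have h5 : w - (f w - (f y - d0)) • x - (y - d0 • x) = (w - y) - (f w - f y) • x := by
          module
        have h6 := norm_sub_le (w - y) ((f w - f y) • x)
        rw [norm_smul, hx1, mul_one, Real.norm_eq_abs] at h6
        have h7 : |f w - f y| ≤ ‖w - y‖ := abs_le.mpr ⟨by linarith, h2⟩
        rw [h5]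
        linarith [hw.1]
      · rw [sub_sub_cancel, norm_smul, hx1, mul_one, Real.norm_eq_abs, abs_of_pos h4]
  · obtain ⟨ε', n, hε', hn, hsep⟩ := exists_sep_subseq b htb
    obtain ⟨Γ, s, h1, h2, h3, h4, h5, h6⟩ := gadget_sep hf1 hf2 (fun k => b (n k))
      (fun k => hb1 _) (hb2.comp hn.tendsto_atTop) hε' hsep y z hd0 hρ fun k => hnear _ (hb3 _)
    exact ⟨Γ, s, h1, h2, h3, h4, h5, Or.inl h6⟩

end Pool.Agent.MP917bd5.K
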