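import Pool.Agent.P.MP_917bd5_an.KC

set_option autoImplicit false

namespace Pool.Agent.MP917bd5.K

open Metric Filter Topology Set TopologicalSpace

variable {E : Type} [NormedAddCommGroup E] [NormedSpace ℝ E]

/-- States of the construction. -/
def St (A Z : Set E) : Prop :=
  IsClosed A ∧ A.Nonempty ∧ interior A = ∅ ∧ IsOpen Z ∧ Disjoint A Z ∧
    ∃ FF : Set (Set E), FF.Finite ∧ A ∩ closure Z ⊆ ⋃₀ FF ∧ ∀ D ∈ FF, D ⊆ A ∧
      ∃ (f : StrongDual ℝ E) (c : ℝ), Fac f c D ∧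
        ∀ g ∈ D, ∃ r : ℝ, 0 < r ∧ ∀ h ∈ ball g r, h ∈ closure Z → c ≤ f h

/-- No point of `U` has a unique nearest point in a set between `A` and the complement of `Z`. -/
def Kill (A Z U : Set E) : Prop :=
  ∀ G : Set E, A ⊆ G → Disjoint G Z → ∀ y ∈ U, ¬ ∃! z : E, z ∈ G ∧ dist y z = infDist y G

/-- The first kind of zone. -/
def zone1 (A U : Set E) : Set E := ⋃ y ∈ U, ball y (infDist y A)

/-- The second kind of zone. -/
def zone2 (A U : Set E) : Set E := ⋃ y ∈ U, {h | ‖y - h‖ - infDist y A < infDist h A / 2}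

omit [NormedSpace ℝ E] in
theorem Kill.mono {A Z Z' U : Set E} (h : Kill A Z U) (hZ : Z ⊆ Z') : Kill A Z' U :=
  fun G h1 h2 => h G h1 (h2.mono_right hZ)

omit [NormedSpace ℝ E] in
theorem isOpen_zone1 (A U : Set E) : IsOpen (zone1 A U) :=
  isOpen_biUnion fun _ _ => isOpen_ball

omit [NormedSpace ℝ E] in
theorem isOpen_zone2 (A U : Set E) : IsOpen (zone2 A U) :=
  isOpen_biUnion fun y _ => isOpen_lt (by fun_prop) ((continuous_infDist_pt A).div_const 2)

omit [NormedSpace ℝ E] in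
theorem disjoint_zone1 (A U : Set E) : Disjoint A (zone1 A U) := by
  rw [Set.disjoint_left]
  intro g hg hz
  simp only [zone1, mem_iUnion, exists_prop] at hz
  obtain ⟨y, -, hy⟩ := hz
  exact Set.disjoint_left.mp disjoint_ball_infDist hy hg

omit [NormedSpace ℝ E] in
theorem kill_zone1 {A U : Set E} (h : ∀ y ∈ U, ∃ g1 ∈ A, ∃ g2 ∈ A, g1 ≠ g2 ∧
    ‖y - g1‖ ≤ infDist y A ∧ ‖y - g2‖ ≤ infDist y A) : Kill A (zone1 A U) U := by
  intro G hAG hGZ y hy hu
  obtain ⟨g1, h1, g2, h2, h3, h4, h5⟩ := h y hy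
  have h6 : infDist y A ≤ infDist y G := by
    rw [le_infDist ⟨g1, hAG h1⟩]
    intro g hg
    by_contra hc
    refine Set.disjoint_left.mp hGZ hg (mem_biUnion hy ?_)
    rw [mem_ball, dist_comm]
    exact not_le.mp hc
  have h7 : ∀ g ∈ A, ‖y - g‖ ≤ infDist y A → g ∈ G ∧ dist y g = infDist y G := fun g hg hle =>
    ⟨hAG hg, le_antisymm (by rw [dist_eq_norm]; linarith) (infDist_le_dist_of_mem (hAG hg))⟩
  exact h3 (hu.unique (h7 g1 h1 h4) (h7 g2 h2 h5))

omit [NormedSpace ℝ E] in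
theorem far_zone1 {A U : Set E} {g : E} (h : Gap A U g) :
    ∃ r : ℝ, 0 < r ∧ Disjoint (ball g r) (zone1 A U) := by
  obtain ⟨γ, hγ, H⟩ := h
  refine ⟨γ, hγ, Set.disjoint_left.mpr fun h h1 h2 => ?_⟩
  simp only [zone1, mem_iUnion, exists_prop] at h2
  obtain ⟨y, hy, h3⟩ := h2
  have h4 := H y hy
  rw [mem_ball] at h1 h3
  rw [← dist_eq_norm] at h4
  linarith [dist_triangle_left y g h]

omit [NormedSpace ℝ E] in
theorem far_zone2 {A U : Set E} {g : E} (hg : g ∈ A) (h : Gap A U g) :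
    ∃ r : ℝ, 0 < r ∧ Disjoint (ball g r) (zone2 A U) := by
  obtain ⟨γ, hγ, H⟩ := h
  refine ⟨γ / 2, by positivity, Set.disjoint_left.mpr fun h h1 h2 => ?_⟩
  simp only [zone2, mem_iUnion, exists_prop, mem_ofPred_eq] at h2
  obtain ⟨y, hy, h3⟩ := h2
  have h4 := H y hy
  rw [mem_ball] at h1
  rw [← dist_eq_norm] at h3 h4
  have h5 : infDist h A ≤ dist h g := infDist_le_dist_of_mem hg
  linarith [dist_triangle y h g]

omit [NormedSpace ℝ E] in
theorem kill_zone2 {A U : Set E} (hcl : IsClosed A) (hne : A.Nonempty)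
    (h : ∀ g ∈ A, Gap A U g) : Kill A (zone2 A U) U := by
  rintro G hAG hGZ y hy ⟨z, ⟨hz1, hz2⟩, -⟩
  have h1 : infDist y G ≤ infDist y A := infDist_le_infDist_of_subset hAG hne
  rw [dist_eq_norm] at hz2
  by_cases hzA : z ∈ A
  · obtain ⟨γ, hγ, H⟩ := h z hzA
    linarith [H y hy]
  · have h2 := (hcl.notMem_iff_infDist_pos hne).mp hzA
    refine Set.disjoint_left.mp hGZ hz1 (mem_biUnion hy ?_)
    change ‖y - z‖ - infDist y A < infDist z A / 2
    linarith

omit [NormedSpace ℝ E] in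
theorem not_closure_of_far {Z : Set E} {g h : E} {r : ℝ} (hd : Disjoint (ball g r) Z)
    (hh : h ∈ ball g r) : h ∉ closure Z :=
  Set.disjoint_left.mp (hd.closure_right isOpen_ball) hh

theorem St.add_zone {A Z Z1 : Set E} (h : St A Z) (hZ1 : IsOpen Z1)
    (hfar : ∀ g ∈ A, ∃ r : ℝ, 0 < r ∧ Disjoint (ball g r) Z1) : St A (Z ∪ Z1) := by
  obtain ⟨h1, h2, h3, h4, h5, FF, h6, h7, h8⟩ := h
  refine ⟨h1, h2, h3, h4.union hZ1, ?_, FF, h6, ?_, fun D hD => ⟨(h8 D hD).1, ?_⟩⟩
  · refine Set.disjoint_union_right.mpr ⟨h5, Set.disjoint_left.mpr fun g hg hz => ?_⟩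
    obtain ⟨r, hr, hd⟩ := hfar g hg
    exact Set.disjoint_left.mp hd (mem_ball_self hr) hz
  · rintro g ⟨hg, hz⟩
    rw [closure_union] at hz
    obtain ⟨r, hr, hd⟩ := hfar g hg
    exact h7 ⟨hg, hz.resolve_right (not_closure_of_far hd (mem_ball_self hr))⟩
  · obtain ⟨hDA, f, c, hf, H⟩ := h8 D hD
    refine ⟨f, c, hf, fun g hg => ?_⟩
    obtain ⟨r, hr, hd⟩ := hfar g (hDA hg)
    obtain ⟨r', hr', H'⟩ := H g hg
    refine ⟨min r r', lt_min hr hr', fun h hh hz => ?_⟩
    rw [closure_union] at hz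
    exact H' h (ball_subset_ball (min_le_right _ _) hh)
      (hz.resolve_right (not_closure_of_far hd (ball_subset_ball (min_le_left _ _) hh)))

theorem St.add_inner {A Z Z1 : Set E} (h : St A Z) (hZ1 : IsOpen Z1) (hd : Disjoint A Z1)
    (hsub : Z1 ⊆ closure Z) : St A (Z ∪ Z1) := by
  obtain ⟨h1, h2, h3, h4, h5, FF, h6, h7, h8⟩ := h
  have he : closure (Z ∪ Z1) = closure Z :=
    le_antisymm (closure_minimal (union_subset subset_closure hsub) isClosed_closure)
      (closure_mono subset_union_left)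
  refine ⟨h1, h2, h3, h4.union hZ1, Set.disjoint_union_right.mpr ⟨h5, hd⟩, FF, h6, ?_, ?_⟩
  · rwa [he]
  · rwa [he]

theorem St.add_set {A Z Γ : Set E} (h : St A Z) (hcl : IsClosed Γ) (hint : interior Γ = ∅)
    (hd : Disjoint Γ (closure Z)) : St (A ∪ Γ) Z := by
  obtain ⟨h1, h2, h3, h4, h5, FF, h6, h7, h8⟩ := h
  refine ⟨h1.union hcl, h2.mono subset_union_left, ?_, h4,
    Set.disjoint_union_left.mpr ⟨h5, hd.mono_right subset_closure⟩, FF, h6, ?_,
    fun D hD => ⟨(h8 D hD).1.trans subset_union_left, (h8 D hD).2⟩⟩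
  · rw [interior_union_isClosed_of_interior_empty h1 hint, h3]
  · rintro g ⟨hg | hg, hz⟩
    · exact h7 ⟨hg, hz⟩
    · exact (Set.disjoint_left.mp hd hg hz).elim

theorem St.add_facet {A Z Γ Z1 : Set E} {f : StrongDual ℝ E} {c : ℝ} (h : St A Z)
    (hcl : IsClosed Γ) (hint : interior Γ = ∅) (hd : Disjoint Γ (closure Z)) (hf : Fac f c Γ)
    (hZ1 : IsOpen Z1) (hfar : ∀ g ∈ A, ∃ r : ℝ, 0 < r ∧ Disjoint (ball g r) Z1)
    (hd1 : Disjoint Γ Z1) (hup : ∀ h ∈ Z1, c ≤ f h) : St (A ∪ Γ) (Z ∪ Z1) := by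
  obtain ⟨h1, h2, h3, h4, h5, FF, h6, h7, h8⟩ := h.add_zone hZ1 hfar
  refine ⟨h1.union hcl, h2.mono subset_union_left, ?_, h4, Set.disjoint_union_left.mpr
    ⟨h5, Set.disjoint_union_right.mpr ⟨hd.mono_right subset_closure, hd1⟩⟩,
    insert Γ FF, h6.insert Γ, ?_, ?_⟩
  · rw [interior_union_isClosed_of_interior_empty h1 hint, h3]
  · rw [sUnion_insert]
    rintro g ⟨hg | hg, hz⟩
    · exact Or.inr (h7 ⟨hg, hz⟩)
    · exact Or.inl hg
  · rintro D (rfl | hD)
    · refine ⟨subset_union_right, f, c, hf, fun g hg => ?_⟩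
      obtain ⟨r, hr, H⟩ := Metric.isOpen_iff.mp isClosed_closure.isOpen_compl g
        (Set.disjoint_left.mp hd hg)
      refine ⟨r, hr, fun h hh hz => ?_⟩
      rw [closure_union] at hz
      have h9 : closure Z1 ⊆ {h | c ≤ f h} :=
        closure_minimal hup (isClosed_le continuous_const f.continuous)
      exact h9 (hz.resolve_left (H hh))
    · exact ⟨(h8 D hD).1.trans subset_union_left, (h8 D hD).2⟩

/-- The outcome of one step. -/
def Out (A Z V : Set E) : Prop :=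
  ∃ A' Z' U : Set E, St A' Z' ∧ A ⊆ A' ∧ Z ⊆ Z' ∧ IsOpen U ∧ U.Nonempty ∧ U ⊆ V ∧ Kill A' Z' U

theorem out_of_gap {A A' Z U V : Set E} (h : St A' Z) (hA : A ⊆ A') (hU : IsOpen U)
    (hne : U.Nonempty) (hUV : U ⊆ V) (hgap : ∀ g ∈ A', Gap A' U g) : Out A Z V :=
  ⟨A', Z ∪ zone2 A' U, U, h.add_zone (isOpen_zone2 _ _) fun g hg => far_zone2 hg (hgap g hg), hA,
    subset_union_left, hU, hne, hUV, (kill_zone2 h.1 h.2.1 hgap).mono subset_union_right⟩

theorem step_room [CompleteSpace E] [Nontrivial E]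
    (hnd : ∀ u : E, ‖u‖ = 1 → ∀ σ : ℝ, 0 < σ → ∃ x : E, ‖x‖ = 1 ∧ ‖x - u‖ < σ ∧ ¬ Dent x)
    {A Z V : Set E} (h : St A Z) (hV : IsOpen V) {y z0 : E} (hy : y ∈ V)
    (hz1 : z0 ∈ ball y (infDist y A)) (hz2 : z0 ∉ closure Z) : Out A Z V := by
  obtain ⟨z, hz3, hz4, hz5⟩ := (dense_compl_singleton y).exists_mem_open
    (isOpen_ball.inter isClosed_closure.isOpen_compl) ⟨z0, hz1, hz2⟩
  have hyz : y ≠ z := fun h1 => hz3 h1.symm
  rw [mem_ball, dist_comm, dist_eq_norm] at hz4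
  obtain ⟨r, hr, hrZ⟩ := Metric.isOpen_iff.mp isClosed_closure.isOpen_compl z hz5
  obtain ⟨r', hr', hrV⟩ := Metric.isOpen_iff.mp hV y hy
  set ρ : ℝ := min (r / 2) ((infDist y A - ‖y - z‖) / 3) with hρ
  have hρ0 : 0 < ρ := lt_min (by positivity) (by linarith)
  have hρ1 : ρ ≤ r / 2 := min_le_left _ _
  have hρ2 : ρ ≤ (infDist y A - ‖y - z‖) / 3 := min_le_right _ _
  obtain ⟨Γ, s, hs, hΓ1, hΓ2, hΓ3, hΓ4, hΓ5⟩ := gadget hnd hyz hρ0
  have hd : Disjoint Γ (closure Z) := Set.disjoint_left.mpr fun g hg =>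
    hrZ (closedBall_subset_ball (by linarith) (hΓ1 hg))
  set s' : ℝ := min s (min r' (ρ / 2)) with hs'
  have hs0 : 0 < s' := lt_min hs (lt_min hr' (by positivity))
  have hs1 : ball y s' ⊆ ball y s := ball_subset_ball (min_le_left _ _)
  have hs2 : ball y s' ⊆ V :=
    (ball_subset_ball ((min_le_right _ _).trans (min_le_left _ _))).trans hrV
  have hs3 : s' ≤ ρ / 2 := (min_le_right _ _).trans (min_le_right _ _)
  have hle : ∀ x, infDist x (A ∪ Γ) ≤ infDist x Γ := fun x =>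
    infDist_le_infDist_of_subset subset_union_right hΓ4
  have hold : ∀ g ∈ A, ∀ x ∈ ball y s', infDist x Γ + ρ ≤ ‖x - g‖ := by
    intro g hg x hx
    obtain ⟨w, hw⟩ := hΓ4
    have h1 : infDist x Γ ≤ dist x w := infDist_le_dist_of_mem hw
    have h2 := hΓ1 hw
    have h3 : infDist y A ≤ dist y g := infDist_le_dist_of_mem hg
    rw [mem_closedBall] at h2
    rw [mem_ball] at hx
    rw [← dist_eq_norm] at hρ2 ⊢
    have h4 := dist_triangle4 x y z w
    rw [dist_comm z w] at h4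
    linarith [dist_triangle_left y g x]
  have hgap : ∀ g ∈ A, Gap (A ∪ Γ) (ball y s') g := fun g hg =>
    ⟨ρ, hρ0, fun x hx => by linarith [hle x, hold g hg x hx]⟩
  rcases hΓ5 with hΓ5 | ⟨f, c, hf, H⟩
  · refine out_of_gap (h.add_set hΓ2 hΓ3 hd) subset_union_left isOpen_ball
      ⟨y, mem_ball_self hs0⟩ hs2 ?_
    rintro g (hg | hg)
    · exact hgap g hg
    · obtain ⟨γ, hγ, H⟩ := hΓ5 g hg
      exact ⟨γ, hγ, fun x hx => by linarith [hle x, H x (hs1 hx)]⟩
  · have hf' := hf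
    obtain ⟨p, t, a, b, hf1, -, -, -, -, -, -, -, hD⟩ := hf'
    have hlev : ∀ g ∈ Γ, ∀ x, f x - c ≤ ‖x - g‖ := by
      intro g hg x
      rw [hD] at hg
      have h1 := apply_le_norm hf1 (x - g)
      have h2 : f g = c := hg.1
      rwa [map_sub, h2] at h1
    refine ⟨A ∪ Γ, Z ∪ zone1 (A ∪ Γ) (ball y s'), ball y s', h.add_facet hΓ2 hΓ3 hd hf
      (isOpen_zone1 _ _) (fun g hg => far_zone1 (hgap g hg))
      ((disjoint_zone1 _ _).mono_left subset_union_right) ?_, subset_union_left,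
      subset_union_left, isOpen_ball, ⟨y, mem_ball_self hs0⟩, hs2,
      (kill_zone1 fun x hx => ?_).mono subset_union_right⟩
    · intro w hw
      simp only [zone1, mem_iUnion, exists_prop] at hw
      obtain ⟨x, hx, hw⟩ := hw
      obtain ⟨-, g, hg1, hg2⟩ := H x (hs1 hx)
      have h1 : infDist x Γ ≤ dist x g := infDist_le_dist_of_mem hg1
      rw [mem_ball, dist_comm, dist_eq_norm] at hw
      rw [dist_eq_norm] at h1
      have h2 := apply_le_norm hf1 (x - w)
      rw [map_sub] at h2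
      linarith [hle x]
    · obtain ⟨g1, h1, g2, h2, h3, h4, h5⟩ := alpha hf isOpen_ball H (hs1 hx)
      have h6 : f x - c ≤ infDist x Γ := by
        rw [le_infDist hΓ4]
        intro g hg
        rw [dist_eq_norm]
        exact hlev g hg x
      have h7 : f x - c ≤ infDist x (A ∪ Γ) := by
        rw [le_infDist (hΓ4.mono subset_union_right)]
        rintro g (hg | hg)
        · rw [dist_eq_norm]
          linarith [hold g hg x hx]
        · rw [dist_eq_norm]
          exact hlev g hg x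
      exact ⟨g1, Or.inr h1, g2, Or.inr h2, h3, h4.trans h7, h5.trans h7⟩

theorem gap_of_noroom {A Z V : Set E} (hpos : ∀ y ∈ V, 0 < infDist y A)
    (hN : ∀ y ∈ V, ball y (infDist y A) ⊆ closure Z) {g : E} (hg : g ∉ closure Z) :
    Gap A V g := by
  obtain ⟨r, hr, hrZ⟩ := Metric.isOpen_iff.mp isClosed_closure.isOpen_compl g hg
  refine ⟨r / 2, by positivity, fun y hy => ?_⟩
  by_contra hc
  push Not at hc
  by_cases h1 : ‖y - g‖ < r
  · exact hrZ (by rwa [mem_ball, dist_eq_norm]) (hN y hy (mem_ball_self (hpos y hy)))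
  · push Not at h1
    have h2 : 0 < ‖y - g‖ := by linarith
    set θ : ℝ := 3 * r / 4 / ‖y - g‖ with hθ
    have hθ0 : 0 < θ := by positivity
    have hθ1 : θ * ‖y - g‖ = 3 * r / 4 := div_mul_cancel₀ _ h2.ne'
    have hθ2 : θ ≤ 1 := by
      rw [hθ, div_le_one h2]
      linarith
    refine hrZ (a := g + θ • (y - g)) ?_ (hN y hy ?_)
    · rw [mem_ball, dist_eq_norm, add_sub_cancel_left, norm_smul, Real.norm_eq_abs,
        abs_of_pos hθ0]
      linarith
    · have h3 : y - (g + θ • (y - g)) = (1 - θ) • (y - g) := by module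
      rw [mem_ball, dist_comm, dist_eq_norm, h3, norm_smul, Real.norm_eq_abs,
        abs_of_nonneg (by linarith)]
      linarith

omit [NormedSpace ℝ E] in
theorem exists_margin {A V : Set E} (hV : IsOpen V) (hne : V.Nonempty) {FF : Set (Set E)}
    (hF : FF.Finite) (h : ∀ D ∈ FF, ∀ U : Set E, IsOpen U → U.Nonempty → U ⊆ V →
      ∃ y ∈ U, infDist y A < infDist y D) :
    ∃ (U : Set E) (η : ℝ), IsOpen U ∧ U.Nonempty ∧ U ⊆ V ∧ 0 < η ∧
      ∀ D ∈ FF, ∀ y ∈ U, infDist y A + η ≤ infDist y D := by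
  induction FF, hF using Set.Finite.induction_on with
  | empty => exact ⟨V, 1, hV, hne, subset_rfl, one_pos, fun D hD => hD.elim⟩
  | @insert D FF _ _ ih =>
    obtain ⟨U, η, h1, h2, h3, h4, h5⟩ := ih fun D' hD' => h D' (mem_insert_of_mem _ hD')
    obtain ⟨y, hy1, hy2⟩ := h D (mem_insert _ _) U h1 h2 h3
    set η' := (infDist y D - infDist y A) / 2 with hη'
    have hη0 : 0 < η' := by linarith
    refine ⟨U ∩ {x | infDist x A + η' < infDist x D}, min η η',
      h1.inter (isOpen_lt ((continuous_infDist_pt A).add continuous_const)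
        (continuous_infDist_pt D)), ⟨y, hy1, ?_⟩, inter_subset_left.trans h3, lt_min h4 hη0, ?_⟩
    · change infDist y A + η' < infDist y D
      linarith
    · rintro D' (rfl | hD') x hx
      · have h6 : infDist x A + η' < infDist x D' := hx.2
        linarith [min_le_right η η']
      · linarith [min_le_left η η', h5 D' hD' x hx.1]

theorem step_noroom (hr : Function.Surjective (J E)) {A Z V : Set E} (h : St A Z)
    (hV : IsOpen V) (hne : V.Nonempty) (hpos : ∀ y ∈ V, 0 < infDist y A)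
    (hN : ∀ y ∈ V, ball y (infDist y A) ⊆ closure Z) : Out A Z V := by
  have h' := h
  obtain ⟨-, -, -, -, -, FF, h6, h7, h8⟩ := h'
  by_cases hc : ∀ D ∈ FF, ∀ U : Set E, IsOpen U → U.Nonempty → U ⊆ V →
      ∃ y ∈ U, infDist y A < infDist y D
  · obtain ⟨U, η, h1, h2, h3, h4, h5⟩ := exists_margin hV hne h6 hc
    refine out_of_gap h subset_rfl h1 h2 h3 fun g hg => ?_
    by_cases hz : g ∈ closure Z
    · obtain ⟨D, hD, hgD⟩ := h7 ⟨hg, hz⟩
      refine ⟨η, h4, fun y hy => (h5 D hD y hy).trans ?_⟩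
      rw [← dist_eq_norm]
      exact infDist_le_dist_of_mem hgD
    · exact gap_of_noroom (fun y hy => hpos y (h3 hy)) (fun y hy => hN y (h3 hy)) hz
  · push Not at hc
    obtain ⟨D, hD, U, h1, h2, h3, h4⟩ := hc
    obtain ⟨hDA, f, c, hf, H⟩ := h8 D hD
    have hf' := hf
    obtain ⟨p, t, a, b, hf1, hp, ht, -, ha, -, hfa, -, hDe⟩ := hf'
    have key : ∀ y ∈ U, f y - c = infDist y A ∧ ∃ g ∈ D, ‖y - g‖ ≤ infDist y A := by
      intro y hy
      obtain ⟨g, hg1, hg2⟩ := proximinal hr (G := D) (hDe ▸ isClosed_disc _ _ _ _)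
        (hDe ▸ convex_disc _ _ _ _) ⟨p, hDe ▸ ⟨hp, mem_closedBall_self ht.le⟩⟩ y
      rw [dist_eq_norm] at hg2
      have hg3 : ‖y - g‖ ≤ infDist y A := hg2 ▸ h4 y hy
      have hg4 : f g = c := by
        rw [hDe] at hg1
        exact hg1.1
      set d := infDist y A with hd
      have hd0 : 0 < d := hpos y (h3 hy)
      obtain ⟨r, hr0, Hr⟩ := H g hg1
      refine ⟨le_antisymm ?_ ?_, g, hg1, hg3⟩
      · have h9 := apply_le_norm hf1 (y - g)
        rw [map_sub, hg4] at h9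
        linarith
      · by_contra hlt
        push Not at hlt
        set s : ℝ := (max (f y - c) 0 + d) / 2 with hs
        have hs1 : max (f y - c) 0 < d := max_lt hlt hd0
        have hs2 : f y - c < s := by linarith [le_max_left (f y - c) 0]
        have hs3 : 0 < s := by linarith [le_max_right (f y - c) 0]
        have hs4 : s < d := by linarith
        set v : E := y - s • a - g with hv
        set θ : ℝ := min 1 (r / (‖v‖ + 1)) with hθ
        have hθ0 : 0 < θ := lt_min one_pos (by positivity)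
        have hθ1 : θ ≤ 1 := min_le_left _ _
        have hθ2 : θ * (‖v‖ + 1) ≤ r := by
          have h9 : θ ≤ r / (‖v‖ + 1) := min_le_right _ _
          rwa [le_div_iff₀ (by positivity)] at h9
        have h9 := Hr (g + θ • v) (by
          rw [mem_ball, dist_eq_norm, add_sub_cancel_left, norm_smul, Real.norm_eq_abs,
            abs_of_pos hθ0]
          linarith) (hN y (h3 hy) (by
          have h10 : y - (g + θ • v) = (1 - θ) • (y - g) + (θ * s) • a := by rw [hv]; module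
          have h11 := norm_add_le ((1 - θ) • (y - g)) ((θ * s) • a)
          rw [norm_smul, norm_smul, Real.norm_eq_abs, Real.norm_eq_abs,
            abs_of_nonneg (by linarith), abs_of_pos (by positivity)] at h11
          have h12 := mul_le_mul_of_nonneg_left hg3 (by linarith : 0 ≤ 1 - θ)
          have h13 := mul_le_mul_of_nonneg_left ha (by positivity : 0 ≤ θ * s)
          have h14 := mul_lt_mul_of_pos_left hs4 hθ0
          rw [mem_ball, dist_comm, dist_eq_norm, h10]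
          linarith))
        simp only [hv, map_add, map_smul, map_sub, hg4, hfa, smul_eq_mul] at h9
        have h10 := mul_lt_mul_of_pos_left hs2 hθ0
        linarith
    refine ⟨A, Z ∪ zone1 A U, U, h.add_inner (isOpen_zone1 _ _) (disjoint_zone1 _ _) ?_,
      subset_rfl, subset_union_left, h1, h2, h3,
      (kill_zone1 fun y hy => ?_).mono subset_union_right⟩
    · exact iUnion₂_subset fun y hy => hN y (h3 hy)
    · obtain ⟨g1, e1, g2, e2, e3, e4, e5⟩ := alpha hf h1 (fun x hx => by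
        obtain ⟨e1, g, e2, e3⟩ := key x hx
        exact ⟨by linarith [hpos x (h3 hx)], g, e2, by linarith⟩) hy
      rw [(key y hy).1] at e4 e5
      exact ⟨g1, hDA e1, g2, hDA e2, e3, e4, e5⟩

theorem step [CompleteSpace E] [Nontrivial E] (hr : Function.Surjective (J E))
    (hnd : ∀ u : E, ‖u‖ = 1 → ∀ σ : ℝ, 0 < σ → ∃ x : E, ‖x‖ = 1 ∧ ‖x - u‖ < σ ∧ ¬ Dent x)
    {A Z V : Set E} (h : St A Z) (hV : IsOpen V) (hne : V.Nonempty) : Out A Z V := by
  have hd : Dense Aᶜ := interior_eq_empty_iff_dense_compl.mp h.2.2.1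
  have hV' : IsOpen (V ∩ Aᶜ) := hV.inter h.1.isOpen_compl
  have key : Out A Z (V ∩ Aᶜ) := by
    by_cases hN : ∀ y ∈ V ∩ Aᶜ, ball y (infDist y A) ⊆ closure Z
    · exact step_noroom hr h hV' (hd.inter_open_nonempty V hV hne)
        (fun y hy => (h.1.notMem_iff_infDist_pos h.2.1).mp hy.2) hN
    · push Not at hN
      obtain ⟨y, hy, hN⟩ := hN
      obtain ⟨z, hz1, hz2⟩ := not_subset.mp hN
      exact step_room hnd h hV' hy hz1 hz2
  obtain ⟨A', Z', U, h1, h2, h3, h4, h5, h6, h7⟩ := key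
  exact ⟨A', Z', U, h1, h2, h3, h4, h5, h6.trans inter_subset_left, h7⟩

theorem st_start [Nontrivial E] : St ({0} : Set E) (closedBall 0 1)ᶜ := by
  refine ⟨isClosed_singleton, singleton_nonempty _, interior_singleton _,
    isClosed_closedBall.isOpen_compl, ?_, ∅, finite_empty, ?_, fun D hD => hD.elim⟩
  · simp
  · rintro g ⟨rfl, hz⟩
    rw [closure_compl, interior_closedBall _ one_ne_zero] at hz
    exact (hz (mem_ball_self one_pos)).elim

/-- In a reflexive separable space in which the non-denting unit vectors are dense in the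
sphere, some bounded closed set has a nowhere dense set of points of unique nearest point. -/
theorem exists_bad [CompleteSpace E] [Nontrivial E] [SeparableSpace E]
    (hr : Function.Surjective (J E))
    (hnd : ∀ u : E, ‖u‖ = 1 → ∀ σ : ℝ, 0 < σ → ∃ x : E, ‖x‖ = 1 ∧ ‖x - u‖ < σ ∧ ¬ Dent x) :
    ∃ G : Set E, IsClosed G ∧ G.Nonempty ∧ Bornology.IsBounded G ∧
      IsNowhereDense {x | ∃! y : E, y ∈ G ∧ dist x y = infDist x G} := by
  obtain ⟨x, hx⟩ := exists_dense_seq E
  obtain ⟨e, he⟩ := exists_surjective_nat (ℕ × ℕ)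
  let V : ℕ → Set E := fun n => ball (x (e n).1) (1 / (((e n).2 : ℝ) + 1))
  have hstep : ∀ (n : ℕ) (s : {p : Set E × Set E // St p.1 p.2}),
      ∃ s' : {p : Set E × Set E // St p.1 p.2}, s.1.1 ⊆ s'.1.1 ∧ s.1.2 ⊆ s'.1.2 ∧
        ∃ U : Set E, IsOpen U ∧ U.Nonempty ∧ U ⊆ V n ∧ Kill s'.1.1 s'.1.2 U := by
    intro n s
    obtain ⟨A', Z', U, h1, h2, h3, h4⟩ := step hr hnd (V := V n) s.2 isOpen_ball
      ⟨_, mem_ball_self (by positivity)⟩
    exact ⟨⟨(A', Z'), h1⟩, h2, h3, U, h4⟩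
  choose nx hn1 hn2 hn3 using hstep
  let s : ℕ → {p : Set E × Set E // St p.1 p.2} := fun n =>
    Nat.rec ⟨({0}, (closedBall 0 1)ᶜ), st_start⟩ (fun k t => nx k t) n
  have hs : ∀ n, s (n + 1) = nx n (s n) := fun n => rfl
  have hA : Monotone fun n => (s n).1.1 := monotone_nat_of_le_succ fun n => hn1 n (s n)
  have hZ : Monotone fun n => (s n).1.2 := monotone_nat_of_le_succ fun n => hn2 n (s n)
  have hsub : ∀ n, (s n).1.1 ⊆ closure (⋃ m, (s m).1.1) := fun n =>
    (subset_iUnion (fun m => (s m).1.1) n).trans subset_closure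
  have hdis : ∀ n, Disjoint (closure (⋃ m, (s m).1.1)) (s n).1.2 := by
    intro n
    refine Disjoint.closure_left ?_ (s n).2.2.2.2.1
    rw [disjoint_iUnion_left]
    intro m
    exact (s (max m n)).2.2.2.2.2.1.mono (hA (le_max_left m n)) (hZ (le_max_right m n))
  refine ⟨closure (⋃ m, (s m).1.1), isClosed_closure, (s 0).2.2.1.mono (hsub 0), ?_, ?_⟩
  · exact isBounded_closedBall.subset (Set.disjoint_compl_right_iff_subset.mp (hdis 0))
  · rw [IsNowhereDense, eq_empty_iff_forall_notMem]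
    intro w hw
    obtain ⟨r, hr0, hrw⟩ := Metric.isOpen_iff.mp isOpen_interior w hw
    obtain ⟨j, hj⟩ := exists_nat_one_div_lt (half_pos hr0)
    obtain ⟨i, hi⟩ := Metric.denseRange_iff.mp hx w (r / 2) (half_pos hr0)
    obtain ⟨n, hn⟩ := he (i, j)
    obtain ⟨U, h1, ⟨y, hy⟩, h3, h4⟩ := hn3 n (s n)
    have h5 : y ∈ ball w r := by
      have h6 := h3 hy
      simp only [V, hn, mem_ball] at h6
      rw [mem_ball]
      linarith [dist_triangle_right y w (x i)]
    obtain ⟨v, hv1, hv2⟩ := mem_closure_iff.mp (interior_subset (hrw h5)) U h1 hy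
    exact h4 _ (hsub (n + 1)) (hdis (n + 1)) v hv1 hv2

end Pool.Agent.MP917bd5.K
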