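import Pool.Agent.P.MP_917bd5_an.BdH

set_option autoImplicit false

namespace Pool.Agent.MP917bd5.Nl

open Metric Filter Topology Set

/-- Ekeland on the unit sphere followed by a Hahn-Banach sandwich. -/
theorem core {D : Type} [NormedAddCommGroup D] [NormedSpace ℝ D] [CompleteSpace D] (N : D → ℝ)
    (hadd : ∀ a b, N (a + b) ≤ N a + N b) (hsm : ∀ (c : ℝ) (a : D), 0 ≤ c → N (c • a) = c * N a)
    (K : ℝ) (hK : ∀ a, N a ≤ K * ‖a‖) (f0 : D) (hf0 : ‖f0‖ = 1) (hneg : N f0 < 0)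
    (ε : ℝ) (hε : 0 < ε) :
    ∃ f : D, ‖f‖ = 1 ∧ N f ≤ N f0 ∧ ∃ L : D →L[ℝ] ℝ,
      (∀ ψ, L ψ ≤ N ψ + ε * ‖ψ‖) ∧ ‖L‖ ≤ -N f ∧ L f = N f := by
  have hN0 : N 0 = 0 := by simpa using hsm 0 0 le_rfl
  have hlip : ∀ a b, N a - N b ≤ K * ‖a - b‖ := fun a b => by
    have h1 := hadd (a - b) b
    rw [sub_add_cancel] at h1
    linarith [hK (a - b)]
  have hK0 : 0 ≤ K := by
    have h1 := hlip f0 0
    have h2 := hlip 0 f0
    simp only [sub_zero, zero_sub, norm_neg, hf0, hN0] at h1 h2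
    linarith
  have hc : Continuous N := by
    refine (LipschitzWith.of_dist_le_mul (K := ⟨K, hK0⟩) fun a b => ?_).continuous
    rw [Real.dist_eq, dist_eq_norm, abs_le]
    have h1 := hlip a b
    have h2 := hlip b a
    rw [norm_sub_rev] at h2
    constructor
    · change -(K * ‖a - b‖) ≤ _
      linarith
    · exact h1
  have : CompleteSpace (sphere (0 : D) 1) := (isClosed_sphere).completeSpace_coe
  obtain ⟨F, hF1, hF2⟩ := ekeland (X := sphere (0 : D) 1) (fun x => N x + K)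
    ((hc.comp continuous_subtype_val).add continuous_const) (fun x => by
      have h1 := hlip 0 x
      have h2 : ‖(x : D)‖ = 1 := by simp
      simp only [zero_sub, norm_neg, h2, hN0] at h1
      linarith) (ε / 2) (by positivity) ⟨f0, by simpa using hf0⟩
  set f : D := F.1 with hf
  have hfn : ‖f‖ = 1 := by simp [hf]
  have hle : N f ≤ N f0 := by
    have : 0 ≤ ε / 2 * dist F ⟨f0, by simpa using hf0⟩ := by positivity
    simp only at hF1
    linarith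
  set s : ℝ := -N f with hs
  have hs0 : 0 < s := by linarith
  have key : ∀ (ψ : D) (a : ℝ), 0 ≤ a → 0 ≤ N ψ + s * ‖ψ‖ + ε * ‖ψ - a • f‖ := by
    intro ψ a ha
    rcases eq_or_ne ψ 0 with rfl | hψ
    · rw [hN0]; positivity
    have hb : 0 < ‖ψ‖ := norm_pos_iff.mpr hψ
    have hu : ‖‖ψ‖⁻¹ • ψ‖ = 1 := by
      rw [norm_smul, norm_inv, norm_norm, inv_mul_cancel₀ hb.ne']
    have h1 := hF2 ⟨‖ψ‖⁻¹ • ψ, by simpa using hu⟩
    have h2 : dist (⟨‖ψ‖⁻¹ • ψ, by simpa using hu⟩ : sphere (0 : D) 1) F = ‖‖ψ‖⁻¹ • ψ - f‖ := by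
      rw [Subtype.dist_eq, dist_eq_norm]
    rw [h2] at h1
    simp only at h1
    have h3 : N ψ = ‖ψ‖ * N (‖ψ‖⁻¹ • ψ) := by
      rw [← hsm _ _ hb.le, smul_smul, mul_inv_cancel₀ hb.ne', one_smul]
    have h4 : ‖ψ‖ * ‖‖ψ‖⁻¹ • ψ - f‖ = ‖ψ - ‖ψ‖ • f‖ := by
      rw [← norm_smul_of_nonneg hb.le, smul_sub, smul_smul, mul_inv_cancel₀ hb.ne', one_smul]
    have h5 : ‖ψ - ‖ψ‖ • f‖ ≤ 2 * ‖ψ - a • f‖ := by
      have h6 : ψ - ‖ψ‖ • f = (ψ - a • f) + (a - ‖ψ‖) • f := by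
        rw [sub_smul]; abel
      have h7 : ‖(a - ‖ψ‖) • f‖ ≤ ‖ψ - a • f‖ := by
        rw [norm_smul, hfn, mul_one, Real.norm_eq_abs, abs_sub_comm]
        have h8 := abs_norm_sub_norm_le ψ (a • f)
        rwa [norm_smul_of_nonneg ha, hfn, mul_one] at h8
      rw [h6]
      linarith [norm_add_le (ψ - a • f) ((a - ‖ψ‖) • f)]
    have h9 : 0 ≤ ‖ψ‖ * (N (‖ψ‖⁻¹ • ψ) + s + ε / 2 * ‖‖ψ‖⁻¹ • ψ - f‖) :=
      mul_nonneg hb.le (by linarith)
    have h10 : ‖ψ‖ * (N (‖ψ‖⁻¹ • ψ) + s + ε / 2 * ‖‖ψ‖⁻¹ • ψ - f‖)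
        = N ψ + s * ‖ψ‖ + ε / 2 * ‖ψ - ‖ψ‖ • f‖ := by
      rw [← h4]
      conv_rhs => rw [h3]
      ring
    have h11 := mul_le_mul_of_nonneg_left h5 (by positivity : 0 ≤ ε / 2)
    linarith
  let O : Set (D × ℝ) := {z | z.2 + s * ‖z.1‖ < 0}
  let C : Set (D × ℝ) := {z | ∃ a : ℝ, 0 ≤ a ∧ N z.1 + ε * ‖z.1 - a • f‖ ≤ z.2}
  have hO : Convex ℝ O := by
    intro z hz w hw α β hα hβ hαβ
    simp only [O, mem_ofPred_eq, Prod.snd_add, Prod.fst_add, Prod.smul_snd, Prod.smul_fst,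
      smul_eq_mul] at hz hw ⊢
    have h1 := norm_add_le (α • z.1) (β • w.1)
    rw [norm_smul_of_nonneg hα, norm_smul_of_nonneg hβ] at h1
    have h2 := mul_le_mul_of_nonneg_left h1 hs0.le
    rcases hα.eq_or_lt with rfl | hα'
    · have : β = 1 := by linarith
      subst this
      nlinarith
    · nlinarith [mul_pos hα' (neg_pos.mpr hz), mul_nonneg hβ (neg_pos.mpr hw).le]
  have hOo : IsOpen O := isOpen_lt (by fun_prop) continuous_const
  have hC : Convex ℝ C := by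
    rintro z ⟨a, ha, hz⟩ w ⟨b, hb, hw⟩ α β hα hβ hαβ
    refine ⟨α * a + β * b, by positivity, ?_⟩
    simp only [Prod.snd_add, Prod.fst_add, Prod.smul_snd, Prod.smul_fst, smul_eq_mul]
    have h1 := hadd (α • z.1) (β • w.1)
    rw [hsm _ _ hα, hsm _ _ hβ] at h1
    have h2 : α • z.1 + β • w.1 - (α * a + β * b) • f = α • (z.1 - a • f) + β • (w.1 - b • f) := by
      rw [add_smul, smul_sub, smul_sub, smul_smul, smul_smul]; abel
    have h3 := norm_add_le (α • (z.1 - a • f)) (β • (w.1 - b • f))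
    rw [norm_smul_of_nonneg hα, norm_smul_of_nonneg hβ, ← h2] at h3
    have h4 := mul_le_mul_of_nonneg_left h3 hε.le
    have h5 := mul_le_mul_of_nonneg_left hz hα
    have h6 := mul_le_mul_of_nonneg_left hw hβ
    nlinarith
  have hdis : Disjoint O C := by
    rw [Set.disjoint_left]
    rintro z hz ⟨a, ha, hz'⟩
    have := key z.1 a ha
    simp only [O, mem_ofPred_eq] at hz
    linarith
  obtain ⟨Λ, u, hΛ1, hΛ2⟩ := geometric_hahn_banach_open hO hOo hC hdis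
  set β : ℝ := Λ (0, 1) with hβ
  let ℓ : D →L[ℝ] ℝ := Λ.comp (ContinuousLinearMap.inl ℝ D ℝ)
  have hΛ : ∀ (ψ : D) (t : ℝ), Λ (ψ, t) = ℓ ψ + t * β := by
    intro ψ t
    have : (ψ, t) = (ψ, (0 : ℝ)) + t • ((0 : D), (1 : ℝ)) := by simp
    rw [this, map_add, map_smul]
    rfl
  have hu0 : u ≤ 0 := by
    have := hΛ2 (0, 0) ⟨0, le_rfl, by simp [hN0]⟩
    rwa [hΛ, map_zero, zero_mul, add_zero] at this
  have hβ0 : 0 < β := by
    have := hΛ1 (0, -1) (by simp [O])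
    rw [hΛ, map_zero] at this
    linarith
  have hu1 : 0 ≤ u := by
    by_contra hcon
    push Not at hcon
    have := hΛ1 (0, u / β) (by
      simp only [O, mem_ofPred_eq, norm_zero, mul_zero, add_zero]
      exact div_neg_of_neg_of_pos hcon hβ0)
    rw [hΛ, map_zero, zero_add, div_mul_cancel₀ _ hβ0.ne'] at this
    exact lt_irrefl _ this
  have hA : ∀ (ψ : D) (a : ℝ), 0 ≤ a → (-β⁻¹ • ℓ) ψ ≤ N ψ + ε * ‖ψ - a • f‖ := by
    intro ψ a ha
    have h1 := hΛ2 (ψ, N ψ + ε * ‖ψ - a • f‖) ⟨a, ha, le_rfl⟩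
    rw [hΛ] at h1
    simp only [smul_apply, smul_eq_mul]
    have h2 : -β⁻¹ * ℓ ψ = -ℓ ψ / β := by field_simp
    rw [h2, div_le_iff₀ hβ0]
    linarith
  have hB : ∀ ψ : D, -(s * ‖ψ‖) ≤ (-β⁻¹ • ℓ) ψ := by
    intro ψ
    simp only [smul_apply, smul_eq_mul]
    have h2 : -β⁻¹ * ℓ ψ = -ℓ ψ / β := by field_simp
    rw [h2, le_div_iff₀ hβ0]
    apply le_of_forall_pos_le_add
    intro τ hτ
    have h1 := hΛ1 (ψ, -(s * ‖ψ‖) - τ / β) (by
      simp only [O, mem_ofPred_eq]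
      have : 0 < τ / β := by positivity
      linarith)
    rw [hΛ, sub_mul, div_mul_cancel₀ _ hβ0.ne'] at h1
    linarith
  refine ⟨f, hfn, hle, -β⁻¹ • ℓ, fun ψ => by simpa using hA ψ 0 le_rfl, ?_, ?_⟩
  · refine ContinuousLinearMap.opNorm_le_bound _ hs0.le fun ψ => ?_
    rw [Real.norm_eq_abs, abs_le]
    refine ⟨hB ψ, ?_⟩
    have := hB (-ψ)
    rw [map_neg, norm_neg] at this
    linarith
  · have h1 := hA f 1 zero_le_one
    have h2 := hB f
    rw [one_smul, sub_self, norm_zero, mul_zero, add_zero] at h1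
    rw [hfn, mul_one] at h2
    linarith

theorem add_smul_mem_ball {Y : Type} [NormedAddCommGroup Y] [NormedSpace ℝ Y] (z w : Y) {r : ℝ}
    (hr : 0 ≤ r) (hw : ‖w‖ ≤ 1) : z + r • w ∈ closedBall z r := by
  rw [mem_closedBall, dist_eq_norm, add_sub_cancel_left, norm_smul_of_nonneg hr]
  nlinarith

variable {E : Type} [NormedAddCommGroup E] [NormedSpace ℝ E]

theorem ball_le {G : Set E} {z : StrongDual ℝ (StrongDual ℝ E)} {r : ℝ} (hr : 0 ≤ r)
    (h : closedBall z r ⊆ hat G) (ψ : StrongDual ℝ E) (a : ℝ) (ha : ∀ x ∈ G, ψ x ≤ a) :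
    z ψ + r * ‖ψ‖ ≤ a := by
  obtain ⟨w, hw1, hw2⟩ := exists_dual_vector'' ℝ ψ
  have h1 : z + r • w ∈ closedBall z r := add_smul_mem_ball z w hr hw1
  have h2 := h h1 ψ a ha
  simp only [add_apply, smul_apply, smul_eq_mul] at h2
  rw [hw2] at h2
  simpa using h2

/-- Support function. -/
noncomputable def sig (A : Set E) (ψ : StrongDual ℝ E) : ℝ := sSup (ψ '' A)

theorem le_sig {A : Set E} {R : ℝ} (hA : A ⊆ closedBall 0 R) (ψ : StrongDual ℝ E) {x : E}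
    (hx : x ∈ A) : ψ x ≤ sig A ψ := by
  refine le_csSup ⟨‖ψ‖ * R, ?_⟩ (mem_image_of_mem _ hx)
  rintro _ ⟨y, hy, rfl⟩
  have h2 : ‖y‖ ≤ R := by simpa using hA hy
  exact (apply_le_norm_mul ψ y).trans (mul_le_mul_of_nonneg_left h2 (norm_nonneg _))

theorem sig_le {A : Set E} (hne : A.Nonempty) (ψ : StrongDual ℝ E) (a : ℝ)
    (h : ∀ x ∈ A, ψ x ≤ a) : sig A ψ ≤ a := by
  refine csSup_le (hne.image _) ?_
  rintro _ ⟨y, hy, rfl⟩
  exact h y hy

theorem sig_add {A : Set E} {R : ℝ} (hA : A ⊆ closedBall 0 R) (hne : A.Nonempty)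
    (φ ψ : StrongDual ℝ E) : sig A (φ + ψ) ≤ sig A φ + sig A ψ :=
  sig_le hne _ _ fun x hx => by
    rw [add_apply]
    exact add_le_add (le_sig hA φ hx) (le_sig hA ψ hx)

theorem sig_smul {A : Set E} {R : ℝ} (hA : A ⊆ closedBall 0 R) (hne : A.Nonempty)
    (c : ℝ) (ψ : StrongDual ℝ E) (hc : 0 ≤ c) : sig A (c • ψ) = c * sig A ψ := by
  have h1 : sig A (c • ψ) ≤ c * sig A ψ := sig_le hne _ _ fun x hx => by
    rw [smul_apply, smul_eq_mul]
    exact mul_le_mul_of_nonneg_left (le_sig hA ψ hx) hc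
  refine le_antisymm h1 ?_
  rcases hc.eq_or_lt with rfl | hc'
  · obtain ⟨x, hx⟩ := hne
    simpa using le_sig hA ((0 : ℝ) • ψ) hx
  · rw [← le_div_iff₀' hc']
    refine sig_le hne _ _ fun x hx => ?_
    rw [le_div_iff₀' hc']
    simpa using le_sig hA (c • ψ) hx

theorem sig_le_norm {A : Set E} {R : ℝ} (hA : A ⊆ closedBall 0 R) (hne : A.Nonempty)
    (ψ : StrongDual ℝ E) : sig A ψ ≤ R * ‖ψ‖ :=
  sig_le hne _ _ fun x hx => by
    have h2 : ‖x‖ ≤ R := by simpa using hA hx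
    have := (apply_le_norm_mul ψ x).trans (mul_le_mul_of_nonneg_left h2 (norm_nonneg _))
    linarith

end Pool.Agent.MP917bd5.Nl
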