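import Pool.Agent.P.MP_917bd5_an.NlA

set_option autoImplicit false

namespace Pool.Agent.MP917bd5.Nl

open Metric Filter Topology Set

variable {E : Type} [NormedAddCommGroup E] [NormedSpace ℝ E]

/-- The weights `1 / (n + 1)`. -/
noncomputable def wt (n : ℕ) : ℝ := 1 / ((n : ℝ) + 1)

theorem wt_pos (n : ℕ) : 0 < wt n := by unfold wt; positivity

theorem wt_le_one (n : ℕ) : wt n ≤ 1 := by
  unfold wt
  rw [div_le_one (by positivity)]
  linarith [(Nat.cast_nonneg n : (0 : ℝ) ≤ n)]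

theorem wt_anti {m n : ℕ} (h : m ≤ n) : wt n ≤ wt m := by
  unfold wt
  have : (m : ℝ) ≤ n := by exact_mod_cast h
  exact one_div_le_one_div_of_le (by positivity) (by linarith)

theorem wt_lim : Tendsto wt atTop (𝓝 0) := tendsto_one_div_add_atTop_nhds_zero_nat

theorem exists_wt (m δ : ℝ) (hδ : 0 < δ) : ∃ N, wt N * m ≤ δ := by
  have h : Tendsto (fun n => wt n * m) atTop (𝓝 0) := by simpa using wt_lim.mul_const m
  obtain ⟨N, hN⟩ := (h.eventually (gt_mem_nhds hδ)).exists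
  exact ⟨N, hN.le⟩

/-- A functional attaining its maximum on `G` stays uniformly below it on `A`. -/
def Inv (A G : Set E) : Prop :=
  ∀ φ : StrongDual ℝ E, φ ≠ 0 → ∀ x ∈ G, (∀ y ∈ G, φ y ≤ φ x) → ∃ b, b < φ x ∧ ∀ a ∈ A, φ a ≤ b

/-- The bidual ball of centre `z` and radius `r` is dominated by `G`. -/
def Big (z : StrongDual ℝ (StrongDual ℝ E)) (r : ℝ) (G : Set E) : Prop :=
  ∀ (ψ : StrongDual ℝ E) (a : ℝ), (∀ x ∈ G, ψ x ≤ a) → z ψ + r * ‖ψ‖ ≤ a

theorem Big.mono {z : StrongDual ℝ (StrongDual ℝ E)} {r : ℝ} {G H : Set E} (h : Big z r G)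
    (hGH : G ⊆ H) : Big z r H := fun ψ a ha => h ψ a fun x hx => ha x (hGH hx)

theorem Big.mem_hat {z : StrongDual ℝ (StrongDual ℝ E)} {r : ℝ} {G : Set E} (h : Big z r G)
    (hr : 0 ≤ r) : z ∈ hat G := fun ψ a ha => by
  have h1 := h ψ a ha
  have h2 := mul_nonneg hr (norm_nonneg ψ)
  linarith

theorem Big.nonempty {z : StrongDual ℝ (StrongDual ℝ E)} {r : ℝ} {G : Set E} (h : Big z r G) :
    G.Nonempty := by
  by_contra hc
  rw [not_nonempty_iff_eq_empty] at hc
  have := h 0 (-1) (by simp [hc])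
  simp only [map_zero, norm_zero, mul_zero, add_zero] at this
  linarith

/-- A closed convex set below the hyperplane `f = c` that has no point on it. -/
def cut (g : ℕ → StrongDual ℝ E) (f : StrongDual ℝ E) (c μ : ℝ) : Set E :=
  {p | ∀ n, wt n * (μ - (g n p + wt n)) ≤ c - f p}

theorem isClosed_cut (g : ℕ → StrongDual ℝ E) (f : StrongDual ℝ E) (c μ : ℝ) :
    IsClosed (cut g f c μ) := by
  have : cut g f c μ = ⋂ n, {p | wt n * (μ - (g n p + wt n)) ≤ c - f p} := by
    ext p; simp [cut]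
  rw [this]
  exact isClosed_iInter fun n => isClosed_le (by fun_prop) (by fun_prop)

theorem convex_cut (g : ℕ → StrongDual ℝ E) (f : StrongDual ℝ E) (c μ : ℝ) :
    Convex ℝ (cut g f c μ) := by
  intro p hp q hq s t hs ht hst n
  have h1 := mul_le_mul_of_nonneg_left (hp n) hs
  have h2 := mul_le_mul_of_nonneg_left (hq n) ht
  have h3 : t = 1 - s := by linarith
  subst h3
  simp only [map_add, map_smul, smul_eq_mul]
  nlinarith

theorem cut_mono (g : ℕ → StrongDual ℝ E) (f : StrongDual ℝ E) (c : ℝ) {μ ν : ℝ} (h : μ ≤ ν) :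
    cut g f c ν ⊆ cut g f c μ := fun p hp n => by
  have h1 := hp n
  have h2 := mul_le_mul_of_nonneg_left h (wt_pos n).le
  nlinarith

theorem lt_of_mem_cut {g : ℕ → StrongDual ℝ E} {f : StrongDual ℝ E} {c μ : ℝ} (hμ : 0 < μ)
    {p : E} (hlim : Tendsto (fun n => g n p) atTop (𝓝 0)) (hp : p ∈ cut g f c μ) : f p < c := by
  have h : Tendsto (fun n => g n p + wt n) atTop (𝓝 0) := by simpa using hlim.add wt_lim
  obtain ⟨n, hn⟩ := (h.eventually (gt_mem_nhds hμ)).exists
  have h1 := hp n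
  have h2 := mul_pos (wt_pos n) (sub_pos.mpr hn)
  linarith

theorem inv_cut {g : ℕ → StrongDual ℝ E} {f : StrongDual ℝ E} {c m : ℝ} (hm : 0 < m)
    (hlim : ∀ p, Tendsto (fun n => g n p) atTop (𝓝 0)) {D G : Set E} (hG : Convex ℝ G)
    (hDG : D ⊆ G) (hpos : ∀ p ∈ G, ∀ n, 0 ≤ g n p + wt n) (hI : Inv D G) :
    Inv (D ∩ cut g f c (2 * m)) (G ∩ cut g f c m) := by
  intro φ hφ x hx hmax
  by_cases h : ∀ y ∈ G, φ y ≤ φ x
  · obtain ⟨b, hb1, hb2⟩ := hI φ hφ x hx.1 h
    exact ⟨b, hb1, fun a ha => hb2 a ha.1⟩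
  push Not at h
  obtain ⟨p, hp, hxp⟩ := h
  have hδ : 0 < c - f x := sub_pos.mpr (lt_of_mem_cut hm (hlim x) hx.2)
  obtain ⟨N, hN⟩ := exists_wt m ((c - f x) / 2) (by positivity)
  set σ : ℝ := wt N * m with hσ
  have hσ0 : 0 < σ := mul_pos (wt_pos N) hm
  set K : ℝ := |c - f p - m| with hK
  have hK0 : 0 ≤ K := abs_nonneg _
  set τ : ℝ := σ / (σ + 2 * K + 1) with hτ
  have hτ0 : 0 < τ := by positivity
  have hτ1 : τ < 1 := by
    rw [hτ, div_lt_one (by positivity)]
    linarith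
  have hτ2 : τ * K ≤ (1 - τ) / 2 * σ := by
    have h1 : τ * (σ + 2 * K + 1) = σ := by rw [hτ]; field_simp
    nlinarith
  refine ⟨φ x - 2 * τ * (φ p - φ x), by nlinarith, fun a ha => ?_⟩
  have hz : ((1 - τ) / 2) • a + (((1 - τ) / 2) • x + τ • p) ∈ G ∩ cut g f c m := by
    constructor
    · have h1 : ((1 : ℝ) / 2) • a + ((1 : ℝ) / 2) • x ∈ G :=
        hG (hDG ha.1) hx.1 (by norm_num) (by norm_num) (by norm_num)
      have h2 := hG h1 hp (show 0 ≤ 1 - τ by linarith) hτ0.le (by ring)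
      have h3 : ((1 - τ) / 2) • a + (((1 - τ) / 2) • x + τ • p)
          = (1 - τ) • (((1 : ℝ) / 2) • a + ((1 : ℝ) / 2) • x) + τ • p := by
        rw [smul_add, smul_smul, smul_smul, mul_one_div, add_assoc]
      rwa [h3]
    · intro n
      have ha1 := ha.2 n
      have hx1 := hx.2 n
      have hw := wt_pos n
      have hwm : 0 < wt n * m := mul_pos hw hm
      have hsum : σ ≤ (c - f a - wt n * (m - (g n a + wt n)))
          + (c - f x - wt n * (m - (g n x + wt n))) := by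
        rcases le_total n N with hn | hn
        · have := mul_le_mul_of_nonneg_right (wt_anti hn) hm.le
          nlinarith
        · have h1 := mul_le_mul_of_nonneg_right (wt_anti hn) hm.le
          have h2 := mul_nonneg hw.le (hpos x hx.1 n)
          nlinarith
      have hp1 : -K ≤ c - f p - wt n * (m - (g n p + wt n)) := by
        have h1 := neg_abs_le (c - f p - m)
        have h2 := mul_nonneg hw.le (hpos p hp n)
        have h3 := mul_le_mul_of_nonneg_right (wt_le_one n) hm.le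
        nlinarith
      have h4 := mul_le_mul_of_nonneg_left hsum (show 0 ≤ (1 - τ) / 2 by linarith)
      have h5 := mul_le_mul_of_nonneg_left hp1 hτ0.le
      simp only [map_add, map_smul, smul_eq_mul]
      nlinarith
  have h6 := hmax _ hz
  simp only [map_add, map_smul, smul_eq_mul] at h6
  have h7 : 2 * τ * (φ p - φ x) ≤ (1 - τ) * (φ x - φ a) := by nlinarith
  have h8 : 0 < 2 * τ * (φ p - φ x) := by nlinarith
  have h9 : 0 < φ x - φ a := by
    by_contra hc
    push Not at hc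
    nlinarith
  nlinarith

theorem mem_hat_cut {g : ℕ → StrongDual ℝ E} {f : StrongDual ℝ E} {c μ θ r : ℝ} (hμ : 0 < μ)
    (hr : 0 < r) (hθ : ∀ n, θ ≤ ‖g n‖) (hμr : μ < r * θ) {D : Set E} (hD : Convex ℝ D)
    (hpos : ∀ p ∈ D, ∀ n, 0 ≤ g n p + wt n) {η : StrongDual ℝ (StrongDual ℝ E)}
    (hη : Big η r D) (hc : η f < c) : η ∈ hat (D ∩ cut g f c μ) := by
  classical
  intro ψ a ha
  apply le_of_forall_pos_le_add
  intro τ hτ
  have hδ : 0 < (c - η f) / 2 := by linarith
  obtain ⟨N, hN⟩ := exists_wt μ _ hδ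
  obtain ⟨p, hp, hp'⟩ := exists_approx hD (hη.mem_hat hr.le)
    (insert ψ (insert f ((Finset.range N).image g))) (min τ (min ((c - η f) / 2) (r * θ - μ)))
    (lt_min hτ (lt_min hδ (by linarith)))
  have h1 := (abs_lt.mp ((hp' ψ (by simp)).trans_le (min_le_left _ _))).1
  have h2 := (abs_lt.mp ((hp' f (by simp)).trans_le
    ((min_le_right _ _).trans (min_le_left _ _)))).2
  have h3 : p ∈ cut g f c μ := by
    intro n
    have hw := wt_pos n
    rcases lt_or_ge n N with hn | hn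
    · have h4 := (abs_lt.mp ((hp' (g n) (by
        simp only [Finset.mem_insert, Finset.mem_image, Finset.mem_range]
        exact Or.inr (Or.inr ⟨n, hn, rfl⟩))).trans_le
        ((min_le_right _ _).trans (min_le_right _ _)))).1
      have h5 := hη (-g n) (wt n) fun x hx => by
        have := hpos x hx n
        simp only [neg_apply]
        linarith
      rw [map_neg, norm_neg] at h5
      have h6 := mul_le_mul_of_nonneg_left (hθ n) hr.le
      have h7 : μ - (g n p + wt n) ≤ 0 := by linarith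
      nlinarith
    · have h4 := mul_le_mul_of_nonneg_right (wt_anti hn) hμ.le
      have h5 := mul_nonneg hw.le (hpos p hp n)
      nlinarith
  have := ha p ⟨hp, h3⟩
  linarith

/-- The set of combinations `l • g + (1 - l) • a`. -/
def mix (l : ℝ) (G A : Set E) : Set E := {p | ∃ g ∈ G, ∃ a ∈ A, p = l • g + (1 - l) • a}

theorem convex_mix (l : ℝ) {G A : Set E} (hG : Convex ℝ G) (hA : Convex ℝ A) :
    Convex ℝ (mix l G A) := by
  rintro _ ⟨g, hg, a, ha, rfl⟩ _ ⟨g', hg', a', ha', rfl⟩ s t hs ht hst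
  refine ⟨s • g + t • g', hG hg hg' hs ht hst, s • a + t • a', hA ha ha' hs ht hst, ?_⟩
  module

theorem subset_mix (l : ℝ) {G A : Set E} (hAG : A ⊆ G) : A ⊆ mix l G A := fun a ha =>
  ⟨a, hAG ha, a, ha, by module⟩

theorem mix_subset {l : ℝ} (h0 : 0 ≤ l) (h1 : l ≤ 1) {G A : Set E} (hG : Convex ℝ G)
    (hAG : A ⊆ G) : mix l G A ⊆ G := by
  rintro _ ⟨g, hg, a, ha, rfl⟩
  exact hG hg (hAG ha) h0 (by linarith) (by ring)

theorem inv_mix {l : ℝ} (h0 : 0 ≤ l) (h1 : l < 1) {G A : Set E} (hI : Inv A G) :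
    Inv (mix l G A) G := by
  intro φ hφ x hx hmax
  obtain ⟨b, hb1, hb2⟩ := hI φ hφ x hx hmax
  refine ⟨l * φ x + (1 - l) * b, by nlinarith, ?_⟩
  rintro _ ⟨g, hg, a, ha, rfl⟩
  simp only [map_add, map_smul, smul_eq_mul]
  have h2 := mul_le_mul_of_nonneg_left (hmax g hg) h0
  have h3 := mul_le_mul_of_nonneg_left (hb2 a ha) (show 0 ≤ 1 - l by linarith)
  linarith

theorem mix_le {l : ℝ} (h0 : 0 < l) (h1 : l < 1) {G A : Set E} (hne : A.Nonempty)
    {z : StrongDual ℝ (StrongDual ℝ E)} {r : ℝ} (hz : Big z r G) (ψ : StrongDual ℝ E) (a : ℝ)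
    (ha : ∀ x ∈ mix l G A, ψ x ≤ a) : l * (z ψ + r * ‖ψ‖) + (1 - l) * sig A ψ ≤ a := by
  have h2 : sig A ψ ≤ (a - l * (z ψ + r * ‖ψ‖)) / (1 - l) := by
    refine sig_le hne _ _ fun p hp => ?_
    have h3 := hz ψ ((a - (1 - l) * ψ p) / l) fun g hg => by
      have h4 := ha _ ⟨g, hg, p, hp, rfl⟩
      simp only [map_add, map_smul, smul_eq_mul] at h4
      rw [le_div_iff₀ h0]
      linarith
    rw [le_div_iff₀ h0] at h3
    rw [le_div_iff₀ (by linarith)]
    linarith
  rw [le_div_iff₀ (by linarith)] at h2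
  linarith

/-- No gap between the two distances: no nearest point. -/
theorem lt_of_no_gap {A G : Set E} (hG : Convex ℝ G) (hne : A.Nonempty) (hI : Inv A G) {x : E}
    (hx : x ∉ G) (h : ∀ q ∈ G, infDist x A ≤ dist x q) {p : E} (hp : p ∈ G) :
    infDist x A < dist x p := by
  by_contra hc
  push Not at hc
  have hd : dist x p = infDist x G :=
    le_antisymm ((le_infDist ⟨p, hp⟩).mpr fun q hq => hc.trans (h q hq)) (infDist_le_dist_of_mem hp)
  have hd0 : 0 < dist x p := dist_pos.mpr fun hxp => hx (hxp ▸ hp)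
  obtain ⟨f, hf, hf'⟩ := exists_sep hG ⟨p, hp⟩ x (hd ▸ hd0)
  have h1 : ∀ a, f x - f a ≤ dist x a := fun a => by
    have := apply_le_norm_mul f (x - a)
    rwa [hf, one_mul, map_sub, ← dist_eq_norm] at this
  obtain ⟨b, hb1, hb2⟩ := hI f (by rintro rfl; simp at hf) p hp fun y hy => by
    linarith [hf' y hy, h1 p]
  have h2 : f x - b ≤ infDist x A := (le_infDist hne).mpr fun a ha => by
    linarith [h1 a, hb2 a ha]
  linarith [hf' p hp, h p hp]

end Pool.Agent.MP917bd5.Nl
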