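import Pool.Agent.P.MP_917bd5_an.NlB

set_option autoImplicit false

namespace Pool.Agent.MP917bd5.Nl

open Metric Filter Topology Set

variable {E : Type} [NormedAddCommGroup E] [NormedSpace ℝ E]

/-- A state of the construction. -/
def Good (G0 A G : Set E) : Prop :=
  Convex ℝ A ∧ Convex ℝ G ∧ IsClosed G ∧ A ⊆ G ∧ G ⊆ G0 ∧
    (∃ (z : StrongDual ℝ (StrongDual ℝ E)) (r : ℝ), 0 < r ∧ Big z r A) ∧ Inv A G

theorem norm_sub_add_smul {Y : Type} [NormedAddCommGroup Y] [NormedSpace ℝ Y] (u L : Y) {t : ℝ}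
    (ht : 0 ≤ t) : ‖u - (u + t • L)‖ = t * ‖L‖ := by
  rw [sub_add_cancel_left, norm_neg, norm_smul_of_nonneg ht]

/-- A point of `G` nearer to `y` than `A` can be pushed into the bidual interior of `G`. -/
theorem exists_inner {A G : Set E} (hAG : A ⊆ G) {z : StrongDual ℝ (StrongDual ℝ E)} {r : ℝ}
    (hr : 0 < r) (hz : Big z r A) {y q : E} (hq : q ∈ G) {d : ℝ} (hd : dist y q < d) :
    ∃ (z1 : StrongDual ℝ (StrongDual ℝ E)) (r1 b : ℝ), 0 < r1 ∧ 0 ≤ b ∧ b < d ∧ Big z1 r1 G ∧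
      ∀ ψ : StrongDual ℝ E, ‖ψ‖ = 1 → |ψ y - z1 ψ| ≤ b := by
  set M : ℝ := ‖z‖ + ‖q‖ + 1 with hM
  have hM0 : 0 < M := by positivity
  set s : ℝ := min 1 ((d - dist y q) / (2 * M)) with hs
  have hs0 : 0 < s := lt_min one_pos (div_pos (by linarith) (by positivity))
  have hs1 : s ≤ 1 := min_le_left _ _
  have hs2 : s * (2 * M) ≤ d - dist y q := (le_div_iff₀ (by positivity)).mp (min_le_right _ _)
  refine ⟨(1 - s) • J E q + s • z, s * r, dist y q + s * M, by positivity, by positivity,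
    by nlinarith, fun ψ a ha => ?_, fun ψ hψ => ?_⟩
  · have h1 := mul_le_mul_of_nonneg_left (hz ψ a fun x hx => ha x (hAG hx)) hs0.le
    have h2 := mul_le_mul_of_nonneg_left (ha q hq) (show 0 ≤ 1 - s by linarith)
    simp only [add_apply, smul_apply, smul_eq_mul, J_apply]
    nlinarith
  · simp only [add_apply, smul_apply, smul_eq_mul, J_apply]
    have h1 : |ψ (y - q)| ≤ dist y q := by
      have := ψ.le_opNorm (y - q)
      rwa [hψ, one_mul, Real.norm_eq_abs, ← dist_eq_norm] at this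
    have h2 : |ψ q| ≤ ‖q‖ := by
      have := ψ.le_opNorm q
      rwa [hψ, one_mul, Real.norm_eq_abs] at this
    have h3 : |z ψ| ≤ ‖z‖ := by
      have := z.le_opNorm ψ
      rwa [hψ, mul_one, Real.norm_eq_abs] at this
    rw [map_sub] at h1
    obtain ⟨h1a, h1b⟩ := abs_le.mp h1
    obtain ⟨h2a, h2b⟩ := abs_le.mp h2
    obtain ⟨h3a, h3b⟩ := abs_le.mp h3
    have h4 : s * (ψ q - z ψ) ≤ s * M := mul_le_mul_of_nonneg_left (by linarith) hs0.le
    have h5 : s * (z ψ - ψ q) ≤ s * M := mul_le_mul_of_nonneg_left (by linarith) hs0.le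
    rw [abs_le]
    constructor <;> nlinarith

theorem step (g : ℕ → StrongDual ℝ E) (R θ : ℝ) (G0 : Set E) (hθ0 : 0 < θ)
    (hR : G0 ⊆ closedBall 0 R) (hθ : ∀ n, θ ≤ ‖g n‖)
    (hlim : ∀ p, Tendsto (fun n => g n p) atTop (𝓝 0))
    (hpos : ∀ p ∈ G0, ∀ n, 0 ≤ g n p + wt n) {A G : Set E} (h : Good G0 A G) {U : Set E}
    (hU : IsOpen U) (hne : U.Nonempty) (hdis : Disjoint U G0) :
    ∃ A1 G1 V : Set E, Good G0 A1 G1 ∧ A ⊆ A1 ∧ G1 ⊆ G ∧ IsOpen V ∧ V.Nonempty ∧ V ⊆ U ∧
      ∀ x ∈ V, ∀ p ∈ G1, infDist x A1 < dist x p := by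
  obtain ⟨hA, hG, hcl, hAG, hG0, ⟨z, r, hr, hz⟩, hI⟩ := h
  have hAne : A.Nonempty := hz.nonempty
  by_cases hgap : ∀ y ∈ U, ∀ q ∈ G, infDist y A ≤ dist y q
  · exact ⟨A, G, U, ⟨hA, hG, hcl, hAG, hG0, ⟨z, r, hr, hz⟩, hI⟩, subset_rfl, subset_rfl, hU, hne,
      subset_rfl, fun x hx p hp => lt_of_no_gap hG hAne hI
        (fun hxG => Set.disjoint_left.mp hdis hx (hG0 hxG)) (hgap x hx) hp⟩
  push Not at hgap
  obtain ⟨y, hy, q, hq, hyq⟩ := hgap
  set d : ℝ := infDist y A with hd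
  have hd0 : 0 < d := dist_nonneg.trans_lt hyq
  obtain ⟨z1, r1, b, hr1, hb0, hbd, hz1, hb⟩ := exists_inner hAG hr hz hq hyq
  set l : ℝ := (d - b) / (2 * (d + b)) with hl
  have hl0 : 0 < l := div_pos (by linarith) (by positivity)
  have hl2 : l * (2 * (d + b)) = d - b := by rw [hl]; field_simp
  have hl1 : l < 1 := by
    rw [hl, div_lt_one (by positivity)]
    linarith
  have hAR : A ⊆ closedBall 0 R := hAG.trans (hG0.trans hR)
  obtain ⟨f0, hf0, hf0'⟩ := exists_sep hA hAne y hd0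
  have hs0 : sig A f0 ≤ f0 y - d := sig_le hAne _ _ hf0'
  let N : StrongDual ℝ E → ℝ := fun ψ => l * z1 ψ + (1 - l) * sig A ψ - ψ y
  have hN0 : N f0 ≤ l * b - (1 - l) * d := by
    have h1 := mul_le_mul_of_nonneg_left (abs_le.mp (hb f0 hf0)).1 hl0.le
    have h2 := mul_le_mul_of_nonneg_left hs0 (show 0 ≤ 1 - l by linarith)
    simp only [N]
    nlinarith
  have hN1 : l * b - (1 - l) * d < -b := by nlinarith
  obtain ⟨f, hf, hfN, L, hL1, hL2, hL3⟩ := core N (fun φ ψ => by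
      have h1 := mul_le_mul_of_nonneg_left (sig_add hAR hAne φ ψ) (show 0 ≤ 1 - l by linarith)
      simp only [N, map_add, add_apply]
      nlinarith)
    (fun c ψ hc => by
      simp only [N, map_smul, smul_apply, smul_eq_mul, sig_smul hAR hAne c ψ hc]
      ring)
    (l * ‖z1‖ + (1 - l) * R + ‖y‖) (fun ψ => by
      have h1 := mul_le_mul_of_nonneg_left (apply_le_norm_mul z1 ψ) hl0.le
      have h2 := mul_le_mul_of_nonneg_left (sig_le_norm hAR hAne ψ) (show 0 ≤ 1 - l by linarith)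
      have h3 := apply_le_norm_mul ψ (-y)
      rw [map_neg, norm_neg] at h3
      simp only [N]
      nlinarith)
    f0 hf0 (by linarith) (l * r1 / 4) (by positivity)
  set s : ℝ := -N f with hs
  have hsb : b < s := by linarith
  have hs0' : 0 < s := by linarith
  set c : ℝ := f y - s with hc
  have hc1 : c = l * z1 f + (1 - l) * sig A f := by simp only [hc, hs, N]; ring
  have hc2 : 0 < c - sig A f := by
    have h1 := (abs_le.mp (hb f hf)).2
    have h2 : 0 < (1 - l) * (z1 f - sig A f) := by nlinarith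
    have h3 : 0 < z1 f - sig A f := (mul_pos_iff_of_pos_left (by linarith)).mp h2
    nlinarith
  set m : ℝ := min ((c - sig A f) / 2) (l * r1 / 2 * θ / 4) with hm
  have hm0 : 0 < m := lt_min (by linarith) (by positivity)
  have hm1 : 2 * m ≤ c - sig A f := by linarith [min_le_left ((c - sig A f) / 2) (l * r1 / 2 * θ / 4)]
  have hm2 : 2 * m < l * r1 / 2 * θ := by
    have h1 : 0 < l * r1 / 2 * θ := by positivity
    linarith [min_le_right ((c - sig A f) / 2) (l * r1 / 2 * θ / 4)]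
  have hDG : mix l G A ⊆ G := mix_subset hl0.le hl1.le hG hAG
  have hAA : A ⊆ mix l G A ∩ cut g f c (2 * m) := fun a ha => ⟨subset_mix l hAG ha, fun n => by
    have h1 := mul_nonneg (wt_pos n).le (hpos a (hG0 (hAG ha)) n)
    have h2 := mul_le_mul_of_nonneg_right (wt_le_one n) hm0.le
    have h3 := le_sig hAR f ha
    nlinarith⟩
  have hA1 : Convex ℝ (mix l G A ∩ cut g f c (2 * m)) :=
    (convex_mix l hG hA).inter (convex_cut _ _ _ _)
  obtain ⟨ρ0, hρ0, hρU⟩ := Metric.isOpen_iff.mp hU y hy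
  set ρ : ℝ := min ρ0 (min s (l * r1 / 12)) with hρ
  have hρ1 : 0 < ρ := lt_min hρ0 (lt_min hs0' (by positivity))
  have hρ2 : ρ ≤ s := (min_le_right _ _).trans (min_le_left _ _)
  have hρ3 : ρ ≤ l * r1 / 12 := (min_le_right _ _).trans (min_le_right _ _)
  refine ⟨mix l G A ∩ cut g f c (2 * m), G ∩ cut g f c m, ball y ρ,
    ⟨hA1, hG.inter (convex_cut _ _ _ _), hcl.inter (isClosed_cut _ _ _ _),
      inter_subset_inter hDG (cut_mono g f c (by linarith)), inter_subset_left.trans hG0,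
      ⟨z, r, hr, hz.mono hAA⟩,
      inv_cut hm0 hlim hG hDG (fun p hp => hpos p (hG0 hp)) (inv_mix hl0.le hl1 hI)⟩,
    hAA, inter_subset_left, isOpen_ball, nonempty_ball.mpr hρ1,
    (ball_subset_ball (min_le_left _ _)).trans hρU, fun x hx p hp => ?_⟩
  have hxy : ‖x - y‖ < ρ := by rwa [mem_ball, dist_eq_norm] at hx
  have hfx : |f x - f y| < ρ := by
    have := f.le_opNorm (x - y)
    rw [hf, one_mul, Real.norm_eq_abs, map_sub] at this
    linarith
  obtain ⟨hfx1, hfx2⟩ := abs_lt.mp hfx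
  have h1 : infDist x (mix l G A ∩ cut g f c (2 * m)) ≤ f x - c := by
    refine le_of_forall_pos_le_add fun δ0 hδ0 => ?_
    set δ : ℝ := min δ0 ρ with hδ
    have hδ1 : 0 < δ := lt_min hδ0 hρ1
    have hδ2 : δ ≤ ρ := min_le_right _ _
    have hδ3 : δ ≤ δ0 := min_le_left _ _
    set t : ℝ := (f x - f y + δ) / s with ht
    have hts : t * s = f x - f y + δ := by rw [ht]; field_simp
    have ht0 : 0 ≤ 1 + t := by
      have : -1 ≤ t := by
        rw [ht, le_div_iff₀ hs0']
        linarith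
      linarith
    have hta : |t| * s ≤ 2 * ρ := by
      have h2 : |t| * s = |f x - f y + δ| := by rw [← hts, abs_mul, abs_of_pos hs0']
      rw [h2, abs_le]
      constructor <;> linarith
    have hbig : Big (J E x + (1 + t) • L) (l * r1 / 2) (mix l G A) := by
      intro ψ a ha
      have h2 := mix_le hl0 hl1 hAne hz1 ψ a ha
      have h3 := hL1 ψ
      have h4 : ψ x - ψ y ≤ ρ * ‖ψ‖ := by
        have h5 := apply_le_norm_mul ψ (x - y)
        have h6 := mul_le_mul_of_nonneg_left hxy.le (norm_nonneg ψ)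
        rw [map_sub] at h5
        linarith
      have h5 : t * L ψ ≤ 2 * ρ * ‖ψ‖ := by
        have h6 : |L ψ| ≤ s * ‖ψ‖ :=
          (L.le_opNorm ψ).trans (mul_le_mul_of_nonneg_right hL2 (norm_nonneg ψ))
        have h7 := le_abs_self (t * L ψ)
        rw [abs_mul] at h7
        have h8 := mul_le_mul_of_nonneg_left h6 (abs_nonneg t)
        have h9 := mul_le_mul_of_nonneg_right hta (norm_nonneg ψ)
        nlinarith
      have h6 := mul_le_mul_of_nonneg_right hρ3 (norm_nonneg ψ)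
      simp only [add_apply, smul_apply, smul_eq_mul, J_apply]
      simp only [N] at h3
      nlinarith
    have hlt : (J E x + (1 + t) • L) f < c := by
      simp only [add_apply, smul_apply, smul_eq_mul, J_apply]
      have h2 : L f = -s := by rw [hL3, hs, neg_neg]
      rw [h2]
      nlinarith
    have h2 := mem_hat_cut (μ := 2 * m) (by linarith) (by positivity) hθ hm2 (convex_mix l hG hA)
      (fun p hp => hpos p (hG0 (hDG hp))) hbig hlt
    have h3 := infDist_le_of_mem_hat hA1 (hAne.mono hAA) x h2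
    have h4 := norm_sub_add_smul (Y := StrongDual ℝ (StrongDual ℝ E)) (J E x) L ht0
    have h5 := mul_le_mul_of_nonneg_left hL2 ht0
    have h6 : ‖J E x - (J E x + (1 + t) • L)‖ ≤ (1 + t) * s := h4.trans_le h5
    nlinarith
  have h2 := lt_of_mem_cut hm0 (hlim p) hp.2
  have h3 := apply_le_norm_mul f (x - p)
  rw [hf, one_mul, map_sub, ← dist_eq_norm] at h3
  linarith

end Pool.Agent.MP917bd5.Nl
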