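import Pool.Agent.P.MP_917bd5_an.NlC
import Pool.Agent.P.MP_917bd5_an.BdT
import Pool.Agent.P.MP_917bd5_an.BdE

set_option autoImplicit false

namespace Pool.Agent.MP917bd5.Nl

open Metric Filter Topology Set

variable {E : Type} [NormedAddCommGroup E] [NormedSpace ℝ E]

/-- Every separable non-reflexive Banach space has a nonempty closed bounded convex set whose set
of points having a nearest point is nowhere dense. -/
theorem main_convex [CompleteSpace E] [TopologicalSpace.SeparableSpace E]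
    (hnr : ¬ Function.Surjective (J E)) :
    ∃ G : Set E, IsClosed G ∧ G.Nonempty ∧ Bornology.IsBounded G ∧ Convex ℝ G ∧
      IsNowhereDense {x | ∃ y ∈ G, dist x y = infDist x G} := by
  obtain ⟨R, r, κ, g, zs, A0, hR, hr, hκ, -, hg, hlim, hint, hA0, h0, hsub, hfat, hU⟩ :=
    exists_start2 hnr
  obtain ⟨A, G, hst, hG0, hA, hnd⟩ := exists_nowhereDense (Good (startSet R g)) (startSet R g) A0
    ⟨hA0, convex_startSet R g, isClosed_startSet R g, hsub, subset_rfl, ⟨zs, r, hr, hfat⟩, hU⟩ hint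
    (fun A G h => ⟨h.2.2.2.1, h.2.2.1⟩) (fun A G h U hU hne hdis => by
      obtain ⟨A1, G1, V, h1, h2, h3, h4, h5, h6, h7⟩ := step g R κ (startSet R g) hκ
        inter_subset_left hg hlim (fun p hp n => hp.2 n) h hU hne hdis
      refine ⟨A1, G1, V, h1, h2, h3, h4, h5, h6, fun H hH1 hH2 x hx => ?_⟩
      rintro ⟨y, hy, hxy⟩
      obtain ⟨z, r, -, hz⟩ := h1.2.2.2.2.2.1
      have h8 := infDist_le_infDist_of_subset hH1 hz.nonempty (x := x)
      linarith [h7 x hx y (hH2 hy)])
  refine ⟨⋂ n, G n, isClosed_iInter fun n => (hst n).2.2.1, ⟨0, hA h0⟩, ?_,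
    convex_iInter fun n => (hst n).2.1, hnd⟩
  exact isBounded_closedBall.subset
    ((iInter_subset G 0).trans ((hst 0).2.2.2.2.1.trans inter_subset_left))

end Pool.Agent.MP917bd5.Nl
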