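import Pool.Agent.P.MP_917bd5_an.KA

/-! A bounded biorthogonal system and a quadratic form that controls weak convergence. -/

set_option autoImplicit false

namespace Pool.Agent.MP917bd5.Nn

open Metric Filter Topology Set TopologicalSpace

variable {E : Type} [NormedAddCommGroup E] [NormedSpace ℝ E]

theorem exists_far (hE : ¬ FiniteDimensional ℝ E) (A : Finset E) (Φ : Finset (StrongDual ℝ E)) :
    ∃ (e : E) (f : StrongDual ℝ E), ‖e‖ ≤ 3 ∧ ‖f‖ ≤ 4 ∧ f e = 1 ∧ (∀ a ∈ A, f a = 0) ∧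
      ∀ φ ∈ Φ, φ e = 0 := by
  let L : E →ₗ[ℝ] (Φ → ℝ) := LinearMap.pi fun φ => (φ.1 : E →ₗ[ℝ] ℝ)
  have hY : ¬ FiniteDimensional ℝ (LinearMap.ker L) := by
    intro h
    have : Module.Finite ℝ (E ⧸ LinearMap.ker L) :=
      Module.Finite.equiv L.quotKerEquivRange.symm
    exact hE (Module.Finite.of_submodule_quotient (LinearMap.ker L))
  obtain ⟨y, hy1, hy2⟩ := exists_seq_norm_le_one_le_norm_sub' (𝕜 := ℝ) (c := 2) (R := 3)
    (by norm_num) (by norm_num) hY
  let S : Submodule ℝ E := Submodule.span ℝ (A : Set E)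
  have hS : FiniteDimensional ℝ S := FiniteDimensional.span_finset ℝ A
  have hne : (S : Set E).Nonempty := ⟨0, S.zero_mem⟩
  have hfar : ∃ n, 1 / 4 ≤ infDist (y n : E) (S : Set E) := by
    by_contra hc
    push Not at hc
    choose s hs1 hs2 using fun n => (infDist_lt_iff hne).1 (hc n)
    have hp : ProperSpace S := FiniteDimensional.proper_real S
    have hb : ∀ n, (⟨s n, hs1 n⟩ : S) ∈ closedBall (0 : S) 4 := fun n => by
      rw [mem_closedBall_zero_iff]
      have h1 : ‖(y n : E)‖ ≤ 3 := hy1 n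
      have h2 := hs2 n
      rw [dist_eq_norm] at h2
      have h3 := norm_sub_norm_le (s n) (y n : E)
      rw [norm_sub_rev] at h3
      change ‖s n‖ ≤ 4
      linarith
    obtain ⟨a, -, k, hk, hlim⟩ := (isCompact_closedBall (0 : S) 4).tendsto_subseq hb
    obtain ⟨N, hN⟩ := Metric.cauchySeq_iff.1 hlim.cauchySeq (1 / 2) (by norm_num)
    have h1 : dist (s (k N)) (s (k (N + 1))) < 1 / 2 := hN N le_rfl (N + 1) (Nat.le_succ N)
    have h2 : 1 ≤ dist (y (k N) : E) (y (k (N + 1)) : E) := by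
      rw [dist_eq_norm]
      exact hy2 (hk (Nat.lt_succ_self N)).ne
    have h3 := dist_triangle4 (y (k N) : E) (s (k N)) (s (k (N + 1))) (y (k (N + 1)) : E)
    have h4 := hs2 (k (N + 1))
    rw [dist_comm] at h4
    linarith [hs2 (k N)]
  obtain ⟨n, hn⟩ := hfar
  obtain ⟨g, hg1, hg2⟩ := exists_sep S.convex hne (y n : E) (by linarith)
  have h0 : 1 / 4 ≤ g (y n) := by
    have := hg2 0 S.zero_mem
    rw [map_zero] at this
    linarith
  have hz : ∀ a ∈ A, g a = 0 := by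
    intro a ha
    by_contra h
    have hm : (g (y n) / g a) • a ∈ S := S.smul_mem _ (Submodule.subset_span ha)
    have h1 := hg2 _ hm
    rw [map_smul, smul_eq_mul, div_mul_cancel₀ _ h] at h1
    linarith
  refine ⟨y n, (g (y n))⁻¹ • g, hy1 n, ?_, ?_, fun a ha => ?_, fun φ hφ => ?_⟩
  · rw [norm_smul, hg1, mul_one, Real.norm_eq_abs, abs_of_pos (by positivity)]
    exact inv_le_of_inv_le₀ (by norm_num) (by linarith)
  · rw [smul_apply, smul_eq_mul, inv_mul_cancel₀ (by positivity)]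
  · rw [smul_apply, hz a ha, smul_zero]
  · exact congrFun (LinearMap.mem_ker.1 (y n).2) ⟨φ, hφ⟩

/-- A bounded sequence of functionals that vanish eventually on a dense set tends to zero. -/
theorem tendsto_of_dense {X : Type} [NormedAddCommGroup X] {ι : Type} {l : Filter ι}
    (u : ι → X → ℝ) (C : ℝ) (hC : 0 < C) (hu : ∀ i x y, |u i x - u i y| ≤ C * ‖x - y‖)
    (hd : Dense {y | ∀ᶠ i in l, u i y = 0}) (x : X) : Tendsto (fun i => u i x) l (𝓝 0) := by
  rw [Metric.tendsto_nhds]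
  intro η hη
  obtain ⟨y, hy1, hy2⟩ := hd.exists_dist_lt x (div_pos hη hC)
  filter_upwards [hy1] with i hi
  have h := hu i x y
  rw [hi] at h
  rw [dist_eq_norm, lt_div_iff₀ hC] at hy2
  rw [Real.dist_eq]
  linarith

/-- The biorthogonal system. -/
structure Bio (e : ℕ × ℕ → E) (f : ℕ × ℕ → StrongDual ℝ E) : Prop where
  ne : ∀ n, ‖e n‖ ≤ 3
  nf : ∀ n, ‖f n‖ ≤ 4
  one : ∀ n, f n (e n) = 1
  zero : ∀ m n, m ≠ n → f m (e n) = 0
  dense : Dense {y | ∀ᶠ n in cofinite, f n y = 0}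
  weak : ∀ φ : StrongDual ℝ E, Tendsto (fun n => φ (e n)) cofinite (𝓝 0)

theorem Bio.star {e : ℕ × ℕ → E} {f : ℕ × ℕ → StrongDual ℝ E} (h : Bio e f) (y : E) :
    Tendsto (fun n => f n y) cofinite (𝓝 0) :=
  tendsto_of_dense (fun n y => f n y) 4 (by norm_num) (fun n x y => by
    rw [← map_sub]
    exact ((f n).le_opNorm _).trans (mul_le_mul_of_nonneg_right (h.nf n) (norm_nonneg _)))
    h.dense y

theorem exists_bio [SeparableSpace (StrongDual ℝ E)] (hE : ¬ FiniteDimensional ℝ E) :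
    ∃ (e : ℕ × ℕ → E) (f : ℕ × ℕ → StrongDual ℝ E), Bio e f := by
  classical
  have : SeparableSpace E := K.separable_of_dual
  obtain ⟨x, hx⟩ := exists_dense_seq E
  obtain ⟨φ, hφ⟩ := exists_dense_seq (StrongDual ℝ E)
  obtain ⟨u, hu1, hu2⟩ := exists_seq_of_forall_finset_exists
    (fun a : E × StrongDual ℝ E × ℕ => ‖a.1‖ ≤ 3 ∧ ‖a.2.1‖ ≤ 4 ∧ a.2.1 a.1 = 1 ∧
      ∀ i ≤ a.2.2, a.2.1 (x i) = 0 ∧ φ i a.1 = 0)
    (fun a b => a.2.1 b.1 = 0 ∧ b.2.1 a.1 = 0 ∧ a.2.2 < b.2.2) (fun s _ => by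
      let N := s.sup (fun a => a.2.2) + 1
      obtain ⟨e, f, h1, h2, h3, h4, h5⟩ := exists_far hE
        (s.image (fun a => a.1) ∪ (Finset.range (N + 1)).image x)
        (s.image (fun a => a.2.1) ∪ (Finset.range (N + 1)).image φ)
      refine ⟨(e, f, N), ⟨h1, h2, h3, fun i hi => ⟨h4 _ ?_, h5 _ ?_⟩⟩,
        fun a ha => ⟨h5 _ ?_, h4 _ ?_, ?_⟩⟩
      · exact Finset.mem_union_right _
          (Finset.mem_image_of_mem _ (Finset.mem_range.2 (Nat.lt_succ_of_le hi)))
      · exact Finset.mem_union_right _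
          (Finset.mem_image_of_mem _ (Finset.mem_range.2 (Nat.lt_succ_of_le hi)))
      · exact Finset.mem_union_left _ (Finset.mem_image_of_mem _ ha)
      · exact Finset.mem_union_left _ (Finset.mem_image_of_mem _ ha)
      · exact Nat.lt_succ_of_le (Finset.le_sup (f := fun a : E × StrongDual ℝ E × ℕ => a.2.2) ha))
  have hm : StrictMono fun n => (u n).2.2 := fun m n h => (hu2 m n h).2.2
  let q : ℕ × ℕ → ℕ := Nat.pairEquiv
  have hq : Function.Injective q := Nat.pairEquiv.injective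
  have hev : ∀ i, ∀ᶠ n in cofinite, i ≤ (u (q n)).2.2 := fun i => by
    have h1 : Tendsto q cofinite atTop := Nat.cofinite_eq_atTop ▸ hq.tendsto_cofinite
    exact (hm.tendsto_atTop.comp h1).eventually_ge_atTop i
  refine ⟨fun n => (u (q n)).1, fun n => (u (q n)).2.1, fun n => (hu1 _).1, fun n => (hu1 _).2.1,
    fun n => (hu1 _).2.2.1, fun m n h => ?_, ?_, ?_⟩
  · rcases lt_or_gt_of_ne (hq.ne h) with h1 | h1
    · exact (hu2 _ _ h1).1
    · exact (hu2 _ _ h1).2.1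
  · refine Dense.mono ?_ hx
    rintro _ ⟨i, rfl⟩
    exact (hev i).mono fun n hn => ((hu1 _).2.2.2 i hn).1
  · refine tendsto_of_dense (fun n (ψ : StrongDual ℝ E) => ψ (u (q n)).1) 3 (by norm_num)
      (fun n a b => ?_) (Dense.mono ?_ hφ)
    · rw [← sub_apply, mul_comm]
      exact ((a - b).le_opNorm _).trans (mul_le_mul_of_nonneg_left (hu1 _).1 (norm_nonneg _))
    · rintro _ ⟨i, rfl⟩
      exact (hev i).mono fun n hn => ((hu1 _).2.2.2 i hn).2

/-- Quadratic forms, described by one identity. -/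
def Quad {X : Type} [AddCommGroup X] [Module ℝ X] (H : X → ℝ) : Prop :=
  ∀ (s t : ℝ) (x y : X),
    H (s • x + t • y) = s * (s + t) * H x + t * (s + t) * H y - s * t * H (x - y)

theorem quad_tsum {X ι : Type} [AddCommGroup X] [Module ℝ X] (lam : ι → ℝ) (φ : ι → X →ₗ[ℝ] ℝ)
    (hs : ∀ x, Summable fun i => lam i * φ i x ^ 2) :
    Quad fun x => ∑' i, lam i * φ i x ^ 2 := fun s t x y => by
  refine HasSum.tsum_eq ?_
  have h := (((hs x).hasSum.mul_left (s * (s + t))).add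
    ((hs y).hasSum.mul_left (t * (s + t)))).sub ((hs (x - y)).hasSum.mul_left (s * t))
  have e : (fun i => lam i * φ i (s • x + t • y) ^ 2) = fun i => s * (s + t) * (lam i * φ i x ^ 2) +
      t * (s + t) * (lam i * φ i y ^ 2) - s * t * (lam i * φ i (x - y) ^ 2) := funext fun i => by
    simp only [map_add, map_smul, map_sub, smul_eq_mul]; ring
  rw [e]
  exact h

/-- A small nonnegative quadratic form whose smallness forces weak smallness. -/
theorem exists_form [SeparableSpace (StrongDual ℝ E)] {κ : ℝ} (hκ : 0 < κ) :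
    ∃ H : E → ℝ, Quad H ∧ Continuous H ∧ (∀ x, 0 ≤ H x) ∧ (∀ x, H x ≤ κ * ‖x‖ ^ 2) ∧
      ∀ (ψ : StrongDual ℝ E) (η : ℝ), 0 < η → ∃ δ : ℝ, 0 < δ ∧
        ∀ x, H x ≤ δ → |ψ x| ≤ η * (1 + ‖x‖) := by
  obtain ⟨φ, hφ⟩ := exists_dense_seq (StrongDual ℝ E)
  let lam : ℕ → ℝ := fun i => κ / 2 / 2 ^ i / (1 + ‖φ i‖ ^ 2)
  have hl : ∀ i, 0 < lam i := fun i => by positivity
  have h0 : ∀ x i, 0 ≤ lam i * φ i x ^ 2 := fun x i => by positivity [hl i]
  have hT : ∀ x i, lam i * φ i x ^ 2 ≤ κ / 2 / 2 ^ i * ‖x‖ ^ 2 := fun x i => by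
    have h1 : φ i x ^ 2 ≤ (‖φ i‖ * ‖x‖) ^ 2 := sq_le_sq' (by
      linarith [neg_abs_le (φ i x), show |φ i x| ≤ _ from (φ i).le_opNorm x])
      ((le_abs_self _).trans ((φ i).le_opNorm x))
    rw [div_mul_eq_mul_div, div_le_iff₀ (by positivity), mul_assoc]
    exact mul_le_mul_of_nonneg_left (by nlinarith [sq_nonneg ‖x‖]) (by positivity)
  have hg := fun x : E => (hasSum_geometric_two' κ).mul_right (‖x‖ ^ 2)
  have hs : ∀ x, Summable fun i => lam i * φ i x ^ 2 := fun x =>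
    Summable.of_nonneg_of_le (h0 x) (hT x) (hg x).summable
  refine ⟨fun x => ∑' i, lam i * φ i x ^ 2, quad_tsum lam (fun i => (φ i : E →ₗ[ℝ] ℝ)) hs, ?_,
    fun x => tsum_nonneg (h0 x), fun x => hasSum_le (hT x) (hs x).hasSum (hg x),
    fun ψ η hη => ?_⟩
  · refine continuous_iff_continuousAt.2 fun x => ?_
    refine (continuousOn_tsum (s := ball x 1) (fun i => by fun_prop)
      ((hasSum_geometric_two' κ).mul_right ((‖x‖ + 1) ^ 2)).summable fun i y hy => ?_).continuousAt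
      (ball_mem_nhds x one_pos)
    rw [Real.norm_eq_abs, abs_of_nonneg (h0 y i)]
    refine (hT y i).trans (mul_le_mul_of_nonneg_left ?_ (by positivity))
    have := norm_lt_of_mem_ball hy
    gcongr
  · obtain ⟨i, hi⟩ := Metric.denseRange_iff.1 hφ ψ η hη
    refine ⟨lam i * η ^ 2, by positivity [hl i], fun x h => ?_⟩
    have h1 : lam i * φ i x ^ 2 ≤ lam i * η ^ 2 :=
      ((hs x).le_tsum i fun j _ => h0 x j).trans h
    have h2 : |φ i x| ≤ η := abs_le_of_sq_le_sq (le_of_mul_le_mul_left h1 (hl i)) hη.le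
    have h3 : |ψ x - φ i x| ≤ η * ‖x‖ := by
      rw [← sub_apply]
      rw [dist_eq_norm] at hi
      exact ((ψ - φ i).le_opNorm _).trans (mul_le_mul_of_nonneg_right hi.le (norm_nonneg _))
    have h4 := abs_sub_abs_le_abs_sub (ψ x) (φ i x)
    linarith

end Pool.Agent.MP917bd5.Nn
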