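import Pool.Agent.P.MP_917bd5_an.NnA

/-! The square of the new norm, as an infimum over decompositions. -/

set_option autoImplicit false

namespace Pool.Agent.MP917bd5.Nn

open Metric Filter Topology Set TopologicalSpace

variable {E : Type} [NormedAddCommGroup E] [NormedSpace ℝ E]

/-- Finitely supported coefficient arrays. -/
abbrev W := ℕ × ℕ →₀ ℝ

/-- The weight of level `j`. -/
noncomputable def cc (j : ℕ) : ℝ := (1 / 2) ^ j / 6

/-- The vector with coefficient array `w`. -/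
noncomputable def io (e : ℕ × ℕ → E) : W →ₗ[ℝ] E :=
  Finsupp.linearCombination ℝ fun n => cc n.1 • e n

/-- The quadratic form on coefficient arrays. -/
noncomputable def MM (w : W) : ℝ := ∑' n : ℕ × ℕ, (1 / 2) ^ n.2 * w n ^ 2

/-- Every level of `w` has absolute sum at most `τ`. -/
def Lev (w : W) (τ : ℝ) : Prop := ∀ (j : ℕ) (s : Finset ℕ), ∑ m ∈ s, |w (j, m)| ≤ τ

theorem cc_pos (j : ℕ) : 0 < cc j := by unfold cc; positivity

theorem cc_le (j : ℕ) : cc j ≤ 1 := by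
  have : (1 / 2 : ℝ) ^ j ≤ 1 := pow_le_one₀ (by norm_num) (by norm_num)
  unfold cc; linarith

theorem summable_MM (w : W) : Summable fun n : ℕ × ℕ => (1 / 2 : ℝ) ^ n.2 * w n ^ 2 :=
  summable_of_ne_finset_zero (s := w.support) fun n hn => by
    rw [Finsupp.notMem_support_iff.1 hn]; simp

theorem quad_MM : Quad MM :=
  quad_tsum (fun n : ℕ × ℕ => (1 / 2 : ℝ) ^ n.2) (fun n => Finsupp.lapply n) summable_MM

theorem MM_nonneg (w : W) : 0 ≤ MM w := tsum_nonneg fun n => by positivity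

theorem le_MM (w : W) (n : ℕ × ℕ) : (1 / 2) ^ n.2 * w n ^ 2 ≤ MM w :=
  (summable_MM w).le_tsum n fun _ _ => by positivity

theorem Lev.comb {w w' : W} {τ τ' s t : ℝ} (h : Lev w τ) (h' : Lev w' τ') :
    Lev (s • w + t • w') (|s| * τ + |t| * τ') := fun j S => by
  calc ∑ m ∈ S, |(s • w + t • w') (j, m)|
      ≤ ∑ m ∈ S, (|s| * |w (j, m)| + |t| * |w' (j, m)|) := Finset.sum_le_sum fun m _ => by
        rw [← abs_mul, ← abs_mul]; exact abs_add_le _ _
    _ ≤ _ := by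
        rw [Finset.sum_add_distrib, ← Finset.mul_sum, ← Finset.mul_sum]
        gcongr
        · exact h j S
        · exact h' j S

theorem Lev.sum_le {w : W} {τ : ℝ} (h : Lev w τ) :
    ∑ n ∈ w.support, cc n.1 * |w n| ≤ τ / 3 := by
  classical
  have h0 : 0 ≤ τ := by simpa using h 0 ∅
  have h1 : w.support ⊆ w.support.image Prod.fst ×ˢ w.support.image Prod.snd := fun n hn =>
    Finset.mem_product.2 ⟨Finset.mem_image_of_mem _ hn, Finset.mem_image_of_mem _ hn⟩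
  refine (Finset.sum_le_sum_of_subset_of_nonneg h1 fun n _ _ => by
    positivity [cc_pos n.1]).trans ?_
  rw [Finset.sum_product]
  have h2 : ∑ j ∈ w.support.image Prod.fst, (1 / 2 : ℝ) ^ j ≤ 2 :=
    sum_le_hasSum _ (fun _ _ => by positivity) hasSum_geometric_two
  calc _ ≤ ∑ j ∈ w.support.image Prod.fst, (1 / 2 : ℝ) ^ j * (τ / 6) :=
        Finset.sum_le_sum fun j _ => by
          simp only [← Finset.mul_sum]
          refine (mul_le_mul_of_nonneg_left (h j _) (cc_pos j).le).trans (le_of_eq ?_)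
          unfold cc; ring
    _ ≤ τ / 3 := by
        rw [← Finset.sum_mul]
        nlinarith

variable {e : ℕ × ℕ → E} {f : ℕ × ℕ → StrongDual ℝ E}

theorem io_eq (w : W) : io e w = ∑ n ∈ w.support, (cc n.1 * w n) • e n := by
  rw [io, Finsupp.linearCombination_apply, Finsupp.sum]
  exact Finset.sum_congr rfl fun n _ => by rw [smul_smul, mul_comm]

theorem norm_io (h : Bio e f) {w : W} {τ : ℝ} (hw : Lev w τ) : ‖io e w‖ ≤ τ := by
  rw [io_eq]
  refine (norm_sum_le _ _).trans ?_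
  have h1 : ∑ n ∈ w.support, ‖(cc n.1 * w n) • e n‖ ≤ ∑ n ∈ w.support, cc n.1 * |w n| * 3 :=
    Finset.sum_le_sum fun n _ => by
      rw [norm_smul, Real.norm_eq_abs, abs_mul, abs_of_pos (cc_pos _)]
      exact mul_le_mul_of_nonneg_left (h.ne n) (by positivity [cc_pos n.1])
  rw [← Finset.sum_mul] at h1
  linarith [hw.sum_le]

theorem f_io (h : Bio e f) (w : W) (n : ℕ × ℕ) : f n (io e w) = cc n.1 * w n := by
  rw [io_eq, map_sum, Finset.sum_eq_single n]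
  · rw [map_smul, h.one, smul_eq_mul, mul_one]
  · intro m _ hm
    rw [map_smul, h.zero _ _ hm.symm, smul_zero]
  · intro hn
    rw [Finsupp.notMem_support_iff.1 hn]; simp

theorem io_small (h : Bio e f) (ψ : StrongDual ℝ E) (η : ℝ) (hη : 0 < η) :
    ∃ δ : ℝ, 0 < δ ∧ ∀ (w : W) (τ : ℝ), Lev w τ → MM w ≤ δ → |ψ (io e w)| ≤ η * (1 + τ) := by
  classical
  have hF : {n | ¬ dist (ψ (e n)) 0 < η}.Finite := Metric.tendsto_nhds.1 (h.weak ψ) η hη
  let ρ : ℝ := η / (1 + ∑ n ∈ hF.toFinset, |ψ (e n)|)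
  have hρ : 0 < ρ := by positivity
  have hev : ∀ᶠ δ in 𝓝[>] (0 : ℝ), ∀ n ∈ hF.toFinset, δ ≤ (1 / 2) ^ n.2 * ρ ^ 2 :=
    (eventually_all_finset _).2 fun n _ =>
      (eventually_le_nhds (by positivity)).filter_mono nhdsWithin_le_nhds
  obtain ⟨δ, hδ1, hδ2⟩ := (hev.and self_mem_nhdsWithin).exists
  refine ⟨δ, hδ2, fun w τ hw hM => ?_⟩
  have h0 : 0 ≤ τ := by simpa using hw 0 ∅
  rw [io_eq, map_sum]
  refine (Finset.abs_sum_le_sum_abs _ _).trans ?_
  have h1 : ∑ n ∈ w.support, |ψ ((cc n.1 * w n) • e n)| ≤ ∑ n ∈ w.support,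
      ((if n ∈ hF.toFinset then ρ * |ψ (e n)| else 0) + η * (cc n.1 * |w n|)) :=
    Finset.sum_le_sum fun n _ => by
      rw [map_smul, smul_eq_mul, abs_mul, abs_mul, abs_of_pos (cc_pos _)]
      have hc : 0 ≤ cc n.1 * |w n| := by positivity [cc_pos n.1]
      split_ifs with hn
      · have h2 : |w n| ≤ ρ := abs_le_of_sq_le_sq (le_of_mul_le_mul_left
          ((le_MM w n).trans (hM.trans (hδ1 n hn))) (by positivity)) hρ.le
        have h3 : cc n.1 * |w n| ≤ 1 * ρ := mul_le_mul (cc_le _) h2 (abs_nonneg _) zero_le_one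
        nlinarith [mul_le_mul_of_nonneg_right h3 (abs_nonneg (ψ (e n)))]
      · have h2 : |ψ (e n)| < η := by simpa using hn
        nlinarith
  rw [Finset.sum_add_distrib, ← Finset.mul_sum, ← Finset.sum_filter] at h1
  have h2 : ∑ n ∈ w.support.filter (· ∈ hF.toFinset), ρ * |ψ (e n)| ≤
      ∑ n ∈ hF.toFinset, ρ * |ψ (e n)| :=
    Finset.sum_le_sum_of_subset_of_nonneg (fun n hn => (Finset.mem_filter.1 hn).2)
      fun n _ _ => by positivity
  have h3 : ρ * (1 + ∑ n ∈ hF.toFinset, |ψ (e n)|) = η := div_mul_cancel₀ _ (by positivity)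
  rw [← Finset.mul_sum hF.toFinset] at h2
  nlinarith [mul_le_mul_of_nonneg_left hw.sum_le hη.le]

/-- `d = (b, z, w, τ)` is a decomposition of `v`. -/
def OK (e : ℕ × ℕ → E) (v : E) (d : E × E × W × ℝ) : Prop :=
  v = d.1 + d.2.1 + io e d.2.2.1 ∧ ‖d.2.1‖ ≤ d.2.2.2 ∧ Lev d.2.2.1 d.2.2.2

/-- The cost of a decomposition. -/
noncomputable def cost (H : E → ℝ) (K : ℝ) (d : E × E × W × ℝ) : ℝ :=
  ‖d.1‖ ^ 2 + H d.1 + K ^ 2 * d.2.2.2 ^ 2 + H d.2.1 + MM d.2.2.1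

/-- The square of the new norm. -/
noncomputable def PP (e : ℕ × ℕ → E) (H : E → ℝ) (K : ℝ) (v : E) : ℝ :=
  sInf (cost H K '' {d | OK e v d})

variable {H : E → ℝ} {K : ℝ}

theorem lev_zero {τ : ℝ} (h : 0 ≤ τ) : Lev 0 τ := fun _ _ => by simpa using h

theorem ok_triv (v : E) : OK e v (v, 0, 0, 0) := ⟨by simp, by simp, lev_zero le_rfl⟩

omit [NormedSpace ℝ E] in
theorem cost_nonneg (h0 : ∀ x, 0 ≤ H x) (d : E × E × W × ℝ) : 0 ≤ cost H K d := by
  unfold cost; positivity [h0 d.1, h0 d.2.1, MM_nonneg d.2.2.1]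

theorem PP_le (h0 : ∀ x, 0 ≤ H x) {v : E} {d : E × E × W × ℝ} (hd : OK e v d) :
    PP e H K v ≤ cost H K d :=
  csInf_le ⟨0, by rintro _ ⟨d, -, rfl⟩; exact cost_nonneg h0 d⟩ ⟨d, hd, rfl⟩

theorem exists_lt {v : E} {c : ℝ} (h : PP e H K v < c) : ∃ d, OK e v d ∧ cost H K d < c := by
  have hne : (cost H K '' {d | OK e v d}).Nonempty := ⟨_, _, ok_triv v, rfl⟩
  obtain ⟨_, ⟨d, hd, rfl⟩, h2⟩ := exists_lt_of_csInf_lt hne h
  exact ⟨d, hd, h2⟩

theorem PP_nonneg (h0 : ∀ x, 0 ≤ H x) (v : E) : 0 ≤ PP e H K v :=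
  le_csInf ⟨_, _, ok_triv v, rfl⟩ (by rintro _ ⟨d, -, rfl⟩; exact cost_nonneg h0 d)

theorem Quad.smul {X : Type} [AddCommGroup X] [Module ℝ X] {Q : X → ℝ} (h : Quad Q) (s : ℝ)
    (x : X) : Q (s • x) = s ^ 2 * Q x := by
  have := h s 0 x x
  simp only [zero_smul, add_zero, zero_mul, mul_zero, sub_zero] at this
  rw [this]; ring

theorem Quad.zero {X : Type} [AddCommGroup X] [Module ℝ X] {Q : X → ℝ} (h : Quad Q) :
    Q 0 = 0 := by simpa using h.smul 0 0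

theorem PP_upper (hq : Quad H) (h0 : ∀ x, 0 ≤ H x) (v : E) : PP e H K v ≤ ‖v‖ ^ 2 + H v := by
  simpa [cost, hq.zero, quad_MM.zero] using PP_le (K := K) h0 (ok_triv (e := e) v)

theorem OK.norm_sub (h : Bio e f) {v : E} {d : E × E × W × ℝ} (hd : OK e v d) :
    ‖v - d.1‖ ≤ 2 * d.2.2.2 := by
  rw [hd.1, add_assoc, add_sub_cancel_left]
  linarith [norm_add_le d.2.1 (io e d.2.2.1), hd.2.1, norm_io h hd.2.2]

theorem PP_lower (h : Bio e f) (h0 : ∀ x, 0 ≤ H x) {ε : ℝ} (hε : 0 < ε) (hK : K * ε = 2) (v : E) :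
    ‖v‖ ^ 2 ≤ (1 + ε) ^ 2 * PP e H K v := by
  rw [mul_comm, ← div_le_iff₀ (by positivity)]
  refine le_csInf ⟨_, _, ok_triv v, rfl⟩ ?_
  rintro _ ⟨d, hd, rfl⟩
  rw [div_le_iff₀ (by positivity)]
  have h1 : ‖v‖ ≤ ‖d.1‖ + ε * (K * d.2.2.2) := by
    have h2 := norm_sub_norm_le v d.1
    have h3 : ε * (K * d.2.2.2) = 2 * d.2.2.2 := by rw [← hK]; ring
    linarith [OK.norm_sub h hd]
  have h2 : ‖v‖ ^ 2 ≤ (‖d.1‖ + ε * (K * d.2.2.2)) ^ 2 := by gcongr
  have h3 : ‖d.1‖ ^ 2 + (K * d.2.2.2) ^ 2 ≤ cost H K d := by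
    unfold cost; nlinarith [h0 d.1, h0 d.2.1, MM_nonneg d.2.2.1]
  have h4 : (1 + ε ^ 2) * (‖d.1‖ ^ 2 + (K * d.2.2.2) ^ 2) ≤ (1 + ε) ^ 2 * cost H K d :=
    mul_le_mul (by nlinarith) h3 (by positivity) (by positivity)
  nlinarith [sq_nonneg (ε * ‖d.1‖ - K * d.2.2.2)]

theorem OK.comb {v v' : E} {d d' : E × E × W × ℝ} (hd : OK e v d) (hd' : OK e v' d') (s t : ℝ) :
    OK e (s • v + t • v') (s • d.1 + t • d'.1, s • d.2.1 + t • d'.2.1,
      s • d.2.2.1 + t • d'.2.2.1, |s| * d.2.2.2 + |t| * d'.2.2.2) := by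
  refine ⟨?_, ?_, hd.2.2.comb hd'.2.2⟩
  · rw [hd.1, hd'.1]
    simp only [map_add, map_smul, smul_add]
    abel
  · refine (norm_add_le _ _).trans ?_
    rw [norm_smul, norm_smul, Real.norm_eq_abs, Real.norm_eq_abs]
    exact add_le_add (mul_le_mul_of_nonneg_left hd.2.1 (abs_nonneg _))
      (mul_le_mul_of_nonneg_left hd'.2.1 (abs_nonneg _))

theorem PP_comb_le (hq : Quad H) (h0 : ∀ x, 0 ≤ H x) {v v' : E} {d d' : E × E × W × ℝ}
    (hd : OK e v d) (hd' : OK e v' d') {s t : ℝ} (hs : 0 ≤ s) (ht : 0 ≤ t) :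
    PP e H K (s • v + t • v') ≤ s * (s + t) * cost H K d + t * (s + t) * cost H K d' -
      s * t * (H (d.1 - d'.1) + H (d.2.1 - d'.2.1) + MM (d.2.2.1 - d'.2.2.1)) := by
  refine (PP_le h0 (hd.comb hd' s t)).trans ?_
  have h1 : ‖s • d.1 + t • d'.1‖ ≤ s * ‖d.1‖ + t * ‖d'.1‖ := by
    refine (norm_add_le _ _).trans ?_
    rw [norm_smul_of_nonneg hs, norm_smul_of_nonneg ht]
  have h2 : ‖s • d.1 + t • d'.1‖ ^ 2 ≤ (s * ‖d.1‖ + t * ‖d'.1‖) ^ 2 := by gcongr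
  have hst := mul_nonneg hs ht
  simp only [cost, hq s t, quad_MM s t, abs_of_nonneg hs, abs_of_nonneg ht]
  nlinarith [mul_nonneg hst (sq_nonneg (‖d.1‖ - ‖d'.1‖)),
    mul_nonneg hst (sq_nonneg (K * (d.2.2.2 - d'.2.2.2)))]

theorem le_of_pos {a b C : ℝ} (hC : 0 ≤ C) (h : ∀ η : ℝ, 0 < η → a ≤ b + C * η) : a ≤ b :=
  le_of_forall_pos_le_add fun η hη => by
    have h1 := h (η / (C + 1)) (by positivity)
    have h2 : (C + 1) * (η / (C + 1)) = η := mul_div_cancel₀ _ (by positivity)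
    have h3 : 0 < η / (C + 1) := by positivity
    linarith

theorem PP_comb (hq : Quad H) (h0 : ∀ x, 0 ≤ H x) (v v' : E) {s t : ℝ} (hs : 0 ≤ s)
    (ht : 0 ≤ t) :
    PP e H K (s • v + t • v') ≤ s * (s + t) * PP e H K v + t * (s + t) * PP e H K v' := by
  refine le_of_pos (sq_nonneg (s + t)) fun η hη => ?_
  obtain ⟨d, hd, h1⟩ := exists_lt (lt_add_of_pos_right (PP e H K v) hη)
  obtain ⟨d', hd', h2⟩ := exists_lt (lt_add_of_pos_right (PP e H K v') hη)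
  refine (PP_comb_le hq h0 hd hd' hs ht).trans ?_
  have h3 := mul_le_mul_of_nonneg_left h1.le (show 0 ≤ s * (s + t) by positivity)
  have h4 := mul_le_mul_of_nonneg_left h2.le (show 0 ≤ t * (s + t) by positivity)
  have h5 : 0 ≤ s * t * (H (d.1 - d'.1) + H (d.2.1 - d'.2.1) + MM (d.2.2.1 - d'.2.2.1)) := by
    positivity [h0 (d.1 - d'.1), h0 (d.2.1 - d'.2.1), MM_nonneg (d.2.2.1 - d'.2.2.1)]
  linarith

theorem PP_smul (hq : Quad H) (h0 : ∀ x, 0 ≤ H x) (s : ℝ) (v : E) :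
    PP e H K (s • v) ≤ s ^ 2 * PP e H K v := by
  refine le_of_pos (sq_nonneg s) fun η hη => ?_
  obtain ⟨d, hd, h1⟩ := exists_lt (lt_add_of_pos_right (PP e H K v) hη)
  have h2 := PP_le (K := K) h0 (hd.comb hd s 0)
  have h3 := mul_le_mul_of_nonneg_left h1.le (sq_nonneg s)
  simp only [cost, zero_smul, add_zero, abs_zero, zero_mul, hq.smul, quad_MM.smul, norm_smul,
    Real.norm_eq_abs, mul_pow, sq_abs] at h2 h3
  linarith

/-- The new norm. -/
noncomputable def pp (e : ℕ × ℕ → E) (K : ℝ) (hq : Quad H) (h0 : ∀ x, 0 ≤ H x) : Seminorm ℝ E :=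
  Seminorm.ofSMulLE (fun v => √(PP e H K v))
    (Real.sqrt_eq_zero'.2 (by simpa using PP_smul (e := e) (K := K) hq h0 0 0))
    (fun x y => le_of_pos (C := 2) (by norm_num) fun η hη => by
      have key : ∀ v : E, PP e H K ((√(PP e H K v) + η)⁻¹ • v) ≤ 1 := fun v => by
        refine (PP_smul hq h0 _ _).trans ?_
        rw [inv_pow, inv_mul_le_iff₀ (by positivity)]
        nlinarith [Real.sq_sqrt (PP_nonneg (e := e) (K := K) h0 v), Real.sqrt_nonneg (PP e H K v)]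
      have hx : 0 < √(PP e H K x) + η := by positivity
      have hy : 0 < √(PP e H K y) + η := by positivity
      have h := PP_comb (e := e) (K := K) hq h0 ((√(PP e H K x) + η)⁻¹ • x)
        ((√(PP e H K y) + η)⁻¹ • y) hx.le hy.le
      rw [smul_inv_smul₀ hx.ne', smul_inv_smul₀ hy.ne'] at h
      refine Real.sqrt_le_iff.2 ⟨by positivity, h.trans ?_⟩
      nlinarith [mul_le_mul_of_nonneg_left (key x) (mul_pos hx (add_pos hx hy)).le,
        mul_le_mul_of_nonneg_left (key y) (mul_pos hy (add_pos hx hy)).le])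
    (fun r x => by
      refine Real.sqrt_le_iff.2 ⟨by positivity, (PP_smul hq h0 r x).trans (le_of_eq ?_)⟩
      rw [mul_pow, Real.sq_sqrt (PP_nonneg h0 x), Real.norm_eq_abs, sq_abs])

theorem pp_sq (hq : Quad H) (h0 : ∀ x, 0 ≤ H x) (v : E) : pp e K hq h0 v ^ 2 = PP e H K v :=
  Real.sq_sqrt (PP_nonneg h0 v)

end Pool.Agent.MP917bd5.Nn
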