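import Pool.Agent.P.MP_917bd5_an.NnB

/-! Smoothness, weak uniform rotundity and flat directions of the new norm. -/

set_option autoImplicit false

namespace Pool.Agent.MP917bd5.Nn

open Metric Filter Topology Set TopologicalSpace

variable {E : Type} [NormedAddCommGroup E] [NormedSpace ℝ E]
  {e : ℕ × ℕ → E} {f : ℕ × ℕ → StrongDual ℝ E} {H : E → ℝ} {K : ℝ}

theorem PP_smooth (hq : Quad H) (h0 : ∀ x, 0 ≤ H x) {S : ℝ} {u : E}
    (hS : ∀ x : E, ‖x + u‖ ^ 2 + ‖x - u‖ ^ 2 ≤ 2 * ‖x‖ ^ 2 + S) (v : E) :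
    PP e H K (v + u) + PP e H K (v - u) ≤ 2 * PP e H K v + (S + 2 * H u) := by
  refine le_of_pos (C := 2) (by norm_num) fun η hη => ?_
  obtain ⟨d, hd, h1⟩ := exists_lt (lt_add_of_pos_right (PP e H K v) hη)
  have h2 := PP_le (e := e) (K := K) h0 (v := v + u) (d := (d.1 + u, d.2))
    ⟨by rw [hd.1]; dsimp only; abel, hd.2⟩
  have h3 := PP_le (e := e) (K := K) h0 (v := v - u) (d := (d.1 - u, d.2))
    ⟨by rw [hd.1]; dsimp only; abel, hd.2⟩
  have h4 := hq 1 1 d.1 u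
  simp only [one_smul] at h4
  simp only [cost] at h1 h2 h3
  linarith [hS d.1]

theorem PP_wur (h : Bio e f) (hq : Quad H) (h0 : ∀ x, 0 ≤ H x) (hK : 0 < K)
    (hH : ∀ (ψ : StrongDual ℝ E) (η : ℝ), 0 < η → ∃ δ : ℝ, 0 < δ ∧
      ∀ x, H x ≤ δ → |ψ x| ≤ η * (1 + ‖x‖)) (ψ : StrongDual ℝ E) (η : ℝ) (hη : 0 < η) :
    ∃ δ : ℝ, 0 < δ ∧ ∀ x y, PP e H K x ≤ 1 → PP e H K y ≤ 1 → 4 - δ ≤ PP e H K (x + y) →
      |ψ (x - y)| ≤ η := by
  let R : ℝ := 2 / K
  have hR : 0 < R := by positivity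
  let η' : ℝ := η / (7 + 4 * R)
  have hη' : 0 < η' := by positivity
  have he : η' * (7 + 4 * R) = η := div_mul_cancel₀ _ (by positivity)
  obtain ⟨δ₁, hδ₁, H1⟩ := hH ψ η' hη'
  obtain ⟨δ₂, hδ₂, H2⟩ := io_small h ψ η' hη'
  let δ : ℝ := min 1 (min δ₁ δ₂ / 5)
  have hδ : 0 < δ := by positivity
  have hδa : δ ≤ 1 := min_le_left _ _
  have hδb : 5 * δ ≤ min δ₁ δ₂ := by linarith [min_le_right 1 (min δ₁ δ₂ / 5)]
  refine ⟨δ, hδ, fun x y hx hy hxy => ?_⟩
  have bd : ∀ (v : E) (d : E × E × W × ℝ), OK e v d → cost H K d < 1 + δ →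
      ‖d.1‖ ≤ 2 ∧ d.2.2.2 ≤ R := fun v d _ hc => by
    have := h0 d.1
    have := h0 d.2.1
    have := MM_nonneg d.2.2.1
    unfold cost at hc
    refine ⟨by nlinarith [sq_nonneg (K * d.2.2.2), norm_nonneg d.1], ?_⟩
    rw [le_div_iff₀ hK]
    nlinarith [sq_nonneg ‖d.1‖]
  obtain ⟨d, hd, h1⟩ := exists_lt (hx.trans_lt (lt_add_of_pos_right 1 hδ))
  obtain ⟨d', hd', h2⟩ := exists_lt (hy.trans_lt (lt_add_of_pos_right 1 hδ))
  have h3 := PP_comb_le (K := K) hq h0 hd hd' zero_le_one zero_le_one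
  simp only [one_smul] at h3
  have a1 := h0 (d.1 - d'.1)
  have a2 := h0 (d.2.1 - d'.2.1)
  have a3 := MM_nonneg (d.2.2.1 - d'.2.2.1)
  have m1 := min_le_left δ₁ δ₂
  have m2 := min_le_right δ₁ δ₂
  have b1 := H1 (d.1 - d'.1) (by linarith)
  have b2 := H1 (d.2.1 - d'.2.1) (by linarith)
  have hl : Lev (d.2.2.1 - d'.2.2.1) (d.2.2.2 + d'.2.2.2) := by
    simpa [sub_eq_add_neg] using hd.2.2.comb (s := 1) (t := -1) hd'.2.2
  have b3 := H2 _ _ hl (by linarith)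
  obtain ⟨c1, c2⟩ := bd x d hd h1
  obtain ⟨c3, c4⟩ := bd y d' hd' h2
  have e1 : ψ (x - y) = ψ (d.1 - d'.1) + ψ (d.2.1 - d'.2.1) + ψ (io e (d.2.2.1 - d'.2.2.1)) := by
    rw [hd.1, hd'.1]
    simp only [map_add, map_sub]
    ring
  have n1 : ‖d.1 - d'.1‖ ≤ 4 := by linarith [norm_sub_le d.1 d'.1]
  have n2 : ‖d.2.1 - d'.2.1‖ ≤ 2 * R := by linarith [norm_sub_le d.2.1 d'.2.1, hd.2.1, hd'.2.1]
  have n3 : d.2.2.2 + d'.2.2.2 ≤ 2 * R := by linarith
  rw [e1]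
  refine (abs_add_three _ _ _).trans ?_
  nlinarith [mul_le_mul_of_nonneg_left n1 hη'.le, mul_le_mul_of_nonneg_left n2 hη'.le,
    mul_le_mul_of_nonneg_left n3 hη'.le]

theorem exists_tau (h : Bio e f) (hq : Quad H) (hc : Continuous H) (h0 : ∀ x, 0 ≤ H x) {v : E}
    (hv : v ≠ 0) : ∃ t γ : ℝ, 0 < t ∧ PP e H K v < γ ∧
      ∀ d, OK e v d → cost H K d < γ → t ≤ d.2.2.2 := by
  have hn : 0 < ‖v‖ := norm_pos_iff.2 hv
  have ha : 0 < ‖v‖ ^ 2 + H v := by positivity [h0 v]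
  have hb : 0 ≤ K ^ 2 * ‖v‖ ^ 2 + H v := by positivity [h0 v]
  have h1 : PP e H K v < ‖v‖ ^ 2 + H v := by
    set a := ‖v‖ ^ 2 + H v with haa
    set c := K ^ 2 * ‖v‖ ^ 2 + H v with hcc
    let s : ℝ := a / (a + c)
    have hs : 0 < s := by positivity
    have hs2 : s * (a + c) = a := div_mul_cancel₀ _ (by positivity)
    have h2 := PP_le (e := e) (K := K) h0 (v := v) (d := ((1 - s) • v, s • v, 0, s * ‖v‖))
      ⟨by simp [sub_smul], (norm_smul_of_nonneg hs.le v).le, lev_zero (by positivity)⟩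
    simp only [cost, hq.smul, quad_MM.zero, norm_smul, Real.norm_eq_abs, mul_pow, sq_abs] at h2
    have h3 : (1 - s) ^ 2 * ‖v‖ ^ 2 + (1 - s) ^ 2 * H v + K ^ 2 * (s ^ 2 * ‖v‖ ^ 2) +
        s ^ 2 * H v + 0 = a - 2 * (s * a) + s * (s * (a + c)) := by rw [haa, hcc]; ring
    rw [h3, hs2] at h2
    linarith [mul_pos hs ha]
  obtain ⟨γ, hγ1, hγ2⟩ := exists_between h1
  have hg : ContinuousAt (fun b : E => ‖b‖ ^ 2 + H b) v := by fun_prop
  obtain ⟨r, hr, h2⟩ := Metric.eventually_nhds_iff.1 (hg.eventually (lt_mem_nhds hγ2))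
  refine ⟨r / 2, γ, by positivity, hγ1, fun d hd hlt => ?_⟩
  by_contra hcon
  have h3 := h2 (y := d.1) (by
    rw [dist_comm, dist_eq_norm]; linarith [OK.norm_sub h hd, not_le.1 hcon])
  unfold cost at hlt
  nlinarith [h0 d.2.1, MM_nonneg d.2.2.1, sq_nonneg (K * d.2.2.2)]

theorem step {w : W} {τ t : ℝ} (hw : Lev w τ) (ht : 0 ≤ t) (htτ : t ≤ τ) {j : ℕ}
    (hj : ∀ m, w (j, m) = 0) (m : ℕ) :
    Lev (w + Finsupp.single (j, m) t) τ ∧
      MM (w + Finsupp.single (j, m) t) = MM w + t ^ 2 * (1 / 2) ^ m := by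
  classical
  constructor
  · intro i s
    by_cases hi : i = j
    · subst hi
      have : ∀ m' ∈ s, |(w + Finsupp.single (i, m) t : W) (i, m')| = if m = m' then t else 0 := by
        intro m' _
        rw [Finsupp.add_apply, hj, zero_add, Finsupp.single_apply]
        simp only [Prod.mk.injEq, true_and]
        split_ifs
        · exact abs_of_nonneg ht
        · exact abs_zero
      rw [Finset.sum_congr rfl this, Finset.sum_ite_eq]
      split_ifs <;> linarith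
    · refine le_trans (le_of_eq (Finset.sum_congr rfl fun m' _ => ?_)) (hw i s)
      rw [Finsupp.add_apply, Finsupp.single_eq_of_ne (fun h => hi (congrArg Prod.fst h)), add_zero]
  · refine HasSum.tsum_eq ?_
    have h := (summable_MM w).hasSum.add (hasSum_ite_eq (j, m) (t ^ 2 * (1 / 2 : ℝ) ^ m))
    have e1 : (fun n : ℕ × ℕ => (1 / 2 : ℝ) ^ n.2 * (w + Finsupp.single (j, m) t : W) n ^ 2) =
        fun n => (1 / 2 : ℝ) ^ n.2 * w n ^ 2 + if n = (j, m) then t ^ 2 * (1 / 2) ^ m else 0 := by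
      funext n
      by_cases hn : n = (j, m)
      · subst hn
        simp [hj, mul_comm]
      · rw [Finsupp.add_apply, Finsupp.single_eq_of_ne hn, if_neg hn, add_zero, add_zero]
    rw [e1]
    exact h

/-- Every nonzero vector can be moved, on all high levels at once, at almost no cost. -/
def Flat (e : ℕ × ℕ → E) (f : ℕ × ℕ → StrongDual ℝ E) (P : E → ℝ) : Prop :=
  ∀ v ≠ 0, ∃ t : ℝ, 0 < t ∧ ∀ (k : ℕ) (η : ℝ), 0 < η → ∃ v₀ : E,
    (∀ j < k, ∀ m, f (j, m) v₀ = f (j, m) v) ∧ ∀ (mm : ℕ → ℕ) (l : ℕ), k ≤ l →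
      P (v₀ + ∑ j ∈ Finset.Ico k l, (t * cc j) • e (j, mm j)) ≤
        P v + η + t ^ 2 * ∑ j ∈ Finset.Ico k l, (1 / 2) ^ mm j

theorem PP_flat (h : Bio e f) (hq : Quad H) (hc : Continuous H) (h0 : ∀ x, 0 ≤ H x) :
    Flat e f (PP e H K) := by
  classical
  intro v hv
  obtain ⟨t, γ, ht, hγ, hτ⟩ := exists_tau (K := K) h hq hc h0 hv
  refine ⟨t, ht, fun k η hη => ?_⟩
  obtain ⟨d, hd, h1⟩ := exists_lt (lt_min hγ (lt_add_of_pos_right (PP e H K v) hη))
  have h2 := hτ d hd (h1.trans_le (min_le_left _ _))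
  have h3 := h1.trans_le (min_le_right _ _)
  let w : W := d.2.2.1.filter fun n => n.1 < k
  have hw : ∀ n, w n = if n.1 < k then d.2.2.1 n else 0 := fun n => Finsupp.filter_apply _ _ _
  have hw2 : ∀ n, |w n| ≤ |d.2.2.1 n| := fun n => by
    rw [hw]; split_ifs <;> simp
  refine ⟨d.1 + d.2.1 + io e w, fun j hj m => ?_, fun mm l hl => ?_⟩
  · rw [hd.1]
    simp only [map_add, f_io h, hw, if_pos hj]
  · have key : ∃ w' : W, Lev w' d.2.2.2 ∧ (∀ j, l ≤ j → ∀ m, w' (j, m) = 0) ∧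
        io e w' = io e w + ∑ j ∈ Finset.Ico k l, (t * cc j) • e (j, mm j) ∧
        MM w' ≤ MM d.2.2.1 + t ^ 2 * ∑ j ∈ Finset.Ico k l, (1 / 2) ^ mm j := by
      induction l, hl using Nat.le_induction with
      | base =>
        refine ⟨w, fun j s => (Finset.sum_le_sum fun m _ => hw2 _).trans (hd.2.2 j s),
          fun j hj m => by rw [hw, if_neg (not_lt.2 hj)], by simp, ?_⟩
        rw [Finset.Ico_self, Finset.sum_empty, mul_zero, add_zero]
        exact (summable_MM w).tsum_le_tsum (fun n => mul_le_mul_of_nonneg_left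
          (sq_le_sq.2 (hw2 n)) (by positivity)) (summable_MM _)
      | succ l hl ih =>
        obtain ⟨w', a1, a2, a3, a4⟩ := ih
        obtain ⟨b1, b2⟩ := step a1 ht.le h2 (a2 l le_rfl) (mm l)
        refine ⟨_, b1, fun j hj m => ?_, ?_, ?_⟩
        · rw [Finsupp.add_apply, a2 j (by omega), zero_add]
          exact Finsupp.single_eq_of_ne fun h => by have := congrArg Prod.fst h; simp at this; omega
        · rw [map_add, a3, Finset.sum_Ico_succ_top hl, add_assoc, io,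
            Finsupp.linearCombination_single, smul_smul]
        · rw [b2, Finset.sum_Ico_succ_top hl]; linarith
    obtain ⟨w', a1, -, a3, a4⟩ := key
    have h4 := PP_le (e := e) (K := K) h0 (d := (d.1, d.2.1, w', d.2.2.2)) ⟨rfl, hd.2.1, a1⟩
    simp only [a3, cost] at h4 h3
    rw [add_assoc]
    linarith

end Pool.Agent.MP917bd5.Nn
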