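import Pool.Agent.P.MP_917bd5_an.NnC

/-! The closed set without nearest points. -/

set_option autoImplicit false

namespace Pool.Agent.MP917bd5.Nn

open Metric Filter Topology Set TopologicalSpace

variable {E : Type} [NormedAddCommGroup E] [NormedSpace ℝ E]
  {e : ℕ × ℕ → E} {f : ℕ × ℕ → StrongDual ℝ E}

/-- The closed set. -/
def GG (f : ℕ × ℕ → StrongDual ℝ E) : Set E :=
  {y | ∃ β : ℕ → ℕ, ∀ j l : ℕ,
    f (j, β j) y + (1 / 4) ^ j + ∑ i ∈ Finset.Ico (j + 1) l, (1 / 2 : ℝ) ^ β i ≤ 0}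

theorem level_tendsto (h : Bio e f) (j : ℕ) (y : E) :
    Tendsto (fun m => f (j, m) y) atTop (𝓝 0) :=
  (h.star y).comp (Nat.cofinite_eq_atTop ▸ (Prod.mk_right_injective j).tendsto_cofinite)

theorem series [CompleteSpace E] (h : Bio e f) (C : ℝ) (hC : 0 ≤ C) (k : ℕ) (mm : ℕ → ℕ) :
    ∃ u : E, Tendsto (fun l => ∑ j ∈ Finset.Ico k l, (C * cc j) • e (j, mm j)) atTop (𝓝 u) ∧
      (∀ j, k ≤ j → f (j, mm j) u = C * cc j) ∧ ∀ j < k, ∀ m, f (j, m) u = 0 := by
  have hs : Summable fun j => (C * cc j) • e (j, mm j) :=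
    Summable.of_norm_bounded (summable_geometric_two.mul_left C) fun j => by
      rw [norm_smul_of_nonneg (mul_nonneg hC (cc_pos j).le), mul_assoc]
      refine mul_le_mul_of_nonneg_left ?_ hC
      have := mul_le_mul_of_nonneg_left (h.ne (j, mm j)) (cc_pos j).le
      have h2 : (0 : ℝ) < (1 / 2) ^ j := by positivity
      unfold cc at this ⊢
      linarith
  have ht : Tendsto (fun l => ∑ j ∈ Finset.Ico k l, (C * cc j) • e (j, mm j)) atTop
      (𝓝 (∑' j, (C * cc j) • e (j, mm j) - ∑ j ∈ Finset.range k, (C * cc j) • e (j, mm j))) :=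
    (hs.hasSum.tendsto_sum_nat.sub_const _).congr' ((eventually_ge_atTop k).mono fun l hl =>
      (Finset.sum_Ico_eq_sub _ hl).symm)
  refine ⟨_, ht, fun j hj => ?_, fun j hj m => ?_⟩
  · refine tendsto_nhds_unique (((f (j, mm j)).continuous.tendsto _).comp ht)
      (tendsto_const_nhds.congr' ((eventually_gt_atTop j).mono fun l hl => ?_))
    simp only [Function.comp, map_sum, map_smul]
    rw [Finset.sum_eq_single_of_mem j (Finset.mem_Ico.2 ⟨hj, hl⟩), h.one, smul_eq_mul, mul_one]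
    intro i _ hi
    rw [h.zero _ _ fun h => hi (congrArg Prod.fst h).symm, smul_zero]
  · refine tendsto_nhds_unique (((f (j, m)).continuous.tendsto _).comp ht)
      (tendsto_const_nhds.congr fun l => ?_)
    simp only [Function.comp, map_sum, map_smul]
    refine (Finset.sum_eq_zero fun i hi => ?_).symm
    rw [h.zero _ _ fun h => ?_, smul_zero]
    have h1 : j = i := congrArg Prod.fst h
    have h2 := (Finset.mem_Ico.1 hi).1
    omega

theorem GG_nonempty [CompleteSpace E] (h : Bio e f) : (GG f).Nonempty := by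
  obtain ⟨u, -, h1, -⟩ := series h 12 (by norm_num) 0 id
  refine ⟨-u, id, fun j l => ?_⟩
  have h2 : ∑ i ∈ Finset.Ico (j + 1) l, (1 / 2 : ℝ) ^ i ≤ (1 / 2) ^ (j + 1) / (1 - 1 / 2) :=
    geom_sum_Ico_le_of_lt_one (by norm_num) (by norm_num)
  have h3 : (1 / 4 : ℝ) ^ j ≤ (1 / 2) ^ j := by gcongr; norm_num
  rw [map_neg, h1 j (Nat.zero_le j), cc]
  rw [pow_succ, le_div_iff₀ (by norm_num)] at h2
  simp only [id]
  linarith

theorem GG_le {y : E} {β : ℕ → ℕ} (h : ∀ j l : ℕ,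
    f (j, β j) y + (1 / 4) ^ j + ∑ i ∈ Finset.Ico (j + 1) l, (1 / 2 : ℝ) ^ β i ≤ 0) (j : ℕ) :
    f (j, β j) y ≤ -(1 / 4) ^ j := by
  have := h j 0
  simp only [Finset.Ico_eq_empty_of_le (Nat.zero_le _), Finset.sum_empty] at this
  linarith

theorem GG_closed (h : Bio e f) : IsClosed (GG f) := by
  refine isClosed_of_closure_subset fun y hy => ?_
  obtain ⟨z, hz1, hz2⟩ := mem_closure_iff_seq_limit.1 hy
  choose β hβ using hz1
  let U : Ultrafilter ℕ := Ultrafilter.of atTop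
  have hU : (U : Filter ℕ) ≤ atTop := Ultrafilter.of_le _
  have key : ∀ j, ∃ b, ∀ᶠ n in (U : Filter ℕ), β n j = b := fun j => by
    have hp : (0 : ℝ) < (1 / 4) ^ j / 2 := by positivity
    have hfin : {m | ¬ -((1 / 4 : ℝ) ^ j / 2) < f (j, m) y}.Finite := by
      have := (level_tendsto h j y).eventually (lt_mem_nhds (neg_lt_zero.2 hp))
      rwa [← Nat.cofinite_eq_atTop] at this
    have hmem : {m | ¬ -((1 / 4 : ℝ) ^ j / 2) < f (j, m) y} ∈ U.map fun n => β n j := by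
      refine hU ((Metric.tendsto_nhds.1 hz2 ((1 / 4) ^ j / 8) (by positivity)).mono fun n hn => ?_)
      have h1 := GG_le (hβ n) j
      have h2 : |f (j, β n j) (z n - y)| ≤ 4 * ‖z n - y‖ :=
        ((f _).le_opNorm _).trans (mul_le_mul_of_nonneg_right (h.nf _) (norm_nonneg _))
      rw [dist_eq_norm] at hn
      rw [map_sub] at h2
      change ¬ -((1 / 4 : ℝ) ^ j / 2) < f (j, β n j) y
      linarith [neg_abs_le (f (j, β n j) (z n) - f (j, β n j) y)]
    obtain ⟨b, -, hb⟩ := Ultrafilter.eq_pure_of_finite_mem hfin hmem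
    have h3 : {b} ∈ U.map fun n => β n j := by rw [hb]; exact singleton_mem_pure
    exact ⟨b, h3⟩
  choose b hb using key
  refine ⟨b, fun j l => ?_⟩
  have ht := ((((f (j, b j)).continuous.tendsto y).comp (hz2.mono_left hU)).add_const
    ((1 / 4 : ℝ) ^ j)).add_const (∑ i ∈ Finset.Ico (j + 1) l, (1 / 2 : ℝ) ^ b i)
  refine le_of_tendsto ht ?_
  filter_upwards [hb j, (eventually_all_finset (Finset.Ico (j + 1) l)).2 fun i _ => hb i]
    with n h1 h2
  have h3 := hβ n j l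
  rw [h1, Finset.sum_congr rfl fun i hi => by rw [h2 i hi]] at h3
  exact h3

theorem GG_interior (h : Bio e f) : interior (GG f) = ∅ := by
  rw [interior_eq_empty_iff_dense_compl]
  refine h.dense.mono fun y hy ⟨β, hβ⟩ => ?_
  have hi : Function.Injective fun j => (j, β j) := fun _ _ h => congrArg Prod.fst h
  obtain ⟨j, hj⟩ := (hi.tendsto_cofinite.eventually hy).exists
  have h1 := GG_le hβ j
  have h2 : (0 : ℝ) < (1 / 4) ^ j := by positivity
  linarith

theorem geo (a l : ℕ) : ∑ i ∈ Finset.Ico a l, (1 / 4 : ℝ) ^ i ≤ 4 / 3 * (1 / 4) ^ a := by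
  have h : ∑ i ∈ Finset.Ico a l, (1 / 4 : ℝ) ^ i ≤ (1 / 4) ^ a / (1 - 1 / 4) :=
    geom_sum_Ico_le_of_lt_one (by norm_num) (by norm_num)
  rw [le_div_iff₀ (by norm_num)] at h
  linarith

theorem GG_better [CompleteSpace E] (h : Bio e f) {P : E → ℝ} (hc : Continuous P)
    (hs : ∀ (s : ℝ) (v : E), P (s • v) ≤ s ^ 2 * P v) (hp : ∀ v ≠ 0, 0 < P v) (hF : Flat e f P)
    {x g : E} (hx : x ∉ GG f) (hg : g ∈ GG f) : ∃ g' ∈ GG f, P (x - g') < P (x - g) := by
  have hv : x - g ≠ 0 := fun h0 => hx (by rwa [sub_eq_zero.1 h0])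
  obtain ⟨β, hβ⟩ := hg
  set v := x - g with hvv
  have hP := hp v hv
  obtain ⟨t, ht, hF⟩ := hF v hv
  obtain ⟨k, hk⟩ := exists_pow_lt_of_lt_one (show 0 < t / 36 by positivity)
    (show (1 / 2 : ℝ) < 1 by norm_num)
  have htc : ∀ j, k ≤ j → 6 * (1 / 4) ^ j ≤ t * cc j := fun j hj => by
    have h1 : (1 / 2 : ℝ) ^ j ≤ (1 / 2) ^ k := pow_le_pow_of_le_one (by norm_num) (by norm_num) hj
    have h2 : (1 / 4 : ℝ) ^ j = (1 / 2) ^ j * (1 / 2) ^ j := by rw [← mul_pow]; norm_num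
    have h3 : (0 : ℝ) < (1 / 2) ^ j := by positivity
    rw [h2, cc]
    nlinarith
  set σ : ℝ := (1 / 2) ^ β k with hσ
  have hσ0 : 0 < σ := by positivity
  have hσ1 : σ ≤ 1 := pow_le_one₀ (by norm_num) (by norm_num)
  let θ : ℝ := σ / (8 * (‖v‖ + 1))
  have hθ0 : 0 < θ := by positivity
  have hθ : θ * (8 * (‖v‖ + 1)) = σ := div_mul_cancel₀ _ (by positivity)
  have hθv : 0 ≤ θ * ‖v‖ := by positivity
  have hθ1 : θ ≤ 1 / 2 := by linarith
  let η : ℝ := θ * P v / 2
  have hη : 0 < η := by positivity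
  obtain ⟨v₀, h1, h2⟩ := hF k η hη
  let ρ : ℝ := min (σ / 4) (η / (2 * t ^ 2))
  have hρ : 0 < ρ := by positivity
  have hρ1 : ρ ≤ σ / 4 := min_le_left _ _
  have hρ2 : ρ * (2 * t ^ 2) ≤ η := (le_div_iff₀ (by positivity)).1 (min_le_right _ _)
  have hm : ∀ j, ∃ m, f (j, m) (x - (1 - θ) • v₀) < (1 / 4) ^ j ∧
      (1 / 2 : ℝ) ^ m < ρ * (1 / 4) ^ j := fun j =>
    (((level_tendsto h j _).eventually (gt_mem_nhds (by positivity))).and
      ((tendsto_pow_atTop_nhds_zero_of_lt_one (by norm_num) (by norm_num)).eventually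
        (gt_mem_nhds (by positivity)))).exists
  choose mm hm1 hm2 using hm
  have hsum : ∀ a l, ∑ i ∈ Finset.Ico a l, (1 / 2 : ℝ) ^ mm i ≤ ρ * (4 / 3 * (1 / 4) ^ a) :=
    fun a l => by
      refine (Finset.sum_le_sum fun i _ => (hm2 i).le).trans ?_
      rw [← Finset.mul_sum]
      exact mul_le_mul_of_nonneg_left (geo a l) hρ.le
  have hq : ∀ a : ℕ, (0 : ℝ) < (1 / 4) ^ a ∧ (1 / 4 : ℝ) ^ a ≤ 1 := fun a =>
    ⟨by positivity, pow_le_one₀ (by norm_num) (by norm_num)⟩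
  have hsum2 : ∀ l, ∑ i ∈ Finset.Ico k l, (1 / 2 : ℝ) ^ mm i ≤ 2 * ρ := fun l => by
    nlinarith [hsum k l, hq k]
  obtain ⟨u, u1, u2, u3⟩ := series h t ht.le k mm
  have hP' : P (v₀ + u) ≤ P v + 2 * η := by
    refine le_of_tendsto ((hc.tendsto _).comp (u1.const_add v₀))
      ((eventually_ge_atTop k).mono fun l hl => (h2 mm l hl).trans ?_)
    nlinarith [mul_le_mul_of_nonneg_left (hsum2 l) (sq_nonneg t)]
  refine ⟨x - (1 - θ) • (v₀ + u), ⟨fun j => if j < k then β j else mm j, fun j l => ?_⟩, ?_⟩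
  · by_cases hj : j < k
    · have e1 : f (j, β j) (x - (1 - θ) • (v₀ + u)) = f (j, β j) g + θ * f (j, β j) v := by
        rw [map_sub, map_smul, map_add, h1 j hj, u3 j hj, hvv, map_sub, smul_eq_mul]; ring
      have e2 : f (j, β j) v ≤ 4 * ‖v‖ := (le_abs_self _).trans
        (((f _).le_opNorm _).trans (mul_le_mul_of_nonneg_right (h.nf _) (norm_nonneg _)))
      have e3 := hβ j (k + 1)
      rw [Finset.sum_Ico_succ_top hj] at e3
      have e4 : ∑ i ∈ Finset.Ico (j + 1) l, (1 / 2 : ℝ) ^ (if i < k then β i else mm i) ≤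
          ∑ i ∈ Finset.Ico (j + 1) k, (1 / 2 : ℝ) ^ β i +
            ∑ i ∈ Finset.Ico k (max l k), (1 / 2 : ℝ) ^ mm i := by
        refine (Finset.sum_le_sum_of_subset_of_nonneg
          (Finset.Ico_subset_Ico_right (le_max_left l k)) fun _ _ _ => by positivity).trans ?_
        rw [← Finset.sum_Ico_consecutive _ hj (le_max_right l k)]
        exact le_of_eq (congrArg₂ _
          (Finset.sum_congr rfl fun i hi => by rw [if_pos (Finset.mem_Ico.1 hi).2])
          (Finset.sum_congr rfl fun i hi => by rw [if_neg (not_lt.2 (Finset.mem_Ico.1 hi).1)]))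
      simp only [if_pos hj, e1]
      linarith [hsum2 (max l k), mul_le_mul_of_nonneg_left e2 hθ0.le]
    · have e1 : f (j, mm j) (x - (1 - θ) • (v₀ + u)) =
          f (j, mm j) (x - (1 - θ) • v₀) - (1 - θ) * (t * cc j) := by
        simp only [map_sub, map_smul, map_add, u2 j (not_lt.1 hj), smul_eq_mul]; ring
      have e4 : ∑ i ∈ Finset.Ico (j + 1) l, (1 / 2 : ℝ) ^ (if i < k then β i else mm i) =
          ∑ i ∈ Finset.Ico (j + 1) l, (1 / 2 : ℝ) ^ mm i :=
        Finset.sum_congr rfl fun i hi => by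
          rw [if_neg (by have := (Finset.mem_Ico.1 hi).1; omega)]
      have e5 := hsum (j + 1) l
      have e6 := htc j (not_lt.1 hj)
      rw [pow_succ] at e5
      simp only [if_neg hj, e1, e4]
      nlinarith [hm1 j, hq j]
  · rw [sub_sub_cancel]
    refine (hs _ _).trans_lt ((mul_le_mul_of_nonneg_left hP' (sq_nonneg _)).trans_lt ?_)
    have e1 : (1 - θ) ^ 2 * (P v + 2 * η) = P v - θ * P v * (1 + θ * (1 - θ)) := by
      simp only [η]; ring
    have e2 : 0 < θ * P v * (1 + θ * (1 - θ)) := by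
      have : 0 < 1 - θ := by linarith
      positivity
    linarith

end Pool.Agent.MP917bd5.Nn
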