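import Pool.Agent.P.MP_917bd5_an.StB

set_option autoImplicit false

namespace Pool.Agent.MP917bd5.St

open Set Metric Filter Topology

/-- a copy of `X`, to carry a new norm -/
def Syn (X : Type) : Type := X

instance (X : Type) [h : AddCommGroup X] : AddCommGroup (Syn X) := h
instance (X : Type) [AddCommGroup X] [h : Module ℝ X] : Module ℝ (Syn X) := h

/-- the identity map from the copy to `X` -/
def synEquiv (X : Type) [AddCommGroup X] [Module ℝ X] : Syn X ≃ₗ[ℝ] X := LinearEquiv.refl ℝ X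

theorem renorm_main {X : Type} [NormedAddCommGroup X] [NormedSpace ℝ X] [CompleteSpace X]
    (N Φ : Seminorm ℝ X) (h1 : ∀ x, ‖x‖ ≤ 2 * Φ x) (h2 : ∀ x, Φ x ≤ N x) (h3 : ∀ x, N x ≤ ‖x‖)
    (hsc : ∀ x y, N x = 1 → N y = 1 → x ≠ y → N (x + y) < 2)
    (O : ℕ → Set X) (hO : ∀ n, IsOpen (O n)) (hD : ∀ n, Dense (O n))
    (hU : ∀ x, (∀ n, x ∈ O n) →
      ¬ {u : X | ‖u‖ ≤ 1 ∧ ∀ s : ℝ, 0 ≤ s → Φ x + s ≤ Φ (x + s • u)}.Countable) :
    ∃ (E : Type) (_ : NormedAddCommGroup E) (_ : NormedSpace ℝ E), CompleteSpace E ∧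
      Nonempty (E ≃L[ℝ] X) ∧
      (∀ x y : E, ‖x‖ = 1 → ‖y‖ = 1 → x ≠ y → ‖x + y‖ < 2) ∧
      ∃ G : Set E, IsClosed G ∧ G.Nonempty ∧
        IsMeagre {x | {y ∈ G | dist x y = infDist x G}.Countable} := by
  let ν : AddGroupNorm (Syn X) :=
    { toFun := fun x => N (synEquiv X x)
      map_zero' := by rw [map_zero, map_zero]
      add_le' := fun x y => by rw [map_add]; exact map_add_le_add N _ _
      neg' := fun x => by rw [map_neg, map_neg_eq_map]
      eq_zero_of_map_eq_zero' := fun x hx => by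
        have h4 := h1 (synEquiv X x)
        have h5 := h2 (synEquiv X x)
        have h6 : ‖synEquiv X x‖ ≤ 0 := by linarith
        exact (synEquiv X).map_eq_zero_iff.1 (norm_le_zero_iff.1 h6) }
  let i1 : NormedAddCommGroup (Syn X) := ν.toNormedAddCommGroup
  have hn : ∀ x : Syn X, ‖x‖ = N (synEquiv X x) := fun x => rfl
  let i2 : NormedSpace ℝ (Syn X) :=
    { norm_smul_le := fun c x => by
        rw [hn, hn, map_smul, map_smul_eq_mul] }
  let T : Syn X ≃L[ℝ] X := (synEquiv X).toContinuousLinearEquivOfBounds 2 1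
    (fun x => by rw [hn]; linarith [h1 (synEquiv X x), h2 (synEquiv X x)])
    (fun x => by rw [hn, LinearEquiv.apply_symm_apply, one_mul]; exact h3 x)
  have hT : ∀ x, T x = synEquiv X x := fun x => rfl
  have hc : CompleteSpace (Syn X) :=
    (completeSpace_congr (e := T.toLinearEquiv.toEquiv) T.isUniformEmbedding).2 inferInstance
  refine ⟨Syn X, i1, i2, hc, ⟨T⟩, ?_, ?_⟩
  · intro x y hx hy hxy
    rw [hn, map_add]
    exact hsc _ _ hx hy fun h => hxy ((synEquiv X).injective h)
  · refine cells_main (Φ.comp (synEquiv X).toLinearMap) (fun x => ?_) (fun x => ?_)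
      (fun n => T ⁻¹' O n) (fun n => (hO n).preimage T.continuous)
      (fun n => (hD n).preimage T.toHomeomorph.isOpenMap) ?_
    · rw [hn]; exact (h3 _).trans (h1 _)
    · rw [hn]; exact h2 _
    · intro x hx hcount
      apply hU (synEquiv X x) hx
      refine (hcount.preimage_of_injOn (synEquiv X).symm.injective.injOn).mono ?_
      rintro u ⟨hu1, hu2⟩
      refine ⟨?_, fun s hs => ?_⟩
      · rw [hn, LinearEquiv.apply_symm_apply]; exact (h3 u).trans hu1
      · have := hu2 s hs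
        simpa [Seminorm.comp_apply] using this

end Pool.Agent.MP917bd5.St
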