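import Pool.Agent.P.MP_917bd5_an.NnD
import Pool.Agent.P.MP_917bd5_an.StC

/-! Transport of the construction to a copy of the space that carries the new norm. -/

set_option autoImplicit false

namespace Pool.Agent.MP917bd5.Nn

open Metric Set Pool.Agent.MP917bd5.St

theorem refl_transfer {E F : Type} [NormedAddCommGroup E] [NormedSpace ℝ E]
    [NormedAddCommGroup F] [NormedSpace ℝ F] (T : E ≃L[ℝ] F)
    (hr : Function.Surjective (NormedSpace.inclusionInDoubleDual ℝ E)) :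
    Function.Surjective (NormedSpace.inclusionInDoubleDual ℝ F) := by
  intro ξ
  let A : StrongDual ℝ E →L[ℝ] StrongDual ℝ F :=
    (ContinuousLinearMap.compL ℝ F E ℝ).flip (T.symm : F →L[ℝ] E)
  obtain ⟨x, hx⟩ := hr (ξ.comp A)
  refine ⟨T x, ContinuousLinearMap.ext fun g => ?_⟩
  have h1 : A (g.comp (T : E →L[ℝ] F)) = g := ContinuousLinearMap.ext fun y => by simp [A]
  have h2 := congrArg (fun η : StrongDual ℝ (StrongDual ℝ E) => η (g.comp (T : E →L[ℝ] F))) hx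
  simp only [ContinuousLinearMap.comp_apply, h1] at h2
  exact h2

theorem main (E : Type) [NormedAddCommGroup E] [NormedSpace ℝ E] [CompleteSpace E]
    [TopologicalSpace.SeparableSpace E] (hE : ¬ FiniteDimensional ℝ E)
    (hr : Function.Surjective (NormedSpace.inclusionInDoubleDual ℝ E)) (ε : ℝ) (hε : 0 < ε) :
    ∃ (F : Type) (_ : NormedAddCommGroup F) (_ : NormedSpace ℝ F) (T : E ≃L[ℝ] F),
      CompleteSpace F ∧ Function.Surjective (NormedSpace.inclusionInDoubleDual ℝ F) ∧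
      (∀ x : E, ‖x‖ ≤ (1 + ε) * ‖T x‖ ∧ ‖T x‖ ≤ (1 + ε) * ‖x‖) ∧
      (∀ x y : F, ‖x‖ = 1 → ‖y‖ = 1 → x ≠ y → ‖x + y‖ < 2) ∧
      (∀ (f : StrongDual ℝ F) (η : ℝ), 0 < η → ∃ δ : ℝ, 0 < δ ∧
        ∀ x y : F, ‖x‖ ≤ 1 → ‖y‖ ≤ 1 → 2 - δ ≤ ‖x + y‖ → |f (x - y)| ≤ η) ∧
      ((∃ S : ℝ, ∀ x h : E, ‖x + h‖ ^ 2 + ‖x - h‖ ^ 2 ≤ 2 * ‖x‖ ^ 2 + S * ‖h‖ ^ 2) →
        ∃ S : ℝ, ∀ x h : F, ‖x + h‖ ^ 2 + ‖x - h‖ ^ 2 ≤ 2 * ‖x‖ ^ 2 + S * ‖h‖ ^ 2) ∧
      ∃ G : Set F, IsClosed G ∧ G.Nonempty ∧ IsNowhereDense G ∧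
        (∀ x : F, x ∉ G → ∀ y ∈ G, Metric.infDist x G < dist x y) ∧
        {x : F | ∃! y : F, y ∈ G ∧ dist x y = Metric.infDist x G} = G := by
  have := K.separable_dual hr
  obtain ⟨e, f, hb⟩ := exists_bio hE
  obtain ⟨H, hq, hc, h0, hκ, hH⟩ := exists_form (E := E) hε
  let N : Seminorm ℝ E := pp e (2 / ε) hq h0
  have hN : ∀ x, N x ^ 2 = PP e H (2 / ε) x := pp_sq hq h0
  have h1 : ∀ x, ‖x‖ ≤ (1 + ε) * N x := fun x =>
    le_of_pow_le_pow_left₀ two_ne_zero (by positivity) (by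
      rw [mul_pow, hN]; exact PP_lower hb h0 hε (div_mul_cancel₀ _ hε.ne') x)
  have h2 : ∀ x, N x ≤ (1 + ε) * ‖x‖ := fun x =>
    le_of_pow_le_pow_left₀ two_ne_zero (by positivity) (by
      rw [hN]
      nlinarith [PP_upper (e := e) (K := 2 / ε) hq h0 x, hκ x, mul_nonneg hε.le (sq_nonneg ‖x‖),
        sq_nonneg (ε * ‖x‖)])
  let ν : AddGroupNorm (Syn E) :=
    { toFun := fun x => N (synEquiv E x)
      map_zero' := by rw [map_zero, map_zero]
      add_le' := fun x y => by rw [map_add]; exact map_add_le_add N _ _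
      neg' := fun x => by rw [map_neg, map_neg_eq_map]
      eq_zero_of_map_eq_zero' := fun x hx => by
        have h4 := h1 (synEquiv E x)
        rw [hx, mul_zero] at h4
        exact (synEquiv E).map_eq_zero_iff.1 (norm_le_zero_iff.1 h4) }
  let i1 : NormedAddCommGroup (Syn E) := ν.toNormedAddCommGroup
  have hn : ∀ x : Syn E, ‖x‖ = N (synEquiv E x) := fun x => rfl
  let i2 : NormedSpace ℝ (Syn E) :=
    { norm_smul_le := fun c x => by rw [hn, hn, map_smul, map_smul_eq_mul] }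
  let T : E ≃L[ℝ] Syn E := (synEquiv E).symm.toContinuousLinearEquivOfBounds (1 + ε) (1 + ε)
    (fun x => h2 x) (fun x => h1 (synEquiv E x))
  have hT : ∀ x, ‖T x‖ = N x := fun x => rfl
  have wur : ∀ (g : StrongDual ℝ (Syn E)) (η : ℝ), 0 < η → ∃ δ : ℝ, 0 < δ ∧
      ∀ x y : Syn E, ‖x‖ ≤ 1 → ‖y‖ ≤ 1 → 2 - δ ≤ ‖x + y‖ → |g (x - y)| ≤ η := by
    intro g η hη
    obtain ⟨δ, hδ, h⟩ := PP_wur (K := 2 / ε) hb hq h0 (by positivity) hH
      (g.comp (T : E →L[ℝ] Syn E)) η hη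
    refine ⟨min 1 (δ / 4), by positivity, fun x y hx hy hxy => ?_⟩
    obtain ⟨x, rfl⟩ := T.surjective x
    obtain ⟨y, rfl⟩ := T.surjective y
    rw [← map_add] at hxy
    rw [← map_sub]
    rw [hT] at hx hy hxy
    refine h x y ?_ ?_ ?_ <;> rw [← hN]
    · exact pow_le_one₀ (apply_nonneg N x) hx
    · exact pow_le_one₀ (apply_nonneg N y) hy
    · nlinarith [min_le_left 1 (δ / 4), min_le_right 1 (δ / 4), sq_nonneg (N (x + y) - 2)]
  have hG : ∀ x : Syn E, x ∉ T.symm ⁻¹' GG f → ∀ y ∈ T.symm ⁻¹' GG f,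
      infDist x (T.symm ⁻¹' GG f) < dist x y := by
    intro x hx y hy
    have hPc : Continuous (PP e H (2 / ε)) := by
      have : Continuous fun x => ‖T x‖ ^ 2 := by fun_prop
      simpa only [hT, hN] using this
    obtain ⟨g, hg1, hg2⟩ := GG_better hb hPc (PP_smul hq h0) (fun v hv => by
      have h3 := PP_lower hb h0 hε (div_mul_cancel₀ 2 hε.ne') v
      have h4 : 0 < ‖v‖ ^ 2 := by positivity
      exact (mul_pos_iff_of_pos_left (by positivity)).1 (h4.trans_le h3))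
      (PP_flat hb hq hc h0) (x := T.symm x) (g := T.symm y) hx hy
    refine (infDist_le_dist_of_mem (y := T g) (by simpa using hg1)).trans_lt ?_
    rw [← hN, ← hN, ← hT, ← hT, map_sub, map_sub, T.apply_symm_apply, T.apply_symm_apply] at hg2
    rw [dist_eq_norm, dist_eq_norm]
    exact lt_of_pow_lt_pow_left₀ 2 (norm_nonneg _) hg2
  have hcl : IsClosed (T.symm ⁻¹' GG f) := (GG_closed hb).preimage T.symm.continuous
  refine ⟨Syn E, i1, i2, T,
    (completeSpace_congr (e := T.toLinearEquiv.toEquiv) T.isUniformEmbedding).1 inferInstance,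
    refl_transfer T hr, fun x => ⟨h1 x, h2 x⟩, fun x y hx hy hxy => ?_, wur, ?_,
    T.symm ⁻¹' GG f, hcl, (GG_nonempty hb).preimage T.symm.surjective, ?_, hG, ?_⟩
  · by_contra hcon
    obtain ⟨g, -, hg⟩ := exists_dual_vector'' ℝ (x - y)
    have h3 : 0 < ‖x - y‖ := norm_pos_iff.2 (sub_ne_zero.2 hxy)
    obtain ⟨δ, hδ, h⟩ := wur g (‖x - y‖ / 2) (by positivity)
    have h4 := h x y hx.le hy.le (by linarith [not_lt.1 hcon])
    have h5 : g (x - y) = ‖x - y‖ := hg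
    linarith [le_abs_self (g (x - y))]
  · rintro ⟨S, hS⟩
    refine ⟨(|S| + 2 * ε) * (1 + ε) ^ 2, fun x u => ?_⟩
    obtain ⟨x, rfl⟩ := T.surjective x
    obtain ⟨u, rfl⟩ := T.surjective u
    rw [← map_add, ← map_sub, hT, hT, hT, hT, hN, hN, hN, hN]
    have h3 := PP_smooth (e := e) (K := 2 / ε) hq h0 (fun x => hS x u) x
    have h4 := mul_le_mul_of_nonneg_left (PP_lower hb h0 hε (div_mul_cancel₀ 2 hε.ne') u)
      (show 0 ≤ |S| + 2 * ε by positivity)
    nlinarith [hκ u, mul_le_mul_of_nonneg_right (le_abs_self S) (sq_nonneg ‖u‖)]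
  · rw [hcl.isNowhereDense_iff]
    have h3 := T.symm.toHomeomorph.preimage_interior (GG f)
    rw [GG_interior hb] at h3
    exact h3.symm
  · ext x
    constructor
    · rintro ⟨y, ⟨hy1, hy2⟩, -⟩
      by_contra hx
      exact (hG x hx y hy1).ne' hy2
    · intro hx
      refine ⟨x, ⟨hx, by rw [dist_self, infDist_zero_of_mem hx]⟩, fun y hy => ?_⟩
      exact (dist_eq_zero.1 (hy.2.trans (infDist_zero_of_mem hx))).symm

end Pool.Agent.MP917bd5.Nn
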