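import Mathlib

set_option autoImplicit false

namespace Pool.Agent.MP917bd5.St

open Cardinal Set

/-- countably supported functions with values in `[0,1)` -/
def Nice {Γ : Type} (G : Γ → ℝ) : Prop :=
  (Function.support G).Countable ∧ ∀ ξ, 0 ≤ G ξ ∧ G ξ < 1

/-- the book-keeping property of the index set -/
def Book {Γ : Type} [LinearOrder Γ] (e : Γ → Γ → ℝ) : Prop :=
  (∀ γ, Nice (e γ)) ∧
    ∀ G : Γ → ℝ, Nice G → ∀ S : Set Γ, S.Countable → ∃ γ, (∀ s ∈ S, s < γ) ∧ e γ = G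

lemma nice_zero {Γ : Type} : Nice (fun _ : Γ => (0 : ℝ)) := by
  refine ⟨?_, fun _ => ⟨le_rfl, one_pos⟩⟩
  have : Function.support (fun _ : Γ => (0 : ℝ)) = ∅ := by
    ext x; simp
  rw [this]; exact countable_empty

lemma card_nice_le (Γ : Type) (h : #Γ ≤ 𝔠) : #{G : Γ → ℝ // Nice G} ≤ 𝔠 := by
  let φ : {G : Γ → ℝ // Nice G} → {t : Set (Γ × ℝ) // #t ≤ ℵ₀} := fun G =>
    ⟨(fun ξ => (ξ, G.1 ξ)) '' Function.support G.1,
      le_aleph0_iff_set_countable.2 (G.2.1.image _)⟩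
  have hφ : Function.Injective φ := by
    intro G H hGH
    have h1 : (fun ξ => (ξ, G.1 ξ)) '' Function.support G.1
        = (fun ξ => (ξ, H.1 ξ)) '' Function.support H.1 := congrArg Subtype.val hGH
    apply Subtype.ext
    funext ξ
    by_cases hG : G.1 ξ = 0
    · by_cases hH : H.1 ξ = 0
      · rw [hG, hH]
      · have : (ξ, H.1 ξ) ∈ (fun ξ => (ξ, G.1 ξ)) '' Function.support G.1 := by
          rw [h1]; exact ⟨ξ, hH, rfl⟩
        obtain ⟨a, -, ha⟩ := this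
        simp only [Prod.mk.injEq] at ha
        rw [← ha.2, ha.1]
    · have : (ξ, G.1 ξ) ∈ (fun ξ => (ξ, H.1 ξ)) '' Function.support H.1 := by
        rw [← h1]; exact ⟨ξ, hG, rfl⟩
      obtain ⟨a, -, ha⟩ := this
      simp only [Prod.mk.injEq] at ha
      rw [← ha.2, ha.1]
  refine (mk_le_of_injective hφ).trans ((mk_bounded_set_le _ _).trans ?_)
  have h2 : max #(Γ × ℝ) ℵ₀ ≤ 𝔠 := by
    refine max_le ?_ aleph0_le_continuum
    rw [mk_prod, lift_id, lift_id, mk_real]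
    calc #Γ * 𝔠 ≤ 𝔠 * 𝔠 := mul_le_mul_left h _
      _ = 𝔠 := continuum_mul_self
  calc max #(Γ × ℝ) ℵ₀ ^ ℵ₀ ≤ 𝔠 ^ ℵ₀ := power_le_power_right h2
    _ = 𝔠 := continuum_power_aleph0

lemma bdd_omega1 (S : Set (ℵ₁ : Cardinal.{0}).ord.ToType) (hS : S.Countable) :
    ∃ a, ∀ s ∈ S, s < a := by
  have h1 : (⋃ s ∈ S, Iic s).Countable := by
    refine hS.biUnion fun s _ => ?_
    rw [← Iio_insert]
    refine Countable.insert _ ?_
    exact le_aleph0_iff_set_countable.1 (lt_aleph_one_iff.1 (mk_Iio_toType_ord_lt s))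
  by_contra hc
  push Not at hc
  have h2 : (⋃ s ∈ S, Iic s) = Set.univ := by
    refine eq_univ_of_forall fun a => ?_
    obtain ⟨s, hs, h⟩ := hc a
    exact mem_biUnion hs h
  rw [h2] at h1
  have h3 := le_aleph0_iff_set_countable.2 h1
  rw [mk_univ, mk_ord_toType] at h3
  exact absurd h3 (not_le.2 aleph0_lt_aleph_one)

theorem exists_book :
    ∃ (Γ : Type) (_ : LinearOrder Γ) (e : Γ → Γ → ℝ), #Γ = 𝔠 ∧ Book e := by
  let W := (ℵ₁ : Cardinal.{0}).ord.ToType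
  have hc : #(W ×ₗ ℝ) = 𝔠 := by
    have : #(W ×ₗ ℝ) = #(W × ℝ) := rfl
    rw [this, mk_prod, lift_id, lift_id, mk_real, mk_ord_toType]
    exact mul_eq_right aleph0_le_continuum aleph_one_le_continuum (aleph_pos _).ne'
  have h1 := card_nice_le (W ×ₗ ℝ) hc.le
  rw [← mk_real] at h1
  obtain ⟨ι⟩ := (le_def _ _).1 h1
  have : Nonempty {G : W ×ₗ ℝ → ℝ // Nice G} := ⟨⟨_, nice_zero⟩⟩
  have hs := Function.invFun_surjective ι.injective
  refine ⟨W ×ₗ ℝ, inferInstance, fun γ => (Function.invFun ι (ofLex γ).2).1, hc,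
    fun γ => (Function.invFun ι (ofLex γ).2).2, fun G hG S hS => ?_⟩
  obtain ⟨a, ha⟩ := bdd_omega1 ((fun γ => (ofLex γ).1) '' S) (hS.image _)
  obtain ⟨r, hr⟩ := hs ⟨G, hG⟩
  refine ⟨toLex (a, r), fun s hs => ?_, ?_⟩
  · rw [Prod.Lex.lt_iff]
    exact Or.inl (ha _ ⟨s, hs, rfl⟩)
  · simp only [ofLex_toLex]
    rw [hr]

lemma Nice.comp {Γ Δ : Type} {G : Γ → ℝ} (hG : Nice G) (φ : Δ ≃ Γ) : Nice (G ∘ φ) :=
  ⟨hG.1.preimage_of_injOn φ.injective.injOn, fun ξ => hG.2 (φ ξ)⟩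

theorem exists_book_real : ∃ (i : LinearOrder ℝ) (e : ℝ → ℝ → ℝ), @Book ℝ i e := by
  obtain ⟨Γ, _, e, hc, hb⟩ := exists_book
  rw [← mk_real] at hc
  obtain ⟨φ⟩ := Cardinal.eq.1 hc.symm
  refine ⟨LinearOrder.lift' φ φ.injective, fun r => e (φ r) ∘ φ,
    fun r => (hb.1 _).comp φ, fun G hG S hS => ?_⟩
  obtain ⟨γ, h1, h2⟩ := hb.2 (G ∘ φ.symm) (hG.comp φ.symm) (φ '' S) (hS.image _)
  refine ⟨φ.symm γ, fun s hs => ?_, ?_⟩
  · show φ s < φ (φ.symm γ)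
    rw [φ.apply_symm_apply]
    exact h1 _ ⟨s, hs, rfl⟩
  · show e (φ (φ.symm γ)) ∘ φ = G
    rw [φ.apply_symm_apply, h2]
    funext r
    simp

end Pool.Agent.MP917bd5.St
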