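import Mathlib

set_option autoImplicit false

namespace Pool.Agent.MP917bd5.St

open Set Metric Filter Topology

section Cells

variable {E : Type} [NormedAddCommGroup E] [NormedSpace ℝ E]

/-- the open ball of the seminorm `Φ` with centre `p.1` and radius `p.2` -/
def cell (Φ : Seminorm ℝ E) (p : E × ℝ) : Set E := {x | Φ (x - p.1) < p.2}

lemma cont_semi (Φ : Seminorm ℝ E) (h2 : ∀ x, Φ x ≤ ‖x‖) : Continuous Φ := by
  refine (LipschitzWith.of_dist_le_mul (K := 1) fun x y => ?_).continuous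
  rw [NNReal.coe_one, one_mul, dist_eq_norm, dist_eq_norm]
  exact (Φ.norm_sub_map_le_sub x y).trans (h2 _)

lemma isOpen_cell (Φ : Seminorm ℝ E) (h2 : ∀ x, Φ x ≤ ‖x‖) (p : E × ℝ) : IsOpen (cell Φ p) :=
  isOpen_lt ((cont_semi Φ h2).comp (continuous_id.sub continuous_const)) continuous_const

lemma exists_cells (Φ : Seminorm ℝ E) (h1 : ∀ x, ‖x‖ ≤ 2 * Φ x) :
    ∃ A : Set (E × ℝ), A.PairwiseDisjoint (cell Φ) ∧ Dense (⋃ p ∈ A, cell Φ p) := by
  obtain ⟨A, hA⟩ := zorn_subset {A : Set (E × ℝ) | A.PairwiseDisjoint (cell Φ)} (by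
    intro c hc hch
    exact ⟨⋃₀ c, (pairwiseDisjoint_sUnion hch.directedOn).2 fun u hu => hc hu,
      fun s hs => subset_sUnion_of_mem hs⟩)
  refine ⟨A, hA.prop, ?_⟩
  rw [Metric.dense_iff]
  intro z ρ hρ
  by_contra hne
  rw [not_nonempty_iff_eq_empty] at hne
  have hsub : cell Φ (z, ρ / 2) ⊆ ball z ρ := by
    intro x hx
    have hx' : Φ (x - z) < ρ / 2 := hx
    rw [mem_ball, dist_eq_norm]
    linarith [h1 (x - z)]
  have hz : z ∈ cell Φ (z, ρ / 2) := by
    show Φ (z - z) < ρ / 2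
    rw [sub_self, map_zero]; linarith
  have hdis : ∀ p ∈ A, Disjoint (cell Φ (z, ρ / 2)) (cell Φ p) := by
    intro p hp
    rw [Set.disjoint_left]
    intro x hx hx'
    have : x ∈ ball z ρ ∩ ⋃ p ∈ A, cell Φ p := ⟨hsub hx, mem_biUnion hp hx'⟩
    rw [hne] at this
    exact this
  have hins : (insert (z, ρ / 2) A).PairwiseDisjoint (cell Φ) :=
    hA.prop.insert fun p hp _ => hdis p hp
  have hmem : (z, ρ / 2) ∈ A := hA.le_of_ge hins (subset_insert _ _) (mem_insert _ _)
  exact Set.disjoint_left.1 (hdis _ hmem) hz hz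

theorem cells_main [CompleteSpace E] (Φ : Seminorm ℝ E) (h1 : ∀ x, ‖x‖ ≤ 2 * Φ x)
    (h2 : ∀ x, Φ x ≤ ‖x‖) (O : ℕ → Set E) (hO : ∀ n, IsOpen (O n)) (hD : ∀ n, Dense (O n))
    (hU : ∀ x, (∀ n, x ∈ O n) →
      ¬ {u : E | ‖u‖ ≤ 1 ∧ ∀ s : ℝ, 0 ≤ s → Φ x + s ≤ Φ (x + s • u)}.Countable) :
    ∃ G : Set E, IsClosed G ∧ G.Nonempty ∧
      IsMeagre {x | {y ∈ G | dist x y = infDist x G}.Countable} := by
  obtain ⟨A, hA, hAd⟩ := exists_cells Φ h1
  set U : Set E := ⋃ p ∈ A, cell Φ p with hUdef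
  have hUo : IsOpen U := isOpen_biUnion fun p _ => isOpen_cell Φ h2 p
  let O' : ℕ → Set E := fun n => ⋃ p ∈ A, cell Φ p ∩ (fun x => x - p.1) ⁻¹' O n
  have hO'o : ∀ n, IsOpen (O' n) := fun n => isOpen_biUnion fun p _ =>
    (isOpen_cell Φ h2 p).inter ((hO n).preimage (continuous_id.sub continuous_const))
  have hO'd : ∀ n, Dense (O' n) := by
    intro n
    rw [dense_iff_inter_open]
    intro V hV hVn
    obtain ⟨x, hxV, hxU⟩ := hAd.inter_open_nonempty V hV hVn
    obtain ⟨p, hp, hxp⟩ := mem_iUnion₂.1 hxU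
    have hd : Dense ((fun x => x - p.1) ⁻¹' O n) :=
      (hD n).preimage (Homeomorph.subRight p.1).isOpenMap
    obtain ⟨y, ⟨hy1, hy2⟩, hy3⟩ := hd.inter_open_nonempty (V ∩ cell Φ p)
      (hV.inter (isOpen_cell Φ h2 p)) ⟨x, hxV, hxp⟩
    exact ⟨y, hy1, mem_biUnion hp ⟨hy2, hy3⟩⟩
  have key : ∀ x, (∀ n, x ∈ O' n) → ¬ {y ∈ Uᶜ | dist x y = infDist x Uᶜ}.Countable := by
    intro x hx hcount
    obtain ⟨p, hp, hxp, -⟩ := mem_iUnion₂.1 (hx 0)
    have hxO : ∀ n, x - p.1 ∈ O n := by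
      intro n
      obtain ⟨q, hq, hxq, hxq'⟩ := mem_iUnion₂.1 (hx n)
      have : p = q := by
        by_contra hne
        exact Set.disjoint_left.1 (hA hp hq hne) hxp hxq
      rw [this]; exact hxq'
    have hxp' : Φ (x - p.1) < p.2 := hxp
    set d : ℝ := p.2 - Φ (x - p.1) with hd
    have hd0 : 0 < d := sub_pos.2 hxp'
    have hlow : ∀ y ∈ Uᶜ, d ≤ dist x y := by
      intro y hy
      have h3 : ¬ Φ (y - p.1) < p.2 := fun h => hy (mem_biUnion hp h)
      have h4 : Φ (y - p.1) ≤ Φ (x - p.1) + Φ (y - x) := by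
        have := map_add_le_add Φ (x - p.1) (y - x)
        rwa [show x - p.1 + (y - x) = y - p.1 by abel] at this
      have h5 := h2 (y - x)
      rw [dist_comm, dist_eq_norm]
      linarith [not_lt.1 h3]
    apply hU (x - p.1) hxO
    have hinj : Function.Injective (fun u : E => x + d • u) := by
      intro u v huv
      exact smul_right_injective E hd0.ne' (add_left_cancel huv)
    refine (hcount.preimage_of_injOn hinj.injOn).mono ?_
    rintro u ⟨hu1, hu2⟩
    have hG : x + d • u ∈ Uᶜ := by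
      intro hmem
      obtain ⟨q, hq, hyq⟩ := mem_iUnion₂.1 hmem
      by_cases hpq : p = q
      · rw [← hpq] at hyq
        have h6 : Φ (x + d • u - p.1) < p.2 := hyq
        have h7 := hu2 d hd0.le
        rw [show x - p.1 + d • u = x + d • u - p.1 by abel] at h7
        linarith
      · have hc : Continuous fun s : ℝ => x + s • u := by fun_prop
        have hev : ∀ᶠ s in 𝓝 d, x + s • u ∈ cell Φ q :=
          hc.continuousAt.eventually_mem ((isOpen_cell Φ h2 q).mem_nhds hyq)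
        have hev2 : ∀ᶠ s in 𝓝[<] d, x + s • u ∈ cell Φ q := hev.filter_mono nhdsWithin_le_nhds
        have hev3 : ∀ᶠ s in 𝓝[<] d, s ∈ Ioo 0 d := Ioo_mem_nhdsLT hd0
        obtain ⟨s, hs1, hs2⟩ := (hev2.and hev3).exists
        refine Set.disjoint_left.1 (hA hp hq hpq) ?_ hs1
        show Φ (x + s • u - p.1) < p.2
        have h8 := map_add_le_add Φ (x - p.1) (s • u)
        rw [show x - p.1 + s • u = x + s • u - p.1 by abel] at h8
        have h9 := h2 (s • u)
        rw [norm_smul, Real.norm_eq_abs, abs_of_pos hs2.1] at h9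
        have h10 : s * ‖u‖ ≤ s := mul_le_of_le_one_right hs2.1.le hu1
        linarith [hs2.2]
    have hdist : dist x (x + d • u) ≤ d := by
      rw [dist_eq_norm, show x - (x + d • u) = -(d • u) by abel, norm_neg, norm_smul,
        Real.norm_eq_abs, abs_of_pos hd0]
      exact mul_le_of_le_one_right hd0.le hu1
    refine ⟨hG, le_antisymm ?_ (infDist_le_dist_of_mem hG)⟩
    exact hdist.trans ((le_infDist ⟨_, hG⟩).2 fun y hy => hlow y hy)
  have hres : (⋂ n, O' n) ∈ residual E :=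
    countable_iInter_mem.2 fun n => residual_of_dense_open (hO'o n) (hO'd n)
  refine ⟨Uᶜ, hUo.isClosed_compl, ?_, ?_⟩
  · obtain ⟨x, hx⟩ := (dense_of_mem_residual hres).nonempty
    by_contra hne
    apply key x (mem_iInter.1 hx)
    rw [not_nonempty_iff_eq_empty] at hne
    exact countable_empty.mono fun y hy => hne ▸ hy.1
  · exact mem_of_superset hres fun x hx => key x (mem_iInter.1 hx)

end Cells

end Pool.Agent.MP917bd5.St
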