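import Pool.Agent.P.MP_917bd5_an.StA

set_option autoImplicit false

namespace Pool.Agent.MP917bd5.St

open Set Metric Filter Topology

noncomputable section

variable {Γ : Type}

/-- the space of summable families -/
abbrev L1 (Γ : Type) : Type := lp (fun _ : Γ => ℝ) 1

lemma hasSum_abs (x : L1 Γ) : HasSum (fun γ => |x γ|) ‖x‖ := by
  have := lp.hasSum_norm (p := 1) (by simp) x
  simpa using this

lemma summable_abs' (x : L1 Γ) : Summable (fun γ => |x γ|) := (hasSum_abs x).summable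

lemma abs_le_norm (x : L1 Γ) (γ : Γ) : |x γ| ≤ ‖x‖ := lp.norm_apply_le_norm (by simp) x γ

lemma supp_countable (x : L1 Γ) : (Function.support (fun γ => x γ)).Countable := by
  have := (summable_abs' x).countable_support
  refine this.mono fun γ hγ => ?_
  simpa using hγ

/-- functions with values in `[0,1]` -/
def U01 (F : Γ → ℝ) : Prop := ∀ γ, 0 ≤ F γ ∧ F γ ≤ 1

/-- the weighted sum -/
def PP (F : Γ → ℝ) (x : L1 Γ) : ℝ := ∑' γ, F γ * |x γ|

lemma U01.summable {F : Γ → ℝ} (hF : U01 F) (x : L1 Γ) : Summable (fun γ => F γ * |x γ|) :=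
  Summable.of_nonneg_of_le (fun γ => mul_nonneg (hF γ).1 (abs_nonneg _))
    (fun γ => mul_le_of_le_one_left (abs_nonneg _) (hF γ).2) (summable_abs' x)

lemma U01.PP_nonneg {F : Γ → ℝ} (hF : U01 F) (x : L1 Γ) : 0 ≤ PP F x :=
  tsum_nonneg fun γ => mul_nonneg (hF γ).1 (abs_nonneg _)

lemma U01.PP_le {F : Γ → ℝ} (hF : U01 F) (x : L1 Γ) : PP F x ≤ ‖x‖ := by
  rw [← (hasSum_abs x).tsum_eq]
  exact (hF.summable x).tsum_le_tsum
    (fun γ => mul_le_of_le_one_left (abs_nonneg _) (hF γ).2) (summable_abs' x)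

lemma U01.PP_add {F : Γ → ℝ} (hF : U01 F) (x y : L1 Γ) : PP F (x + y) ≤ PP F x + PP F y := by
  unfold PP
  rw [← (hF.summable x).tsum_add (hF.summable y)]
  refine (hF.summable _).tsum_le_tsum (fun γ => ?_) ((hF.summable x).add (hF.summable y))
  rw [← mul_add]
  refine mul_le_mul_of_nonneg_left ?_ (hF γ).1
  rw [lp.coeFn_add, Pi.add_apply]
  exact abs_add_le _ _

lemma PP_smul (F : Γ → ℝ) (c : ℝ) (x : L1 Γ) : PP F (c • x) = |c| * PP F x := by
  unfold PP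
  rw [← tsum_mul_left]
  refine tsum_congr fun γ => ?_
  rw [lp.coeFn_smul, Pi.smul_apply, smul_eq_mul, abs_mul]
  ring

lemma PP_zero (F : Γ → ℝ) : PP F (0 : L1 Γ) = 0 := by
  unfold PP
  simp

lemma U01.PP_lip {F : Γ → ℝ} (hF : U01 F) (x y : L1 Γ) : PP F x ≤ PP F y + ‖x - y‖ := by
  have h1 := hF.PP_add y (x - y)
  rw [add_sub_cancel] at h1
  linarith [hF.PP_le (x - y)]

lemma PP_mono {F G : Γ → ℝ} (hF : U01 F) (hG : U01 G) (c : ℝ) (x : L1 Γ)
    (h : ∀ γ, x γ ≠ 0 → c * F γ ≤ G γ) : c * PP F x ≤ PP G x := by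
  unfold PP
  rw [← tsum_mul_left]
  refine ((hF.summable x).mul_left c).tsum_le_tsum (fun γ => ?_) (hG.summable x)
  by_cases hx : x γ = 0
  · simp [hx]
  · rw [← mul_assoc]
    exact mul_le_mul_of_nonneg_right (h γ hx) (abs_nonneg _)

lemma continuousOn_PP (x : L1 Γ) : ContinuousOn (fun F => PP F x) {F | U01 F} := by
  refine continuousOn_tsum (fun γ => ?_) (summable_abs' x) fun γ F hF => ?_
  · exact ((continuous_apply γ).mul continuous_const).continuousOn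
  · rw [Real.norm_eq_abs, abs_of_nonneg (mul_nonneg (hF γ).1 (abs_nonneg _))]
    exact mul_le_of_le_one_left (abs_nonneg _) (hF γ).2

variable [LinearOrder Γ]

/-- the unit vectors -/
def ee (γ : Γ) : L1 Γ := lp.single 1 γ (1 : ℝ)

lemma ee_apply (γ ξ : Γ) : ee γ ξ = if ξ = γ then 1 else 0 := by
  unfold ee
  rw [lp.single_apply, Pi.single_apply]

lemma norm_ee (γ : Γ) : ‖ee γ‖ = 1 := by
  unfold ee
  rw [lp.norm_single (by simp)]; simp

lemma ee_inj : Function.Injective (ee : Γ → L1 Γ) := by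
  intro a b h
  have h1 : ee a a = ee b a := by rw [h]
  rw [ee_apply, ee_apply, if_pos rfl] at h1
  by_contra hne
  rw [if_neg hne] at h1
  exact one_ne_zero h1

lemma U01.PP_single {F : Γ → ℝ} (hF : U01 F) (x : L1 Γ) (γ : Γ) (hx : x γ = 0) (s : ℝ)
    (hs : 0 ≤ s) : PP F (x + s • ee γ) = PP F x + s * F γ := by
  have h1 : HasSum (fun ξ => if ξ = γ then s * F γ else 0) (s * F γ) := hasSum_ite_eq γ _
  have h2 := (hF.summable x).hasSum.add h1
  unfold PP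
  rw [← h2.tsum_eq]
  refine tsum_congr fun ξ => ?_
  rw [lp.coeFn_add, Pi.add_apply, lp.coeFn_smul, Pi.smul_apply, ee_apply, smul_eq_mul]
  by_cases h : ξ = γ
  · subst h
    simp [hx, abs_of_nonneg hs, mul_comm]
  · simp [h]

/-- the compact family of weights -/
def KK (e : Γ → Γ → ℝ) : Set (Γ → ℝ) :=
  {F | U01 F ∧ ∀ γ, F γ ≤ 1 / 2 ∨ ∀ ξ, ξ < γ → F ξ = e γ ξ}

variable (e : Γ → Γ → ℝ)

lemma half_mem : (fun _ => (1 / 2 : ℝ)) ∈ KK e :=
  ⟨fun _ => ⟨by norm_num, by norm_num⟩, fun _ => Or.inl le_rfl⟩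

lemma isCompact_KK : IsCompact (KK e) := by
  refine (isCompact_univ_pi fun _ : Γ => (isCompact_Icc : IsCompact (Icc (0 : ℝ) 1))).of_isClosed_subset
    ?_ fun F hF γ _ => hF.1 γ
  have h1 : KK e = (⋂ γ, {F : Γ → ℝ | 0 ≤ F γ} ∩ {F | F γ ≤ 1}) ∩
      ⋂ γ, ({F : Γ → ℝ | F γ ≤ 1 / 2} ∪ ⋂ ξ, ⋂ (_ : ξ < γ), {F | F ξ = e γ ξ}) := by
    ext F
    simp [KK, U01]
  rw [h1]
  refine (isClosed_iInter fun γ => ?_).inter (isClosed_iInter fun γ => ?_)
  · exact (isClosed_le continuous_const (continuous_apply γ)).inter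
      (isClosed_le (continuous_apply γ) continuous_const)
  · exact (isClosed_le (continuous_apply γ) continuous_const).union
      (isClosed_iInter fun ξ => isClosed_iInter fun _ =>
        isClosed_eq (continuous_apply ξ) continuous_const)

lemma exists_mx (x : L1 Γ) : ∃ F ∈ KK e, ∀ G ∈ KK e, PP G x ≤ PP F x := by
  obtain ⟨F, hF, h⟩ := (isCompact_KK e).exists_isMaxOn ⟨_, half_mem e⟩
    ((continuousOn_PP x).mono fun F hF => hF.1)
  exact ⟨F, hF, fun G hG => h hG⟩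

/-- a maximising weight -/
def mx (x : L1 Γ) : Γ → ℝ := (exists_mx e x).choose

lemma mx_mem (x : L1 Γ) : mx e x ∈ KK e := (exists_mx e x).choose_spec.1

lemma le_mx (x : L1 Γ) {G : Γ → ℝ} (hG : G ∈ KK e) : PP G x ≤ PP (mx e x) x :=
  (exists_mx e x).choose_spec.2 G hG

/-- the first renorming -/
def Phi : Seminorm ℝ (L1 Γ) :=
  Seminorm.ofSMulLE (fun x => PP (mx e x) x) (PP_zero _)
    (fun x y => ((mx_mem e (x + y)).1.PP_add x y).trans
      (add_le_add (le_mx e x (mx_mem e _)) (le_mx e y (mx_mem e _))))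
    (fun c x => by
      rw [PP_smul, Real.norm_eq_abs]
      exact mul_le_mul_of_nonneg_left (le_mx e x (mx_mem e _)) (abs_nonneg _))

lemma Phi_eq (x : L1 Γ) : Phi e x = PP (mx e x) x := rfl

lemma le_Phi (x : L1 Γ) {G : Γ → ℝ} (hG : G ∈ KK e) : PP G x ≤ Phi e x := le_mx e x hG

lemma norm_le_Phi (x : L1 Γ) : ‖x‖ ≤ 2 * Phi e x := by
  have h1 := le_Phi e x (half_mem e)
  have h2 : PP (fun _ => (1 / 2 : ℝ)) x = 1 / 2 * ‖x‖ := by
    unfold PP
    rw [tsum_mul_left, (hasSum_abs x).tsum_eq]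
  linarith

lemma Phi_le_norm (x : L1 Γ) : Phi e x ≤ ‖x‖ := (mx_mem e x).1.PP_le x

variable {e}

lemma one_unique (hb : Book e) {F : Γ → ℝ} (hF : F ∈ KK e) {a b : Γ} (ha : F a = 1)
    (hb' : F b = 1) : a = b := by
  have key : ∀ a b : Γ, F a = 1 → F b = 1 → ¬ a < b := by
    intro a b ha hb' hab
    rcases hF.2 b with h | h
    · rw [hb'] at h; norm_num at h
    · have := ((hb.1 b).2 a).2
      rw [← h a hab, ha] at this
      exact lt_irrefl _ this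
  exact le_antisymm (not_lt.1 (key b a hb' ha)) (not_lt.1 (key a b ha hb'))

lemma trunc (hb : Book e) {F : Γ → ℝ} (hF : F ∈ KK e) (T S : Set Γ) (hT : T.Countable)
    (hS : S.Countable) (hTF : ∀ γ ∈ T, 1 / 2 < F γ) (hST : ∀ γ ∈ S, 1 / 2 < F γ → γ ∈ T)
    (c : ℝ) (hc0 : 0 ≤ c) (hc1 : c < 1) :
    ∃ G ∈ KK e, Nice G ∧ (∀ ξ, (∃ γ ∈ T, ξ < γ) → G ξ = F ξ) ∧ ∀ ξ ∈ S, c * F ξ ≤ G ξ := by
  classical
  let G : Γ → ℝ := fun ξ => if ∃ γ ∈ T, ξ < γ then F ξ else if ξ ∈ S then c * F ξ else 0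
  have hcF : ∀ ξ, c * F ξ ≤ F ξ := fun ξ => mul_le_of_le_one_left (hF.1 ξ).1 hc1.le
  have hcF1 : ∀ ξ, c * F ξ < 1 := fun ξ =>
    (mul_le_of_le_one_right hc0 (hF.1 ξ).2).trans_lt hc1
  have hG1 : ∀ ξ, (∃ γ ∈ T, ξ < γ) → G ξ = F ξ := fun ξ h => if_pos h
  have hFe : ∀ γ ∈ T, ∀ ξ, ξ < γ → F ξ = e γ ξ := fun γ hγ =>
    (hF.2 γ).resolve_left (not_le.2 (hTF γ hγ))
  have hGlt : ∀ ξ, 0 ≤ G ξ ∧ G ξ < 1 := by
    intro ξ
    by_cases h : ∃ γ ∈ T, ξ < γ
    · rw [hG1 ξ h]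
      obtain ⟨γ, hγ, hlt⟩ := h
      rw [hFe γ hγ ξ hlt]
      exact (hb.1 γ).2 ξ
    · by_cases h' : ξ ∈ S
      · have : G ξ = c * F ξ := by simp only [G, if_neg h, if_pos h']
        rw [this]
        exact ⟨mul_nonneg hc0 (hF.1 ξ).1, hcF1 ξ⟩
      · have : G ξ = 0 := by simp only [G, if_neg h, if_neg h']
        rw [this]
        exact ⟨le_rfl, one_pos⟩
  refine ⟨G, ⟨fun ξ => ⟨(hGlt ξ).1, (hGlt ξ).2.le⟩, fun γ => ?_⟩, ⟨?_, hGlt⟩, hG1, ?_⟩
  · by_cases h : ∃ γ' ∈ T, γ < γ'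
    · rw [hG1 γ h]
      rcases hF.2 γ with h' | h'
      · exact Or.inl h'
      · obtain ⟨γ', hγ', hlt⟩ := h
        exact Or.inr fun ξ hξ => by rw [hG1 ξ ⟨γ', hγ', hξ.trans hlt⟩, h' ξ hξ]
    · by_cases h' : γ ∈ S
      · have h3 : G γ = c * F γ := by simp only [G, if_neg h, if_pos h']
        by_cases h4 : F γ ≤ 1 / 2
        · exact Or.inl (h3 ▸ (hcF γ).trans h4)
        · have h5 := hST γ h' (not_le.1 h4)
          exact Or.inr fun ξ hξ => by rw [hG1 ξ ⟨γ, h5, hξ⟩, hFe γ h5 ξ hξ]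
      · have : G γ = 0 := by simp only [G, if_neg h, if_neg h']
        exact Or.inl (by rw [this]; norm_num)
  · refine (hS.union (hT.biUnion fun γ _ => (hb.1 γ).1)).mono fun ξ hξ => ?_
    by_cases h : ∃ γ ∈ T, ξ < γ
    · have h6 : G ξ ≠ 0 := hξ
      rw [hG1 ξ h] at h6
      obtain ⟨γ, hγ, hlt⟩ := h
      rw [hFe γ hγ ξ hlt] at h6
      exact Or.inr (mem_biUnion hγ h6)
    · by_cases h' : ξ ∈ S
      · exact Or.inl h'
      · exact absurd (by simp only [G, if_neg h, if_neg h']) hξ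
  · intro ξ hξ
    by_cases h : ∃ γ ∈ T, ξ < γ
    · rw [hG1 ξ h]; exact hcF ξ
    · simp only [G, if_neg h, if_pos hξ, le_refl]

lemma extend (hb : Book e) {G : Γ → ℝ} (hG : G ∈ KK e) (hN : Nice G) (x : L1 Γ) (S : Set Γ)
    (hS : S.Countable) : ∃ γ, (∀ s ∈ S, s < γ) ∧ (∀ ξ, γ ≤ ξ → x ξ = 0) ∧
      ∃ H ∈ KK e, ∀ s : ℝ, 0 ≤ s → PP G x + s ≤ PP H (x + s • ee γ) := by
  obtain ⟨γ, hγ, he⟩ := hb.2 G hN ((S ∪ Function.support G) ∪ Function.support (fun γ => x γ))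
    ((hS.union hN.1).union (supp_countable x))
  have hx : ∀ ξ, γ ≤ ξ → x ξ = 0 := by
    intro ξ hξ
    by_contra h
    exact absurd (hγ ξ (Or.inr h)) (not_lt.2 hξ)
  have hH : Function.update G γ 1 ∈ KK e := by
    refine ⟨fun ξ => ?_, fun γ' => ?_⟩
    · by_cases h : ξ = γ
      · subst h; simp
      · rw [Function.update_of_ne h]; exact hG.1 ξ
    · by_cases h : γ' = γ
      · subst h
        exact Or.inr fun ξ hξ => by rw [Function.update_of_ne hξ.ne, he]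
      · rw [Function.update_of_ne h]
        by_cases h0 : G γ' = 0
        · exact Or.inl (by rw [h0]; norm_num)
        · have hlt : γ' < γ := hγ γ' (Or.inl (Or.inr h0))
          rcases hG.2 γ' with h' | h'
          · exact Or.inl h'
          · exact Or.inr fun ξ hξ => by rw [Function.update_of_ne (hξ.trans hlt).ne, h' ξ hξ]
  refine ⟨γ, fun s hs => hγ s (Or.inl (Or.inl hs)), hx, _, hH, fun s hs => ?_⟩
  rw [hH.1.PP_single x γ (hx γ le_rfl) s hs, Function.update_self, mul_one]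
  have := PP_mono hG.1 hH.1 1 x fun ξ hξ => by
    have h : ξ ≠ γ := fun h => hξ (hx ξ h.ge)
    rw [Function.update_of_ne h, one_mul]
  linarith

/-- the sets whose interiors are dense -/
def AA (e : Γ → Γ → ℝ) (n : ℕ) : Set (L1 Γ) :=
  {x | ∃ δ, (∀ ξ, δ ≤ ξ → |x ξ| ≤ 1 / ((n : ℝ) + 1)) ∧
    ∀ F ∈ KK e, PP F x = Phi e x → 1 / 2 < F δ}

lemma dense_AA (hb : Book e) (n : ℕ) : Dense (interior (AA e n)) := by
  rw [Metric.dense_iff]
  intro y ε hε
  have hn : (0 : ℝ) < 1 / ((n : ℝ) + 1) := by positivity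
  obtain ⟨t, ht0, ht1, ht2⟩ : ∃ t : ℝ, 0 < t ∧ t < ε ∧ 2 * t ≤ 1 / ((n : ℝ) + 1) :=
    ⟨min (ε / 2) (1 / ((n : ℝ) + 1) / 2), by positivity,
      (min_le_left _ _).trans_lt (by linarith), by linarith [min_le_right (ε / 2) (1 / ((n : ℝ) + 1) / 2)]⟩
  obtain ⟨η, hη0, hη1, hη2⟩ : ∃ η : ℝ, 0 < η ∧ η ≤ 1 ∧ η * ‖y‖ ≤ t / 8 := by
    refine ⟨min 1 (t / 8 / (‖y‖ + 1)), by positivity, min_le_left _ _, ?_⟩
    have h1 : min 1 (t / 8 / (‖y‖ + 1)) ≤ t / 8 / (‖y‖ + 1) := min_le_right _ _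
    rw [le_div_iff₀ (by positivity)] at h1
    have h2 : (0 : ℝ) ≤ min 1 (t / 8 / (‖y‖ + 1)) := by positivity
    nlinarith
  obtain ⟨G, hG, hN, -, hGS⟩ := trunc hb (mx_mem e y)
    {γ ∈ Function.support (fun γ => y γ) | 1 / 2 < mx e y γ} (Function.support (fun γ => y γ))
    ((supp_countable y).mono (sep_subset _ _)) (supp_countable y) (fun γ h => h.2)
    (fun γ h h' => ⟨h, h'⟩) (1 - η) (by linarith) (by linarith)
  have hGy : Phi e y - t / 8 ≤ PP G y := by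
    have h1 := PP_mono (mx_mem e y).1 hG.1 (1 - η) y hGS
    rw [← Phi_eq] at h1
    have h2 := Phi_le_norm e y
    nlinarith
  obtain ⟨δ, -, hδ, H, hH, hHs⟩ := extend hb hG hN y ∅ countable_empty
  refine ⟨y + t • ee δ, ?_, ?_⟩
  · rw [mem_ball, dist_eq_norm, add_sub_cancel_left, norm_smul, norm_ee, mul_one,
      Real.norm_eq_abs, abs_of_pos ht0]
    exact ht1
  · rw [mem_interior_iff_mem_nhds, Metric.mem_nhds_iff]
    refine ⟨t / 8, by positivity, fun x hx => ⟨δ, fun ξ hξ => ?_, fun F hF hFx => ?_⟩⟩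
    · rw [mem_ball, dist_eq_norm] at hx
      have h1 := abs_le_norm (x - (y + t • ee δ)) ξ
      rw [lp.coeFn_sub, Pi.sub_apply, lp.coeFn_add, Pi.add_apply, lp.coeFn_smul, Pi.smul_apply,
        hδ ξ hξ, ee_apply, smul_eq_mul, zero_add] at h1
      have h2 : |x ξ - t * if ξ = δ then 1 else 0| < t / 8 := h1.trans_lt hx
      rw [abs_lt] at h2
      rw [abs_le]
      split_ifs at h2 <;> constructor <;> linarith [h2.1, h2.2]
    · rw [mem_ball, dist_eq_norm] at hx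
      by_contra hc
      rw [not_lt] at hc
      have h1 := hF.1.PP_lip x (y + t • ee δ)
      rw [hF.1.PP_single y δ (hδ δ le_rfl) t ht0.le] at h1
      have h2 := hH.1.PP_lip (y + t • ee δ) x
      rw [norm_sub_rev] at h2
      have h3 := hHs t ht0.le
      have h4 := le_Phi e x hH
      have h5 := le_Phi e y hF
      have h6 : t * F δ ≤ t * (1 / 2) := mul_le_mul_of_nonneg_left hc ht0.le
      linarith

lemma good_AA (hb : Book e) (x : L1 Γ) (hx : ∀ n, x ∈ AA e n) :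
    ¬ {u : L1 Γ | ‖u‖ ≤ 1 ∧ ∀ s : ℝ, 0 ≤ s → Phi e x + s ≤ Phi e (x + s • u)}.Countable := by
  intro hcount
  choose δ hδ1 hδ2 using hx
  obtain ⟨G, hG, hN, hGF, -⟩ := trunc hb (mx_mem e x) (range δ) ∅ (countable_range _)
    countable_empty (by rintro _ ⟨n, rfl⟩; exact hδ2 n _ (mx_mem e x) rfl)
    (fun γ h => h.elim) 0 le_rfl one_pos
  have hGx : Phi e x ≤ PP G x := by
    have := PP_mono (mx_mem e x).1 hG.1 1 x fun ξ hξ => by
      rw [one_mul, hGF ξ ?_]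
      by_contra hc
      push Not at hc
      obtain ⟨n, hn⟩ := exists_nat_one_div_lt (abs_pos.2 hξ)
      exact absurd (hδ1 n ξ (hc _ (mem_range_self n))) (not_le.2 hn)
    rwa [one_mul] at this
  obtain ⟨γ, hγ, -, H, hH, hHs⟩ := extend hb hG hN x _ (hcount.preimage_of_injOn ee_inj.injOn)
  refine lt_irrefl γ (hγ γ ⟨(norm_ee γ).le, fun s hs => ?_⟩)
  linarith [hHs s hs, le_Phi e (x + s • ee γ) hH]

end

end Pool.Agent.MP917bd5.St
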