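import Pool.Agent.P.MP_917bd5_an.StD

set_option autoImplicit false

namespace Pool.Agent.MP917bd5.St

open Set Metric Filter Topology

noncomputable section

variable {Γ : Type}

/-- the space of square summable families -/
abbrev L2 (Γ : Type) : Type := lp (fun _ : Γ => ℝ) 2

lemma mem_two {B : Γ → ℝ} (hB : U01 B) (x : L1 Γ) : Memℓp (fun γ => B γ * x γ) 2 := by
  have h1 : Memℓp (fun γ => x γ) 2 := (lp.memℓp x).of_exponent_ge (by norm_num)
  refine h1.mono' fun γ => ?_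
  rw [norm_mul, Real.norm_eq_abs, abs_of_nonneg (hB γ).1]
  exact mul_le_of_le_one_left (norm_nonneg _) (hB γ).2

/-- the multiplication operator -/
def TT {B : Γ → ℝ} (hB : U01 B) : L1 Γ →ₗ[ℝ] L2 Γ where
  toFun x := ⟨fun γ => B γ * x γ, mem_two hB x⟩
  map_add' x y := by
    apply lp.ext
    funext γ
    show B γ * (x γ + y γ) = B γ * x γ + B γ * y γ
    rw [mul_add]
  map_smul' c x := by
    apply lp.ext
    funext γ
    show B γ * (c * x γ) = c * (B γ * x γ)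
    ring

lemma TT_apply {B : Γ → ℝ} (hB : U01 B) (x : L1 Γ) (γ : Γ) : TT hB x γ = B γ * x γ := rfl

/-- the weighted Hilbert norm -/
def QQ (B : Γ → ℝ) (x : L1 Γ) : ℝ := Real.sqrt (∑' γ, (B γ * x γ) ^ 2)

lemma hasSum_TT {B : Γ → ℝ} (hB : U01 B) (x : L1 Γ) :
    HasSum (fun γ => (B γ * x γ) ^ 2) (‖TT hB x‖ ^ 2) := by
  have := lp.hasSum_norm (p := 2) (by simp) (TT hB x)
  simpa [TT_apply, mul_pow] using this

lemma QQ_eq {B : Γ → ℝ} (hB : U01 B) (x : L1 Γ) : QQ B x = ‖TT hB x‖ := by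
  unfold QQ
  rw [(hasSum_TT hB x).tsum_eq, Real.sqrt_sq (norm_nonneg _)]

lemma QQ_nonneg (B : Γ → ℝ) (x : L1 Γ) : 0 ≤ QQ B x := Real.sqrt_nonneg _

lemma le_QQ {B : Γ → ℝ} (hB : U01 B) (x : L1 Γ) (γ : Γ) : B γ * |x γ| ≤ QQ B x := by
  have := lp.norm_apply_le_norm (by simp) (TT hB x) γ
  rw [TT_apply, Real.norm_eq_abs, abs_mul, abs_of_nonneg (hB γ).1] at this
  rwa [QQ_eq hB]

lemma QQ_le_PP {B : Γ → ℝ} (hB : U01 B) (x : L1 Γ) : QQ B x ≤ PP B x := by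
  unfold QQ
  rw [Real.sqrt_le_left (hB.PP_nonneg x), pow_two]
  have h1 : ∀ γ, B γ * |x γ| ≤ PP B x := fun γ =>
    (hB.summable x).le_tsum γ fun j _ => mul_nonneg (hB j).1 (abs_nonneg _)
  calc ∑' γ, (B γ * x γ) ^ 2 ≤ ∑' γ, PP B x * (B γ * |x γ|) := by
        refine (hasSum_TT hB x).summable.tsum_le_tsum (fun γ => ?_) ((hB.summable x).mul_left _)
        have h2 : (B γ * x γ) ^ 2 = (B γ * |x γ|) * (B γ * |x γ|) := by
          rw [mul_pow, ← sq_abs (x γ)]; ring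
        rw [h2]
        exact mul_le_mul_of_nonneg_right (h1 γ) (mul_nonneg (hB γ).1 (abs_nonneg _))
    _ = PP B x * PP B x := tsum_mul_left

/-- the Hilbert weight attached to `(F, s)` -/
def BB (p : (Γ → ℝ) × ℝ) : Γ → ℝ := fun γ => p.2 * (1 - p.1 γ) + p.2 ^ 2 * p.1 γ

lemma BB_U01 {p : (Γ → ℝ) × ℝ} (hF : U01 p.1) (hs : p.2 ∈ Icc (0 : ℝ) 1) : U01 (BB p) := by
  intro γ
  obtain ⟨h1, h2⟩ := hF γ
  obtain ⟨h3, h4⟩ := hs
  unfold BB
  have h5 : p.2 ^ 2 ≤ 1 := by nlinarith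
  constructor
  · have : 0 ≤ 1 - p.1 γ := by linarith
    positivity
  · nlinarith [mul_le_mul_of_nonneg_right h4 (sub_nonneg.2 h2), mul_le_mul_of_nonneg_right h5 h1]

/-- the seminorm attached to `(F, s)` -/
def val (p : (Γ → ℝ) × ℝ) (x : L1 Γ) : ℝ := (1 - p.2 ^ 2) * PP p.1 x + QQ (BB p) x

lemma val_le_norm {p : (Γ → ℝ) × ℝ} (hF : U01 p.1) (hs : p.2 ∈ Icc (0 : ℝ) 1) (x : L1 Γ) :
    val p x ≤ ‖x‖ := by
  have hB := BB_U01 hF hs
  have h1 := QQ_le_PP hB x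
  have h2 : (1 - p.2 ^ 2) * PP p.1 x + PP (BB p) x ≤ ‖x‖ := by
    unfold PP
    rw [← tsum_mul_left, ← ((hF.summable x).mul_left _).tsum_add (hB.summable x),
      ← (hasSum_abs x).tsum_eq]
    refine (((hF.summable x).mul_left _).add (hB.summable x)).tsum_le_tsum (fun γ => ?_)
      (summable_abs' x)
    rw [← mul_assoc, ← add_mul]
    refine mul_le_of_le_one_left (abs_nonneg _) ?_
    unfold BB
    nlinarith [mul_le_mul_of_nonneg_right hs.2 (sub_nonneg.2 (hF γ).2)]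
  unfold val
  linarith

lemma continuousOn_val (x : L1 Γ) :
    ContinuousOn (fun p : (Γ → ℝ) × ℝ => val p x) ({F | U01 F} ×ˢ Icc 0 1) := by
  refine ContinuousOn.add (ContinuousOn.mul (by fun_prop) ?_) ?_
  · exact (continuousOn_PP x).comp continuousOn_fst fun p hp => hp.1
  · refine Real.continuous_sqrt.comp_continuousOn ?_
    refine continuousOn_tsum (u := fun γ => ‖x‖ * |x γ|) (fun γ => ?_)
      ((summable_abs' x).mul_left _) fun γ p hp => ?_
    · unfold BB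
      fun_prop
    · have hB := BB_U01 hp.1 hp.2 γ
      rw [Real.norm_eq_abs, abs_of_nonneg (by positivity), mul_pow, ← sq_abs (x γ)]
      have h1 : BB p γ ^ 2 ≤ 1 := by nlinarith [hB.1, hB.2]
      have h2 := abs_le_norm x γ
      have h3 := abs_nonneg (x γ)
      nlinarith [mul_le_mul_of_nonneg_right h1 (sq_nonneg |x γ|), mul_le_mul_of_nonneg_right h2 h3]

lemma val_smul {p : (Γ → ℝ) × ℝ} (hF : U01 p.1) (hs : p.2 ∈ Icc (0 : ℝ) 1) (c : ℝ) (x : L1 Γ) :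
    val p (c • x) = |c| * val p x := by
  have hB := BB_U01 hF hs
  unfold val
  rw [PP_smul, QQ_eq hB, QQ_eq hB, map_smul, norm_smul, Real.norm_eq_abs]
  ring

lemma val_add' {p : (Γ → ℝ) × ℝ} (hF : U01 p.1) (hs : p.2 ∈ Icc (0 : ℝ) 1) (x y : L1 Γ) :
    val p (x + y) + (QQ (BB p) x + QQ (BB p) y - QQ (BB p) (x + y)) ≤ val p x + val p y := by
  unfold val
  have h1 : 0 ≤ 1 - p.2 ^ 2 := by nlinarith [hs.1, hs.2]
  nlinarith [mul_le_mul_of_nonneg_left (hF.PP_add x y) h1]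

lemma QQ_add {B : Γ → ℝ} (hB : U01 B) (x y : L1 Γ) : QQ B (x + y) ≤ QQ B x + QQ B y := by
  rw [QQ_eq hB, QQ_eq hB, QQ_eq hB, map_add]
  exact norm_add_le _ _

lemma val_add {p : (Γ → ℝ) × ℝ} (hF : U01 p.1) (hs : p.2 ∈ Icc (0 : ℝ) 1) (x y : L1 Γ) :
    val p (x + y) ≤ val p x + val p y := by
  linarith [val_add' hF hs x y, QQ_add (BB_U01 hF hs) x y]

variable [LinearOrder Γ] (e : Γ → Γ → ℝ)

lemma exists_my (x : L1 Γ) : ∃ p ∈ KK e ×ˢ Icc (0 : ℝ) 1,
    ∀ q ∈ KK e ×ˢ Icc (0 : ℝ) 1, val q x ≤ val p x := by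
  obtain ⟨p, hp, h⟩ := ((isCompact_KK e).prod (isCompact_Icc (a := (0 : ℝ)) (b := 1))).exists_isMaxOn
    ⟨(_, 0), half_mem e, le_rfl, zero_le_one⟩
    ((continuousOn_val x).mono fun p hp => ⟨hp.1.1, hp.2⟩)
  exact ⟨p, hp, fun q hq => h hq⟩

/-- a maximising pair -/
def my (x : L1 Γ) : (Γ → ℝ) × ℝ := (exists_my e x).choose

lemma my_mem (x : L1 Γ) : my e x ∈ KK e ×ˢ Icc (0 : ℝ) 1 := (exists_my e x).choose_spec.1

lemma le_my (x : L1 Γ) {q : (Γ → ℝ) × ℝ} (hq : q ∈ KK e ×ˢ Icc (0 : ℝ) 1) :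
    val q x ≤ val (my e x) x := (exists_my e x).choose_spec.2 q hq

/-- the strictly convex norm -/
def NN : Seminorm ℝ (L1 Γ) :=
  Seminorm.ofSMulLE (fun x => val (my e x) x)
    (by
      have := val_smul (my_mem e 0).1.1 (my_mem e 0).2 0 (0 : L1 Γ)
      rwa [zero_smul, abs_zero, zero_mul] at this)
    (fun x y => (val_add (my_mem e (x + y)).1.1 (my_mem e (x + y)).2 x y).trans
      (add_le_add (le_my e x (my_mem e _)) (le_my e y (my_mem e _))))
    (fun c x => by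
      rw [val_smul (my_mem e _).1.1 (my_mem e _).2, Real.norm_eq_abs]
      exact mul_le_mul_of_nonneg_left (le_my e x (my_mem e _)) (abs_nonneg _))

lemma NN_eq (x : L1 Γ) : NN e x = val (my e x) x := rfl

lemma le_NN (x : L1 Γ) {q : (Γ → ℝ) × ℝ} (hq : q ∈ KK e ×ˢ Icc (0 : ℝ) 1) :
    val q x ≤ NN e x := le_my e x hq

lemma NN_le_norm (x : L1 Γ) : NN e x ≤ ‖x‖ := val_le_norm (my_mem e x).1.1 (my_mem e x).2 x

lemma Phi_le_NN (x : L1 Γ) : Phi e x ≤ NN e x := by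
  have h1 := le_NN e x (q := (mx e x, 0)) ⟨mx_mem e x, le_rfl, zero_le_one⟩
  have h2 := QQ_nonneg (BB (mx e x, 0)) x
  unfold val at h1
  rw [Phi_eq]
  simp only at h1
  linarith

variable {e}

lemma exists_pos_max (hb : Book e) (m : L1 Γ) :
    ∃ p ∈ KK e ×ˢ Icc (0 : ℝ) 1, 0 < p.2 ∧ NN e m ≤ val p m := by
  obtain ⟨hF, hs0, hs1⟩ := my_mem e m
  rcases hs0.lt_or_eq with h | h
  · exact ⟨my e m, my_mem e m, h, (NN_eq e m).le⟩
  set F := (my e m).1 with hFdef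
  have hN : NN e m ≤ PP F m := by
    have hB := BB_U01 hF.1 ⟨hs0, hs1⟩
    have h1 := QQ_le_PP hB m
    have h2 : PP (BB (my e m)) m = 0 := by
      unfold PP BB
      simp [← h]
    rw [NN_eq]
    unfold val
    rw [← h]
    linarith
  have hax : ∀ γ, (1 - F γ) * |m γ| ≤ 0 := by
    intro γ
    refine le_of_forall_pos_le_add fun ε hε => ?_
    have hP := hF.1.PP_nonneg m
    obtain ⟨s, hs0, hs1, hs2⟩ : ∃ s : ℝ, 0 < s ∧ s ≤ 1 ∧ s * PP F m ≤ ε := by
      refine ⟨min 1 (ε / (PP F m + 1)), by positivity, min_le_left _ _, ?_⟩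
      have h1 : min 1 (ε / (PP F m + 1)) ≤ ε / (PP F m + 1) := min_le_right _ _
      rw [le_div_iff₀ (by positivity)] at h1
      have h2 : (0 : ℝ) ≤ min 1 (ε / (PP F m + 1)) := by positivity
      nlinarith
    have h3 := le_NN e m (q := (F, s)) ⟨hF, hs0.le, hs1⟩
    have h4 := le_QQ (BB_U01 (p := (F, s)) hF.1 ⟨hs0.le, hs1⟩) m γ
    unfold val at h3
    unfold BB at h3 h4
    simp only at h3 h4
    have h5 : 0 ≤ s ^ 2 * F γ * |m γ| := by have := (hF.1 γ).1; positivity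
    have h6 : s * ((1 - F γ) * |m γ|) ≤ s * (s * PP F m) := by nlinarith
    linarith [le_of_mul_le_mul_left h6 hs0]
  refine ⟨(F, 1), ⟨hF, zero_le_one, le_rfl⟩, one_pos, hN.trans ?_⟩
  have hB := BB_U01 (p := (F, 1)) hF.1 ⟨zero_le_one, le_rfl⟩
  have hv : val (F, 1) m = QQ (BB (F, 1)) m := by
    unfold val; simp
  rw [hv]
  by_cases hm : ∃ γ, m γ ≠ 0
  · obtain ⟨γ, hγ⟩ := hm
    have h1 : ∀ ξ, m ξ ≠ 0 → F ξ = 1 := fun ξ hξ => by
      have h2 := hax ξ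
      have h3 := abs_pos.2 hξ
      have h4 := (hF.1 ξ).2
      nlinarith
    have h5 : PP F m = F γ * |m γ| := by
      unfold PP
      refine tsum_eq_single γ fun ξ hξ => ?_
      by_cases h6 : m ξ = 0
      · simp [h6]
      · exact absurd (one_unique hb hF (h1 ξ h6) (h1 γ hγ)) hξ
    have h7 := le_QQ hB m γ
    have h8 : BB (F, 1) γ = 1 := by unfold BB; simp
    rw [h8] at h7
    rw [h5, h1 γ hγ]
    exact h7
  · push Not at hm
    have : PP F m = 0 := by unfold PP; simp [hm]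
    rw [this]
    exact QQ_nonneg _ _

lemma NN_strict (hb : Book e) (x y : L1 Γ) (hx : NN e x = 1) (hy : NN e y = 1) (hxy : x ≠ y) :
    NN e (x + y) < 2 := by
  by_contra hc
  rw [not_lt] at hc
  obtain ⟨p, hp, hp0, hm⟩ := exists_pos_max hb (x + y)
  have hB := BB_U01 hp.1.1 hp.2
  have h1 := val_add' hp.1.1 hp.2 x y
  have h2 := le_NN e x hp
  have h3 := le_NN e y hp
  have h4 := QQ_add hB x y
  have h5 : QQ (BB p) (x + y) = QQ (BB p) x + QQ (BB p) y := by linarith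
  rw [QQ_eq hB, QQ_eq hB, QQ_eq hB, map_add] at h5
  have hinj : Function.Injective (TT hB) := by
    intro a b hab
    apply lp.ext
    funext γ
    have h6 : TT hB a γ = TT hB b γ := by rw [hab]
    rw [TT_apply, TT_apply] at h6
    refine mul_left_cancel₀ (ne_of_gt ?_) h6
    unfold BB
    obtain ⟨h7, h8⟩ := hp.1.1 γ
    have h9 := hp.2.2
    nlinarith [mul_nonneg (mul_nonneg hp0.le (sub_nonneg.2 h9)) (sub_nonneg.2 h8), pow_pos hp0 2]
  have h10 : SameRay ℝ x y := hinj.sameRay_map_iff.1 (sameRay_iff_norm_add.2 h5)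
  have hx0 : x ≠ 0 := by rintro rfl; rw [map_zero] at hx; exact zero_ne_one hx
  have hy0 : y ≠ 0 := by rintro rfl; rw [map_zero] at hy; exact zero_ne_one hy
  obtain ⟨r1, r2, hr1, hr2, h11⟩ := h10.exists_pos hx0 hy0
  have h12 := congrArg (NN e) h11
  rw [map_smul_eq_mul, map_smul_eq_mul, hx, hy, mul_one, mul_one, Real.norm_eq_abs,
    Real.norm_eq_abs, abs_of_pos hr1, abs_of_pos hr2] at h12
  rw [h12] at h11
  exact hxy (smul_right_injective _ hr2.ne' h11)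

end

end Pool.Agent.MP917bd5.St
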